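import Pool.Agent.P.MP_6e34ef_nt.SY.Defs

set_option autoImplicit false

namespace Pool.Agent.P.MP_6e34ef_nt.SY

open Finset

theorem siegel_cols {τ Ω : Type} [Fintype τ] [Fintype Ω] (B : Matrix τ Ω ℂ)
    (h : LinearIndependent ℂ B.row) :
    ∃ (κ : Type) (_ : Fintype κ) (a : κ → Ω), Function.Injective a ∧
      Fintype.card κ = Fintype.card τ ∧ LinearIndependent ℂ (B.col ∘ a) := by
  obtain ⟨κ, a, ha, hsp, hli⟩ := exists_linearIndependent' ℂ B.col
  haveI : Finite κ := Finite.of_injective a ha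
  letI : Fintype κ := Fintype.ofFinite κ
  refine ⟨κ, inferInstance, a, ha, ?_, hli⟩
  rw [← finrank_span_eq_card hli, hsp, ← Matrix.rank_eq_finrank_span_cols, h.rank_matrix]

attribute [local instance] Matrix.seminormedAddCommGroup in
theorem siegel_int {ρ κ : Type} [Fintype ρ] [Fintype κ] (A : ρ → κ → ℤ) (M : ℝ) (hM : 1 ≤ M)
    (hA : ∀ i x, |(A i x : ℝ)| ≤ M) (D s : ℕ) (hs : Fintype.card κ = Fintype.card ρ + s)
    (hD : Fintype.card ρ ≤ D * s) (h1 : 0 < Fintype.card ρ) (h2 : 0 < s) :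
    ∃ t : κ → ℤ, t ≠ 0 ∧ (∀ i, ∑ x, A i x * t x = 0) ∧
      ∀ x, |(t x : ℝ)| ≤ (Fintype.card κ * M) ^ D := by
  obtain ⟨t, ht0, ht, hn⟩ := Int.Matrix.exists_ne_zero_int_vec_norm_le (Matrix.of A) (by omega) h1
  refine ⟨t, ht0, fun i => congrFun ht i, fun x => ?_⟩
  have hAn : ‖Matrix.of A‖ ≤ M := by
    rw [Matrix.norm_le_iff (by linarith)]
    intro i x
    rw [Matrix.of_apply, Int.norm_eq_abs]
    exact hA i x
  have hk : (1 : ℝ) ≤ Fintype.card κ := by exact_mod_cast (by omega : 1 ≤ Fintype.card κ)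
  have hs0 : (0 : ℝ) < s := by exact_mod_cast h2
  have he : (Fintype.card ρ : ℝ) / (Fintype.card κ - Fintype.card ρ) ≤ D := by
    rw [hs, Nat.cast_add, add_sub_cancel_left, div_le_iff₀ hs0]
    exact_mod_cast hD
  have he0 : 0 ≤ (Fintype.card ρ : ℝ) / (Fintype.card κ - Fintype.card ρ) := by
    rw [hs, Nat.cast_add, add_sub_cancel_left]
    positivity
  calc |(t x : ℝ)| = ‖t x‖ := (Int.norm_eq_abs _).symm
    _ ≤ ‖t‖ := norm_le_pi_norm t x
    _ ≤ _ := hn
    _ ≤ (Fintype.card κ * M) ^ ((Fintype.card ρ : ℝ) / (Fintype.card κ - Fintype.card ρ)) :=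
      Real.rpow_le_rpow (by positivity)
        (mul_le_mul_of_nonneg_left (max_le hM hAn) (by positivity)) he0
    _ ≤ (Fintype.card κ * M) ^ (D : ℝ) :=
      Real.rpow_le_rpow_of_exponent_le (one_le_mul_of_one_le_of_one_le hk hM) he
    _ = _ := Real.rpow_natCast _ _

theorem siegel_step {ρ σ Ω : Type} [Fintype ρ] [Fintype σ] [Fintype Ω] (A : ρ → Ω → ℤ)
    (F : σ → Ω → ℂ)
    (hind : ∀ (l : ρ → ℂ) (μ : σ → ℂ),
      (∀ x, ∑ i, l i * (A i x : ℂ) + ∑ i, μ i * F i x = 0) → l = 0 ∧ μ = 0)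
    (M : ℝ) (hM : 1 ≤ M) (hA : ∀ i x, |(A i x : ℝ)| ≤ M) (D : ℕ)
    (hD : Fintype.card ρ ≤ D * Fintype.card σ) (h1 : 0 < Fintype.card ρ)
    (h2 : 0 < Fintype.card σ) :
    ∃ c : Ω → ℤ, (∀ i, ∑ x, A i x * c x = 0) ∧ (∃ i, ∑ x, F i x * (c x : ℂ) ≠ 0) ∧
      ∀ x, |(c x : ℝ)| ≤ (Fintype.card Ω * M) ^ D := by
  classical
  set B : Matrix (ρ ⊕ σ) Ω ℂ := Matrix.of (Sum.elim (fun i x => (A i x : ℂ)) F) with hB
  have hrow : LinearIndependent ℂ B.row := by
    rw [Fintype.linearIndependent_iff]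
    intro g hg
    obtain ⟨e1, e2⟩ := hind (fun i => g (Sum.inl i)) (fun i => g (Sum.inr i)) fun x => by
      simpa [hB, Fintype.sum_sum_type, Matrix.row] using congrFun hg x
    rintro (i | i)
    · exact congrFun e1 i
    · exact congrFun e2 i
  obtain ⟨κ, _, a, ha, hcard, hli⟩ := siegel_cols B hrow
  rw [Fintype.card_sum] at hcard
  obtain ⟨t, ht0, ht, hb⟩ := siegel_int (fun i k => A i (a k)) M hM (fun i k => hA i (a k)) D _
    hcard hD h1 h2
  have hsum : ∀ {R : Type} [Ring R] (f : Ω → R),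
      ∑ x, f x * ((Function.extend a t 0 x : ℤ) : R) = ∑ k, f (a k) * (t k : R) := by
    intro R _ f
    symm
    refine Fintype.sum_of_injective a ha _ _ (fun x hx => ?_) fun k => ?_
    · rw [Function.extend_apply' _ _ _ hx]
      simp
    · rw [ha.extend_apply]
  refine ⟨Function.extend a t 0, fun i => ?_, ?_, fun x => ?_⟩
  · exact (hsum (A i)).trans (ht i)
  · by_contra hF
    push Not at hF
    refine ht0 (funext fun k => ?_)
    have := Fintype.linearIndependent_iff.1 hli (fun k => (t k : ℂ)) (funext fun j => ?_) k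
    · exact_mod_cast this
    · rcases j with i | i
      · have := congrArg (Int.cast : ℤ → ℂ) (ht i)
        simpa [hB, Matrix.col, mul_comm] using this
      · have := (hsum (F i)).symm.trans (hF i)
        simpa [hB, Matrix.col, mul_comm] using this
  · have hle : (Fintype.card κ : ℝ) ≤ Fintype.card Ω := by
      exact_mod_cast Fintype.card_le_of_injective a ha
    by_cases hx : ∃ k, a k = x
    · obtain ⟨k, rfl⟩ := hx
      rw [ha.extend_apply]
      exact (hb k).trans (by gcongr)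
    · rw [Function.extend_apply' _ _ _ hx]
      simp only [Pi.zero_apply, Int.cast_zero, abs_zero]
      positivity

end Pool.Agent.P.MP_6e34ef_nt.SY
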