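import Pool.Agent.P.MP_6e34ef_nt.SY.Defs

set_option autoImplicit false

namespace Pool.Agent.P.MP_6e34ef_nt.SY

open Finset

theorem pigeon {ι Λ Col : Type} [Fintype ι] (a : ι → ℝ) (K : ℕ) (hK : 1 ≤ K) (s : Finset Λ)
    (τ : Λ → ℝ) (col : Λ → Col) (Cs : Finset Col) (hc : ∀ x ∈ s, col x ∈ Cs)
    (hcard : K ^ Fintype.card ι * Cs.card < s.card) :
    ∃ x ∈ s, ∃ y ∈ s, x ≠ y ∧ col x = col y ∧
      ∀ i, |Int.fract (τ x * a i) - Int.fract (τ y * a i)| ≤ 1 / (K : ℝ) := by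
  classical
  have hK0 : (0 : ℝ) < K := by exact_mod_cast hK
  obtain ⟨x, hx, y, hy, hne, heq⟩ := Finset.exists_ne_map_eq_of_card_lt_of_maps_to
    (s := s) (t := (Fintype.piFinset fun _ : ι => range K) ×ˢ Cs)
    (f := fun x => (fun i => ⌊(K : ℝ) * Int.fract (τ x * a i)⌋₊, col x))
    (by rw [card_product, Fintype.card_piFinset]; simpa using hcard)
    (by
      intro x hx
      simp only [coe_product, Set.mem_prod, mem_coe, Fintype.mem_piFinset, mem_range]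
      refine ⟨fun i => ?_, hc x hx⟩
      rw [Nat.floor_lt (mul_nonneg hK0.le (Int.fract_nonneg _))]
      exact mul_lt_of_lt_one_right hK0 (Int.fract_lt_one _))
  refine ⟨x, hx, y, hy, hne, (Prod.mk.inj heq).2, fun i => ?_⟩
  have h := congrFun (Prod.mk.inj heq).1 i
  have h1 := Nat.floor_le (mul_nonneg hK0.le (Int.fract_nonneg (τ x * a i)))
  have h2 := Nat.floor_le (mul_nonneg hK0.le (Int.fract_nonneg (τ y * a i)))
  have h3 := Nat.lt_floor_add_one ((K : ℝ) * Int.fract (τ x * a i))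
  have h4 := Nat.lt_floor_add_one ((K : ℝ) * Int.fract (τ y * a i))
  rw [h] at h1 h3
  rw [le_div_iff₀ hK0, ← abs_of_pos hK0, ← abs_mul, abs_le]
  constructor <;> nlinarith

theorem pigeon_floor {x : ℝ} (hx : 0 ≤ x) : (⌊x⌋₊ : ℝ) = x - Int.fract x := by
  rw [Int.self_sub_fract, natCast_floor_eq_intCast_floor hx]

theorem pigeon_diff {x y b : ℝ} (hy : 0 ≤ y) (hxy : y ≤ x)
    (h : |Int.fract x - Int.fract y| ≤ b) :
    |((⌊x⌋₊ - ⌊y⌋₊ : ℕ) : ℝ) - (x - y)| ≤ b := by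
  rw [Nat.cast_sub (Nat.floor_le_floor hxy), pigeon_floor hy, pigeon_floor (hy.trans hxy),
    show x - Int.fract x - (y - Int.fract y) - (x - y) = -(Int.fract x - Int.fract y) by ring,
    abs_neg]
  exact h

theorem pigeon_pw_add {R : Type} [CommRing R] (s : Finset R) (e f g : R → ℕ)
    (h : ∀ q ∈ s, g q = e q + f q) : pw s g = pw s e * pw s f := by
  unfold pw
  rw [← prod_mul_distrib]
  exact prod_congr rfl fun q hq => by rw [h q hq, pow_add]

theorem pigeon_pw_cop {R : Type} [CommRing R] (s : Finset R) (e : R → ℕ) (m : R)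
    (h : ∀ q ∈ s, IsCoprime q m) : IsCoprime (pw s e) m :=
  IsCoprime.prod_left fun q hq => (h q hq).pow_left

variable {R : Type} [CommRing R] [IsDomain R]

theorem approxN (c : Ctx R) (su sw : Finset R) (α β : R → ℕ) (m : R) (hm : m ≠ 0)
    (hu : ∀ q ∈ su, IsCoprime q m) (hw : ∀ q ∈ sw, IsCoprime q m)
    (BB : Finset R) (hB : ∀ r1 ∈ BB, ∀ r2 ∈ BB, m ∣ r1 - r2 → r1 = r2)
    (K J : ℕ) (hK : 1 ≤ K) (γ : ℝ) (hγ : 0 < γ) (hJ : J * γ ≤ 1)
    (hcard : (K : ℝ) ^ (su.card + sw.card) * (c.C0 * c.N m ^ c.d) < (J + 1) * BB.card) :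
    ∃ (τ : ℝ) (e f : R → ℕ), ∃ r1 ∈ BB, ∃ r2 ∈ BB, γ ≤ τ ∧ τ ≤ J * γ ∧
      (∀ q ∈ su, |(e q : ℝ) - τ * α q| ≤ 1 / (K : ℝ)) ∧
      (∀ q ∈ sw, |(f q : ℝ) - τ * β q| ≤ 1 / (K : ℝ)) ∧
      m ∣ pw su e * r1 - pw sw f * r2 := by
  classical
  obtain ⟨Cs, hCs, hCc⟩ := c.ball (c.N m) (c.one_le_N hm)
  choose rp hrp hrn using c.rep m hm
  set fa : ℕ → R → ℕ := fun j q => ⌊(j : ℝ) * γ * α q⌋₊ with hfa
  set fb : ℕ → R → ℕ := fun j q => ⌊(j : ℝ) * γ * β q⌋₊ with hfb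
  set val : ℕ × R → R := fun x => pw su (fa x.1) * pw sw (fun q => β q - fb x.1 q) * x.2
    with hval
  have hK0 : (0 : ℝ) < K := by exact_mod_cast hK
  obtain ⟨x, hx, y, hy, hne, hcol, hfr⟩ := pigeon (ι := {q // q ∈ su} ⊕ {q // q ∈ sw})
    (Sum.elim (fun q => (α q.1 : ℝ)) (fun q => (β q.1 : ℝ))) K hK (range (J + 1) ×ˢ BB)
    (fun x => (x.1 : ℝ) * γ) (fun x => rp (val x)) Cs (fun x _ => hCs _ (hrn _))
    (by
      rw [card_product, card_range, Fintype.card_sum, Fintype.card_coe, Fintype.card_coe]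
      have : ((K : ℝ)) ^ (su.card + sw.card) * Cs.card < (J + 1) * BB.card :=
        lt_of_le_of_lt (mul_le_mul_of_nonneg_left hCc (by positivity)) hcard
      exact_mod_cast this)
  have hdv : m ∣ val x - val y := by
    have h := dvd_sub (hrp (val x)) (hrp (val y))
    rw [hcol] at h
    simpa using h
  have key : ∀ x y : ℕ × R, x ∈ range (J + 1) ×ˢ BB → y ∈ range (J + 1) ×ˢ BB → y.1 ≤ x.1 →
      m ∣ val x - val y →
      m ∣ pw su (fun q => fa x.1 q - fa y.1 q) * x.2 -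
        pw sw (fun q => fb x.1 q - fb y.1 q) * y.2 := by
    intro x y hx _ hle hd
    have hxJ : (x.1 : ℝ) ≤ J := by
      have := mem_range.1 (mem_product.1 hx).1
      exact_mod_cast Nat.lt_succ_iff.1 this
    have hle' : (y.1 : ℝ) * γ ≤ x.1 * γ :=
      mul_le_mul_of_nonneg_right (by exact_mod_cast hle) hγ.le
    have ha : ∀ q, fa y.1 q ≤ fa x.1 q := fun q =>
      Nat.floor_le_floor (mul_le_mul_of_nonneg_right hle' (Nat.cast_nonneg _))
    have hb : ∀ q, fb y.1 q ≤ fb x.1 q := fun q =>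
      Nat.floor_le_floor (mul_le_mul_of_nonneg_right hle' (Nat.cast_nonneg _))
    have hb' : ∀ q, fb x.1 q ≤ β q := fun q => by
      refine Nat.floor_le_of_le ?_
      have h1 : (x.1 : ℝ) * γ ≤ 1 := (mul_le_mul_of_nonneg_right hxJ hγ.le).trans hJ
      exact mul_le_of_le_one_left (Nat.cast_nonneg _) h1
    have e1 := pigeon_pw_add su (fa y.1) (fun q => fa x.1 q - fa y.1 q) (fa x.1)
      (fun q _ => by have := ha q; omega)
    have e2 := pigeon_pw_add sw (fun q => β q - fb x.1 q) (fun q => fb x.1 q - fb y.1 q)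
      (fun q => β q - fb y.1 q) (fun q _ => by have := hb q; have := hb' q; omega)
    have e3 : val x - val y = (pw su (fa y.1) * pw sw (fun q => β q - fb x.1 q)) *
        (pw su (fun q => fa x.1 q - fa y.1 q) * x.2 -
          pw sw (fun q => fb x.1 q - fb y.1 q) * y.2) := by
      simp only [hval]
      rw [e1, e2]
      ring
    rw [e3] at hd
    exact ((pigeon_pw_cop su _ m hu).mul_left (pigeon_pw_cop sw _ m hw)).symm.dvd_of_dvd_mul_left
      hd
  have fin : ∀ x y : ℕ × R, x ∈ range (J + 1) ×ˢ BB → y ∈ range (J + 1) ×ˢ BB → y.1 < x.1 →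
      m ∣ val x - val y →
      (∀ i, |Int.fract ((x.1 : ℝ) * γ * Sum.elim (fun q : {q // q ∈ su} => (α q.1 : ℝ))
          (fun q : {q // q ∈ sw} => (β q.1 : ℝ)) i) -
        Int.fract ((y.1 : ℝ) * γ * Sum.elim (fun q : {q // q ∈ su} => (α q.1 : ℝ))
          (fun q : {q // q ∈ sw} => (β q.1 : ℝ)) i)| ≤ 1 / (K : ℝ)) →
      ∃ (τ : ℝ) (e f : R → ℕ), ∃ r1 ∈ BB, ∃ r2 ∈ BB, γ ≤ τ ∧ τ ≤ J * γ ∧
        (∀ q ∈ su, |(e q : ℝ) - τ * α q| ≤ 1 / (K : ℝ)) ∧
        (∀ q ∈ sw, |(f q : ℝ) - τ * β q| ≤ 1 / (K : ℝ)) ∧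
        m ∣ pw su e * r1 - pw sw f * r2 := by
    intro x y hx hy hlt hd hf
    have hxJ : (x.1 : ℝ) ≤ J := by
      have := mem_range.1 (mem_product.1 hx).1
      exact_mod_cast Nat.lt_succ_iff.1 this
    have hlt' : (y.1 : ℝ) + 1 ≤ x.1 := by exact_mod_cast hlt
    have hy0 : (0 : ℝ) ≤ y.1 := Nat.cast_nonneg _
    have hle' : (y.1 : ℝ) * γ ≤ x.1 * γ := mul_le_mul_of_nonneg_right (by linarith) hγ.le
    refine ⟨(x.1 - y.1) * γ, _, _, x.2, (mem_product.1 hx).2, y.2, (mem_product.1 hy).2,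
      by nlinarith, by nlinarith, fun q hq => ?_, fun q hq => ?_, key x y hx hy hlt.le hd⟩
    · have h := pigeon_diff (x := (x.1 : ℝ) * γ * α q) (y := (y.1 : ℝ) * γ * α q) (by positivity)
        (mul_le_mul_of_nonneg_right hle' (Nat.cast_nonneg _)) (hf (Sum.inl ⟨q, hq⟩))
      rw [show ((x.1 : ℝ) - y.1) * γ * α q = x.1 * γ * α q - y.1 * γ * α q by ring]
      exact h
    · have h := pigeon_diff (x := (x.1 : ℝ) * γ * β q) (y := (y.1 : ℝ) * γ * β q) (by positivity)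
        (mul_le_mul_of_nonneg_right hle' (Nat.cast_nonneg _)) (hf (Sum.inr ⟨q, hq⟩))
      rw [show ((x.1 : ℝ) - y.1) * γ * β q = x.1 * γ * β q - y.1 * γ * β q by ring]
      exact h
  rcases lt_trichotomy x.1 y.1 with h | h | h
  · exact fin y x hy hx h (by rw [← dvd_neg, neg_sub]; exact hdv)
      (fun i => by rw [abs_sub_comm]; exact hfr i)
  · exfalso
    have hk := key x y hx hy h.ge hdv
    rw [h] at hk
    simp only [Nat.sub_self, pw, pow_zero, prod_const_one, one_mul] at hk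
    exact hne (Prod.ext h (hB _ (mem_product.1 hx).2 _ (mem_product.1 hy).2 hk))
  · exact fin x y hx hy h hdv hfr

end Pool.Agent.P.MP_6e34ef_nt.SY
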