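import Pool.Agent.P.MP_6e34ef_nt.SY.Defs

set_option autoImplicit false

namespace Pool.Agent.P.MP_6e34ef_nt.SY

open Finset

variable {R : Type} [CommRing R] [IsDomain R]

omit [IsDomain R] in
theorem vals_pw_add (s : Finset R) (a b : R → ℕ) :
    pw s (fun q => a q + b q) = pw s a * pw s b := by
  unfold pw
  rw [← Finset.prod_mul_distrib]
  exact Finset.prod_congr rfl fun q _ => pow_add _ _ _

omit [IsDomain R] in
theorem vals_pw_pow (s : Finset R) (a : R → ℕ) (k : ℕ) :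
    pw s a ^ k = pw s (fun q => k * a q) := by
  unfold pw
  rw [← Finset.prod_pow]
  exact Finset.prod_congr rfl fun q _ => by rw [← pow_mul, mul_comm]

omit [IsDomain R] in
theorem vals_pw_congr (s : Finset R) (a b : R → ℕ) (h : ∀ q ∈ s, a q = b q) :
    pw s a = pw s b := by
  unfold pw
  exact Finset.prod_congr rfl fun q hq => by rw [h q hq]

theorem vals_log_u (c : Ctx R) (T : Tri R) (h : ∀ q ∈ T.su, q ≠ 0) :
    Real.log (c.N T.u) = ∑ q ∈ T.su, (T.α q : ℝ) * Real.log (c.N q) := by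
  unfold Tri.u
  rw [c.N_mul, c.N_unit, one_mul, c.log_N_pw h]

theorem vals_log_w (c : Ctx R) (T : Tri R) (h : ∀ q ∈ T.sw, q ≠ 0) :
    Real.log (c.N T.w) = ∑ q ∈ T.sw, (T.β q : ℝ) * Real.log (c.N q) := by
  unfold Tri.w
  rw [c.N_mul, c.N_unit, one_mul, c.log_N_pw h]

omit [IsDomain R] in
theorem vals_upper (c : Ctx R) (s : Finset R) (h : ∀ q ∈ s, q ≠ 0) (E α : R → ℕ) (a D : ℝ)
    (hE : ∀ q ∈ s, (E q : ℝ) ≤ a * α q + D) :
    Real.log (c.N (pw s E)) ≤
      a * (∑ q ∈ s, (α q : ℝ) * Real.log (c.N q)) + D * Real.log (c.rad s) := by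
  rw [c.log_N_pw h, c.log_rad h, Finset.mul_sum, Finset.mul_sum, ← Finset.sum_add_distrib]
  refine Finset.sum_le_sum fun q hq => ?_
  have h1 := c.log_N_nonneg (h q hq)
  have h2 := mul_le_mul_of_nonneg_right (hE q hq) h1
  linarith

omit [IsDomain R] in
theorem vals_lower (c : Ctx R) (s : Finset R) (h : ∀ q ∈ s, q ≠ 0) (E α : R → ℕ) (a D : ℝ)
    (hE : ∀ q ∈ s, a * α q - D ≤ (E q : ℝ)) :
    a * (∑ q ∈ s, (α q : ℝ) * Real.log (c.N q)) - D * Real.log (c.rad s) ≤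
      Real.log (c.N (pw s E)) := by
  rw [c.log_N_pw h, c.log_rad h, Finset.mul_sum, Finset.mul_sum, ← Finset.sum_sub_distrib]
  refine Finset.sum_le_sum fun q hq => ?_
  have h1 := c.log_N_nonneg (h q hq)
  have h2 := mul_le_mul_of_nonneg_right (hE q hq) h1
  linarith

omit [IsDomain R] in
theorem vals_rad (c : Ctx R) (T : Tri R) (X H : ℝ) (hT : Good c T X H) :
    0 ≤ Real.log (c.rad T.su) ∧ 0 ≤ Real.log (c.rad T.sw) ∧
      Real.log (c.rad T.su) + Real.log (c.rad T.sw) ≤ Real.log X := by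
  have h1 := c.one_le_rad hT.nu
  have h2 := c.one_le_rad hT.nw
  refine ⟨Real.log_nonneg h1, Real.log_nonneg h2, ?_⟩
  rw [← Real.log_mul (by linarith) (by linarith)]
  exact Real.log_le_log (by nlinarith) hT.rad

theorem vals_size (c : Ctx R) (T : Tri R) (X H : ℝ) (hT : Good c T X H) (E F : R → ℕ)
    (a b D : ℝ) (ha : 0 ≤ a) (hb : 0 ≤ b) (hD : 0 ≤ D)
    (hE : ∀ q ∈ T.su, (E q : ℝ) ≤ a * T.α q + D) (hF : ∀ q ∈ T.sw, (F q : ℝ) ≤ b * T.β q + D) :
    c.N (pw T.su E * pw T.sw F) ≤ Real.exp ((a + b) * H + D * Real.log X) := by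
  have h1 := vals_upper c T.su hT.nu E T.α a D hE
  have h2 := vals_upper c T.sw hT.nw F T.β b D hF
  rw [← vals_log_u c T hT.nu] at h1
  rw [← vals_log_w c T hT.nw] at h2
  obtain ⟨_, _, h5⟩ := vals_rad c T X H hT
  have h6 := mul_le_mul_of_nonneg_left hT.hu ha
  have h7 := mul_le_mul_of_nonneg_left hT.hw hb
  have h8 := mul_le_mul_of_nonneg_left h5 hD
  have p1 := c.N_pos (pw_ne_zero hT.nu E)
  have p2 := c.N_pos (pw_ne_zero hT.nw F)
  rw [c.N_mul, ← Real.exp_log (mul_pos p1 p2), Real.log_mul p1.ne' p2.ne']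
  apply Real.exp_le_exp.2
  linarith

theorem vals (c : Ctx R) (T : Tri R) (X H : ℝ) (hT : Good c T X H) (e f : R → ℕ) (r1 r2 : R)
    (τ η B : ℝ) (S Z : ℕ) (hS : 1 ≤ S) (hτ : 0 ≤ τ) (hη : 0 ≤ η)
    (he : ∀ q ∈ T.su, |(e q : ℝ) - τ * T.α q| ≤ η) (hf : ∀ q ∈ T.sw, |(f q : ℝ) - τ * T.β q| ≤ η)
    (h1 : r1 ≠ 0) (h2 : r2 ≠ 0) (hr1 : c.N r1 ≤ B) (hr2 : c.N r2 ≤ B) :
    ∃ (n : ℕ → ℕ → R) (n0 : R), n0 ≠ 0 ∧
      c.N n0 ≤ Real.exp (S * H + Z * Real.log B + 2 * (η * Z + 1) * Real.log X) ∧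
      ∀ z < Z, ∀ l < S,
        n z l * (pw T.sw f * r2) ^ z * T.u ^ (kap τ z + l) =
          n0 * (pw T.su e * r1) ^ z * T.w ^ (kap τ z + l) ∧
        c.N (n z l) ≤ Real.exp (S * H + Z * Real.log B + 2 * (η * Z + 1) * Real.log X) := by
  obtain ⟨c0, hc1, hc2⟩ : ∃ c0 : ℕ, η * Z ≤ c0 ∧ (c0 : ℝ) ≤ η * Z + 1 :=
    ⟨⌈η * Z⌉₊, Nat.le_ceil _, (Nat.ceil_lt_add_one (by positivity)).le⟩
  obtain ⟨S', rfl⟩ : ∃ S', S = S' + 1 := ⟨S - 1, by omega⟩
  have hB1 : 1 ≤ B := le_trans (c.one_le_N h1) hr1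
  have hB0 : 0 < B := by linarith
  have hηZ : 0 ≤ η * Z := by positivity
  have hBZ : B ^ Z = Real.exp (Z * Real.log B) := by
    rw [← Real.log_pow, Real.exp_log (pow_pos hB0 _)]
  have fin : ∀ (x y : R) (a b : ℝ), a + b = ((S' + 1 : ℕ) : ℝ) →
      c.N x ≤ Real.exp ((a + b) * H + 2 * (η * Z + 1) * Real.log X) → c.N y ≤ B ^ Z →
      c.N (x * y) ≤
        Real.exp (((S' + 1 : ℕ) : ℝ) * H + Z * Real.log B + 2 * (η * Z + 1) * Real.log X) := by
    intro x y a b hab hx hy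
    rw [hab] at hx
    rw [c.N_mul, add_right_comm, Real.exp_add _ (Z * Real.log B), ← hBZ]
    exact mul_le_mul hx hy (c.N_nonneg _) (Real.exp_pos _).le
  refine ⟨fun z l => (((T.εw * T.εu⁻¹) ^ (kap τ z + l) : Rˣ) : R) *
      ((pw T.su (fun q => z * e q + S' * T.α q + c0 - (kap τ z + l) * T.α q) *
        pw T.sw (fun q => (kap τ z + l) * T.β q + T.β q + c0 - z * f q)) *
        (r1 ^ z * r2 ^ (Z - z))),
    (pw T.su (fun q => S' * T.α q + c0) * pw T.sw (fun q => T.β q + c0)) * r2 ^ Z, ?_, ?_, ?_⟩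
  · exact mul_ne_zero (mul_ne_zero (pw_ne_zero hT.nu _) (pw_ne_zero hT.nw _)) (pow_ne_zero _ h2)
  · refine fin _ _ S' 1 (by push_cast; ring) ?_ ?_
    · refine vals_size c T X H hT _ _ S' 1 _ (by positivity) zero_le_one (by positivity) ?_ ?_
      · intro q _
        push_cast
        linarith
      · intro q _
        push_cast
        linarith
    · rw [c.N_pow]
      exact pow_le_pow_left₀ (c.N_nonneg _) hr2 _
  · intro z hz l hl
    obtain ⟨k, hk⟩ : ∃ k, k = kap τ z + l := ⟨_, rfl⟩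
    have hz0 : (0 : ℝ) ≤ z := Nat.cast_nonneg _
    have hzZ : (z : ℝ) ≤ Z := by exact_mod_cast hz.le
    have hzη : (z : ℝ) * η ≤ η * Z := by nlinarith
    have hk1 : (k : ℝ) ≤ z * τ + S' := by
      have h3 : ((kap τ z : ℕ) : ℝ) ≤ z * τ := Nat.floor_le (by positivity)
      have h4 : (l : ℝ) ≤ S' := by exact_mod_cast Nat.lt_succ_iff.1 hl
      rw [hk]; push_cast; linarith
    have hk2 : (z : ℝ) * τ ≤ k + 1 := by
      have h3 : (z : ℝ) * τ < ((kap τ z : ℕ) : ℝ) + 1 := Nat.lt_floor_add_one _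
      have h4 : (0 : ℝ) ≤ l := Nat.cast_nonneg _
      rw [hk]; push_cast; linarith
    have hue : ∀ q ∈ T.su, (z : ℝ) * τ * T.α q - η * Z ≤ z * e q ∧
        (z : ℝ) * e q ≤ z * τ * T.α q + η * Z := by
      intro q hq
      obtain ⟨p1, p2⟩ := abs_le.1 (he q hq)
      have p3 := mul_le_mul_of_nonneg_left p1 hz0
      have p4 := mul_le_mul_of_nonneg_left p2 hz0
      constructor <;> nlinarith
    have hwf : ∀ q ∈ T.sw, (z : ℝ) * τ * T.β q - η * Z ≤ z * f q ∧
        (z : ℝ) * f q ≤ z * τ * T.β q + η * Z := by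
      intro q hq
      obtain ⟨p1, p2⟩ := abs_le.1 (hf q hq)
      have p3 := mul_le_mul_of_nonneg_left p1 hz0
      have p4 := mul_le_mul_of_nonneg_left p2 hz0
      constructor <;> nlinarith
    have hu0 : ∀ q ∈ T.su, k * T.α q ≤ z * e q + S' * T.α q + c0 := by
      intro q hq
      have p1 := (hue q hq).1
      have p2 := mul_le_mul_of_nonneg_right hk1 (Nat.cast_nonneg (T.α q) : (0 : ℝ) ≤ T.α q)
      have p3 : (k : ℝ) * T.α q ≤ z * e q + S' * T.α q + c0 := by nlinarith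
      exact_mod_cast p3
    have hw0 : ∀ q ∈ T.sw, z * f q ≤ k * T.β q + T.β q + c0 := by
      intro q hq
      have p1 := (hwf q hq).2
      have p2 := mul_le_mul_of_nonneg_right hk2 (Nat.cast_nonneg (T.β q) : (0 : ℝ) ≤ T.β q)
      have p3 : (z : ℝ) * f q ≤ k * T.β q + T.β q + c0 := by nlinarith
      exact_mod_cast p3
    simp only [← hk]
    constructor
    · have e1 : pw T.su (fun q => z * e q + S' * T.α q + c0 - k * T.α q) * pw T.su T.α ^ k =
          pw T.su (fun q => S' * T.α q + c0) * pw T.su e ^ z := by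
        rw [vals_pw_pow, vals_pw_pow, ← vals_pw_add, ← vals_pw_add]
        refine vals_pw_congr _ _ _ fun q hq => ?_
        have := hu0 q hq
        omega
      have e2 : pw T.sw (fun q => k * T.β q + T.β q + c0 - z * f q) * pw T.sw f ^ z =
          pw T.sw (fun q => T.β q + c0) * pw T.sw T.β ^ k := by
        rw [vals_pw_pow, vals_pw_pow, ← vals_pw_add, ← vals_pw_add]
        refine vals_pw_congr _ _ _ fun q hq => ?_
        have := hw0 q hq
        omega
      have e3 : r2 ^ (Z - z) * r2 ^ z = r2 ^ Z := by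
        rw [← pow_add, Nat.sub_add_cancel hz.le]
      have e4 : (((T.εw * T.εu⁻¹) ^ k : Rˣ) : R) * (T.εu : R) ^ k = (T.εw : R) ^ k := by
        rw [Units.val_pow_eq_pow_val, ← mul_pow, Units.val_mul, mul_assoc, Units.inv_mul, mul_one]
      unfold Tri.u Tri.w
      generalize (((T.εw * T.εu⁻¹) ^ k : Rˣ) : R) = ε at e4 ⊢
      calc _ = ε * (T.εu : R) ^ k *
            (pw T.su (fun q => z * e q + S' * T.α q + c0 - k * T.α q) * pw T.su T.α ^ k) *
            (pw T.sw (fun q => k * T.β q + T.β q + c0 - z * f q) * pw T.sw f ^ z) *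
            (r1 ^ z * (r2 ^ (Z - z) * r2 ^ z)) := by ring
        _ = _ := by rw [e1, e2, e3, e4]; ring
    · rw [c.N_mul, c.N_unit, one_mul]
      refine fin _ _ (z * τ + S' - k) (k + 1 - z * τ) (by push_cast; ring) ?_ ?_
      · refine vals_size c T X H hT _ _ _ _ _ (by linarith) (by linarith) (by positivity) ?_ ?_
        · intro q hq
          have p1 := (hue q hq).2
          rw [Nat.cast_sub (hu0 q hq)]
          push_cast
          linarith
        · intro q hq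
          have p1 := (hwf q hq).1
          rw [Nat.cast_sub (hw0 q hq)]
          push_cast
          linarith
      · rw [c.N_mul, c.N_pow, c.N_pow]
        calc c.N r1 ^ z * c.N r2 ^ (Z - z) ≤ B ^ z * B ^ (Z - z) :=
              mul_le_mul (pow_le_pow_left₀ (c.N_nonneg _) hr1 _)
                (pow_le_pow_left₀ (c.N_nonneg _) hr2 _) (pow_nonneg (c.N_nonneg _) _)
                (pow_nonneg hB0.le _)
          _ = B ^ Z := by rw [← pow_add, Nat.add_sub_cancel' hz.le]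

theorem ne_of_approx (c : Ctx R) (T : Tri R) (X H : ℝ) (hT : Good c T X H) (e f : R → ℕ)
    (r1 r2 : R) (τ η B : ℝ) (hτ : 0 ≤ τ) (hη : 0 ≤ η)
    (he : ∀ q ∈ T.su, |(e q : ℝ) - τ * T.α q| ≤ η) (hf : ∀ q ∈ T.sw, |(f q : ℝ) - τ * T.β q| ≤ η)
    (h1 : r1 ≠ 0) (h2 : r2 ≠ 0) (hr1 : c.N r1 ≤ B) (hr2 : c.N r2 ≤ B)
    (hbig : Real.log B + η * Real.log X < τ * (H - 1)) :
    pw T.su e * r1 ≠ pw T.sw f * r2 := by
  intro heq
  have hcop : IsCoprime (pw T.su e) (pw T.sw f) := by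
    unfold pw
    exact IsCoprime.prod_left fun q hq => IsCoprime.prod_right fun q' hq' =>
      (hT.cop q hq q' hq').pow
  have d1 : pw T.su e ∣ r2 := hcop.dvd_of_dvd_mul_left ⟨r1, heq.symm⟩
  have d2 : pw T.sw f ∣ r1 := hcop.symm.dvd_of_dvd_mul_left ⟨r2, heq⟩
  have b1 : Real.log (c.N (pw T.su e)) ≤ Real.log B :=
    Real.log_le_log (c.N_pos (pw_ne_zero hT.nu e)) (le_trans (c.N_le_of_dvd h2 d1) hr2)
  have b2 : Real.log (c.N (pw T.sw f)) ≤ Real.log B :=
    Real.log_le_log (c.N_pos (pw_ne_zero hT.nw f)) (le_trans (c.N_le_of_dvd h1 d2) hr1)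
  have l1 := vals_lower c T.su hT.nu e T.α τ η fun q hq => by
    have := (abs_le.1 (he q hq)).1
    linarith
  have l2 := vals_lower c T.sw hT.nw f T.β τ η fun q hq => by
    have := (abs_le.1 (hf q hq)).1
    linarith
  rw [← vals_log_u c T hT.nu] at l1
  rw [← vals_log_w c T hT.nw] at l2
  obtain ⟨g1, g2, g3⟩ := vals_rad c T X H hT
  have m1 : η * Real.log (c.rad T.su) ≤ η * Real.log X :=
    mul_le_mul_of_nonneg_left (by linarith) hη
  have m2 : η * Real.log (c.rad T.sw) ≤ η * Real.log X :=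
    mul_le_mul_of_nonneg_left (by linarith) hη
  rcases le_max_iff.1 hT.big with hb | hb
  · have := mul_le_mul_of_nonneg_left hb hτ
    linarith
  · have := mul_le_mul_of_nonneg_left hb hτ
    linarith

end Pool.Agent.P.MP_6e34ef_nt.SY
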