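import Pool.Agent.P.MP_6e34ef_nt.SY.Defs

set_option autoImplicit false

namespace Pool.Agent.P.MP_6e34ef_nt.SY

open Finset

theorem pow_card_le {R : Type} [CommRing R] (c : Ctx R) (K ε : ℝ) (hK : 1 ≤ K) (hε : 0 < ε) :
    ∃ C : ℝ, 1 ≤ C ∧ ∀ s : Finset R, (∀ q ∈ s, q ≠ 0) → K ^ s.card ≤ C * c.rad s ^ ε := by
  classical
  have hK0 : 0 ≤ K := by linarith
  obtain ⟨s0, h0, -⟩ := c.ball (K ^ ε⁻¹) (Real.one_le_rpow hK (inv_pos.2 hε).le)
  refine ⟨K ^ s0.card, one_le_pow₀ hK, fun s hs => ?_⟩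
  have h1 : ∀ q ∈ s, K ≤ (if q ∈ s0 then K else 1) * c.N q ^ ε := by
    intro q hq
    split_ifs with h
    · exact le_mul_of_one_le_right hK0 (Real.one_le_rpow (c.one_le_N (hs q hq)) hε.le)
    · have h2 : K ^ ε⁻¹ ≤ c.N q := le_of_not_ge fun h3 => h (h0 q h3)
      rw [one_mul]
      calc K = (K ^ ε⁻¹) ^ ε := (Real.rpow_inv_rpow hK0 hε.ne').symm
        _ ≤ _ := Real.rpow_le_rpow (by positivity) h2 hε.le
  calc K ^ s.card = ∏ _q ∈ s, K := by rw [prod_const]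
    _ ≤ ∏ q ∈ s, (if q ∈ s0 then K else 1) * c.N q ^ ε := prod_le_prod (fun _ _ => hK0) h1
    _ = K ^ (s ∩ s0).card * c.rad s ^ ε := by
        rw [prod_mul_distrib, prod_ite_mem, prod_const,
          Real.finsetProd_rpow _ _ (fun q _ => c.N_nonneg q)]
        rfl
    _ ≤ _ := mul_le_mul_of_nonneg_right
        (pow_le_pow_right₀ hK (card_le_card inter_subset_right))
        (Real.rpow_nonneg (prod_nonneg fun q _ => c.N_nonneg q) _)

theorem inst_mem {T : ℝ} {x : ℤ} (h : |(x : ℝ)| ≤ T) : x ∈ Icc (-⌊T⌋) ⌊T⌋ := by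
  obtain ⟨h1, h2⟩ := abs_le.1 h
  refine mem_Icc.2 ⟨neg_le.1 (Int.le_floor.2 ?_), Int.le_floor.2 h2⟩
  push_cast
  linarith

theorem inst_card {T : ℝ} (hT : 1 ≤ T) : ((Icc (-⌊T⌋) ⌊T⌋).card : ℝ) ≤ 3 * T := by
  have h1 : (1 : ℤ) ≤ ⌊T⌋ := Int.le_floor.2 (by simpa using hT)
  have h2 : (((Icc (-⌊T⌋) ⌊T⌋).card : ℕ) : ℤ) = 2 * ⌊T⌋ + 1 := by
    rw [Int.card_Icc, Int.toNat_of_nonneg (by omega)]
    ring
  have h3 : (((Icc (-⌊T⌋) ⌊T⌋).card : ℕ) : ℝ) = 2 * (⌊T⌋ : ℝ) + 1 := by exact_mod_cast h2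
  rw [h3]
  linarith [Int.floor_le T]

theorem inst_card' {T : ℝ} (hT : 1 ≤ T) : T ≤ 2 * ((Icc 1 ⌊T⌋).card : ℝ) := by
  have h1 : (1 : ℤ) ≤ ⌊T⌋ := Int.le_floor.2 (by simpa using hT)
  have h2 : (((Icc 1 ⌊T⌋).card : ℕ) : ℤ) = ⌊T⌋ := by
    rw [Int.card_Icc, Int.toNat_of_nonneg (by omega)]
    ring
  have h3 : (((Icc 1 ⌊T⌋).card : ℕ) : ℝ) = (⌊T⌋ : ℝ) := by exact_mod_cast h2
  have h4 : (1 : ℝ) ≤ (⌊T⌋ : ℝ) := by exact_mod_cast h1
  rw [h3]
  linarith [Int.lt_floor_add_one T]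

/-- The rational integers. -/
theorem exists_ctxZ : ∃ c : Ctx ℤ, c.d = 1 ∧ c.φ = Int.castRingHom ℂ := by
  refine ⟨⟨Int.castRingHom ℂ, 1, 16, by norm_num, fun x hx => ?_, fun γ hγ x => ?_,
    fun T hT => ?_, fun T hT => ?_⟩, rfl, rfl⟩
  · simp only [eq_intCast, Complex.norm_intCast]
    exact_mod_cast Int.one_le_abs hx
  · refine ⟨x % γ, Int.dvd_self_sub_emod, ?_⟩
    simp only [eq_intCast, Complex.norm_intCast]
    have h1 := Int.emod_nonneg x hγ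
    have h2 := Int.emod_lt_abs x hγ
    have : |x % γ| ≤ |γ| := by rw [abs_of_nonneg h1]; exact h2.le
    exact_mod_cast this
  · refine ⟨Icc (-⌊T⌋) ⌊T⌋, fun x hx => inst_mem (by simpa using hx), ?_⟩
    rw [pow_one]
    linarith [inst_card hT]
  · refine ⟨Icc 1 ⌊T⌋, fun x hx => ?_, ?_⟩
    · obtain ⟨h1, h2⟩ := mem_Icc.1 hx
      refine ⟨by omega, ?_⟩
      simp only [eq_intCast, Complex.norm_intCast]
      rw [abs_of_nonneg (by exact_mod_cast (by omega : (0 : ℤ) ≤ x))]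
      exact Int.le_floor.1 h2
    · rw [pow_one]
      linarith [inst_card' hT]

theorem inst_gnorm (x : GaussianInt) : ‖GaussianInt.toComplex x‖ ^ 2 = (x.norm : ℝ) := by
  rw [← Complex.normSq_eq_norm_sq, GaussianInt.intCast_real_norm]

/-- The Gaussian integers. -/
theorem exists_ctxG : ∃ c : Ctx GaussianInt, c.d = 2 ∧ c.φ = GaussianInt.toComplex := by
  classical
  refine ⟨⟨GaussianInt.toComplex, 2, 16, by norm_num, fun x hx => ?_, fun γ hγ x => ?_,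
    fun T hT => ?_, fun T hT => ?_⟩, rfl, rfl⟩
  · have h1 : (1 : ℝ) ≤ x.norm := by exact_mod_cast GaussianInt.norm_pos.2 hx
    rw [← inst_gnorm] at h1
    nlinarith [norm_nonneg (GaussianInt.toComplex x)]
  · refine ⟨x % γ, ⟨x / γ, ?_⟩, ?_⟩
    · rw [GaussianInt.mod_def]; ring
    · have h1 : ((x % γ).norm : ℝ) ≤ γ.norm := by
        exact_mod_cast (GaussianInt.norm_mod_lt x hγ).le
      rw [← inst_gnorm, ← inst_gnorm] at h1
      exact le_of_sq_le_sq h1 (norm_nonneg _)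
  · refine ⟨(Icc (-⌊T⌋) ⌊T⌋ ×ˢ Icc (-⌊T⌋) ⌊T⌋).image fun a => (⟨a.1, a.2⟩ : GaussianInt),
      fun x hx => mem_image.2 ⟨(x.re, x.im), mem_product.2 ⟨inst_mem ?_, inst_mem ?_⟩, rfl⟩, ?_⟩
    · refine le_trans (le_of_eq ?_) ((Complex.abs_re_le_norm _).trans hx)
      rw [GaussianInt.intCast_re]
    · refine le_trans (le_of_eq ?_) ((Complex.abs_im_le_norm _).trans hx)
      rw [GaussianInt.intCast_im]
    · have h1 := inst_card hT
      refine (Nat.cast_le.2 card_image_le).trans ?_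
      rw [card_product, Nat.cast_mul]
      nlinarith [mul_le_mul h1 h1 (Nat.cast_nonneg _) (by linarith)]
  · rcases le_total T 2 with h | h
    · refine ⟨{1}, fun x hx => ?_, ?_⟩
      · rw [mem_singleton.1 hx]
        exact ⟨one_ne_zero, by simpa using hT⟩
      · rw [card_singleton]
        push_cast
        nlinarith
    · have hT2 : 1 ≤ T / 2 := by linarith
      refine ⟨(Icc 1 ⌊T / 2⌋ ×ˢ Icc 1 ⌊T / 2⌋).image fun a => (⟨a.1, a.2⟩ : GaussianInt),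
        fun x hx => ?_, ?_⟩
      · obtain ⟨a, ha, rfl⟩ := mem_image.1 hx
        obtain ⟨a1, a2⟩ := mem_product.1 ha
        obtain ⟨b1, b2⟩ := mem_Icc.1 a1
        obtain ⟨b3, b4⟩ := mem_Icc.1 a2
        refine ⟨fun h0 => ?_, ?_⟩
        · have := congrArg Zsqrtd.re h0
          simp only [Zsqrtd.re_zero] at this
          omega
        · refine (Complex.norm_le_abs_re_add_abs_im _).trans ?_
          rw [← GaussianInt.intCast_re, ← GaussianInt.intCast_im]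
          have c1 : (0 : ℝ) ≤ a.1 := by exact_mod_cast (by omega : (0 : ℤ) ≤ a.1)
          have c2 : (0 : ℝ) ≤ a.2 := by exact_mod_cast (by omega : (0 : ℤ) ≤ a.2)
          rw [abs_of_nonneg c1, abs_of_nonneg c2]
          linarith [Int.le_floor.1 b2, Int.le_floor.1 b4]
      · rw [card_image_of_injective _ (fun a b hab => Prod.ext (congrArg Zsqrtd.re hab)
          (congrArg Zsqrtd.im hab)), card_product, Nat.cast_mul]
        have h1 := inst_card' hT2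
        nlinarith [mul_le_mul h1 h1 (by linarith) (by positivity)]

end Pool.Agent.P.MP_6e34ef_nt.SY
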