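import Pool.Agent.P.MP_6e34ef_nt.SY.Defs

set_option autoImplicit false

namespace Pool.Agent.P.MP_6e34ef_nt.SY

open Finset

theorem kap_mono {τ : ℝ} (hτ : 0 ≤ τ) : Monotone (kap τ) := by
  intro a b hab
  unfold kap
  exact Nat.floor_mono (mul_le_mul_of_nonneg_right (by exact_mod_cast hab) hτ)

theorem count_kap_real {τ : ℝ} (hτ0 : 0 ≤ τ) (z : ℕ) : (kap τ z : ℝ) ≤ (z : ℝ) * τ :=
  Nat.floor_le (by positivity)

theorem kap_le {τ : ℝ} (hτ0 : 0 ≤ τ) (hτ : τ ≤ 1) (z : ℕ) : kap τ z ≤ z := by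
  have h1 := count_kap_real hτ0 z
  have h2 : (z : ℝ) * τ ≤ z := mul_le_of_le_one_right (by positivity) hτ
  exact_mod_cast h1.trans h2

theorem count_end (Z ω : ℕ) : ((range Z).filter (fun z => ¬ z + ω < Z)).card ≤ ω := by
  have hsub : (range Z).filter (fun z => ¬ z + ω < Z) ⊆ Ico (Z - ω) Z := by
    intro z hz
    rw [mem_filter, mem_range] at hz
    rw [mem_Ico]
    omega
  have := card_le_card hsub
  rw [Nat.card_Ico] at this
  omega

theorem count_jump {f : ℕ → ℕ} (hf : Monotone f) (Z ω : ℕ) :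
    ((range Z).filter (fun z => ¬ f (z + ω) = f z)).card ≤ ω * f (Z + ω) := by
  have h1 : ((range Z).filter (fun z => ¬ f (z + ω) = f z)).card + ∑ z ∈ range Z, f z ≤
      ∑ z ∈ range Z, f (ω + z) := by
    rw [card_filter, ← sum_add_distrib]
    refine sum_le_sum fun z _ => ?_
    have := hf (Nat.le_add_right z ω)
    rw [add_comm ω z]
    split_ifs with h
    · omega
    · omega
  have h2 : ∑ z ∈ range (ω + Z), f z = ∑ z ∈ range ω, f z + ∑ z ∈ range Z, f (ω + z) :=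
    sum_range_add f ω Z
  have h3 : ∑ z ∈ range (Z + ω), f z = ∑ z ∈ range Z, f z + ∑ z ∈ range ω, f (Z + z) :=
    sum_range_add f Z ω
  have h4 : ∑ z ∈ range ω, f (Z + z) ≤ ω * f (Z + ω) := by
    have := sum_le_card_nsmul (range ω) (fun z => f (Z + z)) (f (Z + ω)) (fun z hz => by
      rw [mem_range] at hz
      exact hf (by omega))
    simpa using this
  rw [add_comm ω Z] at h2
  omega

theorem count_fibre {τ : ℝ} (hτ : 0 < τ) (Z k : ℕ) :
    ((range Z).filter (fun z => kap τ z = k)).card ≤ ⌊1 / τ⌋₊ + 1 := by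
  have hsub : (range Z).filter (fun z => kap τ z = k) ⊆
      Ico ⌈(k : ℝ) / τ⌉₊ (⌈(k : ℝ) / τ⌉₊ + (⌊1 / τ⌋₊ + 1)) := by
    intro z hz
    rw [mem_filter] at hz
    obtain ⟨-, hz⟩ := hz
    have h1 : (k : ℝ) ≤ z * τ := by rw [← hz]; exact count_kap_real hτ.le z
    have h2 : (z : ℝ) * τ < k + 1 := by rw [← hz]; exact Nat.lt_floor_add_one _
    rw [mem_Ico]
    refine ⟨Nat.ceil_le.2 (by rwa [div_le_iff₀ hτ]), ?_⟩
    have h3 : (z : ℝ) < k / τ + 1 / τ := by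
      rw [← add_div, lt_div_iff₀ hτ]; exact h2
    have h4 : (k : ℝ) / τ ≤ ⌈(k : ℝ) / τ⌉₊ := Nat.le_ceil _
    have h5 : 1 / τ < (⌊1 / τ⌋₊ : ℝ) + 1 := Nat.lt_floor_add_one _
    have h6 : (z : ℝ) < ((⌈(k : ℝ) / τ⌉₊ + (⌊1 / τ⌋₊ + 1) : ℕ) : ℝ) := by
      push_cast; linarith
    exact_mod_cast h6
  have := card_le_card hsub
  rw [Nat.card_Ico] at this
  omega

theorem count_exc {τ : ℝ} (hτ : 0 < τ) (Z : ℕ) (E : Finset ℕ) :
    ((range Z).filter (fun z => kap τ z ∈ E)).card ≤ E.card * (⌊1 / τ⌋₊ + 1) := by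
  have hsub : (range Z).filter (fun z => kap τ z ∈ E) ⊆
      E.biUnion (fun k => (range Z).filter (fun z => kap τ z = k)) := by
    intro z hz
    rw [mem_filter] at hz
    rw [mem_biUnion]
    exact ⟨_, hz.2, mem_filter.2 ⟨hz.1, rfl⟩⟩
  exact (card_le_card hsub).trans
    (card_biUnion_le_card_mul _ _ _ fun k _ => count_fibre hτ Z k)

theorem good_count {ω ζ V : ℕ} {τ : ℝ} (hω : 1 ≤ ω) (hζ : 1 ≤ ζ) (h : Slope ω ζ V τ)
    (E : Finset ℕ) (hE : E.card ≤ ω ^ 2) :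
    ζ * V ≤ (((range (ζ * V)).filter
      (fun z => z + ω < ζ * V ∧ kap τ (z + ω) = kap τ z)).filter (fun z => kap τ z ∉ E)).card +
        V / 2 := by
  obtain ⟨hτ, hs, hl⟩ := h
  set Z := ζ * V with hZ
  set G := ((range Z).filter
      (fun z => z + ω < Z ∧ kap τ (z + ω) = kap τ z)).filter (fun z => kap τ z ∉ E) with hG
  set A := (range Z).filter (fun z => ¬ z + ω < Z) with hA
  set B := (range Z).filter (fun z => ¬ kap τ (z + ω) = kap τ z) with hB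
  set C := (range Z).filter (fun z => kap τ z ∈ E) with hC
  have hcov : range Z ⊆ G ∪ (A ∪ (B ∪ C)) := by
    intro z hz
    simp only [hG, hA, hB, hC, mem_union, mem_filter]
    tauto
  have hcard : Z ≤ G.card + (A.card + (B.card + C.card)) := by
    have h1 := card_le_card hcov
    rw [card_range] at h1
    have h2 := card_union_le G (A ∪ (B ∪ C))
    have h3 := card_union_le A (B ∪ C)
    have h4 := card_union_le B C
    omega
  have hω' : (1 : ℝ) ≤ ω := by exact_mod_cast hω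
  have hζ' : (1 : ℝ) ≤ ζ := by exact_mod_cast hζ
  have hV0 : (0 : ℝ) ≤ V := by positivity
  have hωτ : 8 * ((ω : ℝ) * τ) ≤ 1 := by
    have : (ω : ℝ) * τ ≤ ω * τ * ζ := le_mul_of_one_le_right (by positivity) hζ'
    nlinarith
  have hτ8 : 8 * τ ≤ 1 := by
    have : τ ≤ ω * τ := le_mul_of_one_le_left hτ.le hω'
    linarith
  have hV : 64 * (ω : ℝ) ^ 2 ≤ V := by nlinarith
  have hAc : (A.card : ℝ) ≤ ω := by exact_mod_cast count_end Z ω
  have hBc : (B.card : ℝ) ≤ V / 8 + ω := by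
    have h1 : (B.card : ℝ) ≤ (ω : ℝ) * kap τ (Z + ω) := by
      exact_mod_cast count_jump (kap_mono hτ.le) Z ω
    have h2 := count_kap_real hτ.le (Z + ω)
    have h3 : (ω : ℝ) * kap τ (Z + ω) ≤ ω * (((Z + ω : ℕ) : ℝ) * τ) :=
      mul_le_mul_of_nonneg_left h2 (by positivity)
    have h4 : (ω : ℝ) * (((Z + ω : ℕ) : ℝ) * τ) = (ω * ζ * τ) * V + ω * (ω * τ) := by
      rw [hZ]; push_cast; ring
    have h5 : ((ω : ℝ) * ζ * τ) * V ≤ (1 / 8) * V :=
      mul_le_mul_of_nonneg_right (by linarith) hV0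
    have h6 : (ω : ℝ) * (ω * τ) ≤ ω * 1 :=
      mul_le_mul_of_nonneg_left (by linarith) (by positivity)
    linarith
  have hCc : (C.card : ℝ) ≤ V / 8 + (ω : ℝ) ^ 2 := by
    have h1 : (C.card : ℝ) ≤ (E.card : ℝ) * ((⌊1 / τ⌋₊ : ℝ) + 1) := by
      exact_mod_cast count_exc hτ Z E
    have h2 : (E.card : ℝ) ≤ (ω : ℝ) ^ 2 := by exact_mod_cast hE
    have h3 : (⌊1 / τ⌋₊ : ℝ) ≤ 1 / τ := Nat.floor_le (by positivity)
    have h4 : (E.card : ℝ) * ((⌊1 / τ⌋₊ : ℝ) + 1) ≤ (ω : ℝ) ^ 2 * (1 / τ + 1) :=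
      mul_le_mul h2 (by linarith) (by positivity) (by positivity)
    have h5 : (ω : ℝ) ^ 2 * (1 / τ) ≤ V / 8 := by
      rw [mul_one_div, div_le_iff₀ hτ]; linarith
    linarith
  have hsum : 2 * (A.card + (B.card + C.card)) ≤ V := by
    have h1 : (ω : ℝ) ≤ (ω : ℝ) ^ 2 := by nlinarith
    have : 2 * ((A.card : ℝ) + (B.card + C.card)) ≤ V := by linarith
    exact_mod_cast this
  omega

end Pool.Agent.P.MP_6e34ef_nt.SY
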