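import Pool.Agent.P.MP_6e34ef_nt.SY.Zero
import Pool.Agent.P.MP_6e34ef_nt.SY.Count
import Pool.Agent.P.MP_6e34ef_nt.SY.Siegel

set_option autoImplicit false

namespace Pool.Agent.P.MP_6e34ef_nt.SY

open Finset Polynomial

/-- The binomial polynomial. -/
noncomputable def auxilBin (i : ℕ) : ℂ[X] := C (1 / (i.factorial : ℂ)) * descPochhammer ℂ i

theorem auxil_bin_eval (i n : ℕ) : (auxilBin i).eval (n : ℂ) = (n.choose i : ℂ) := by
  unfold auxilBin
  have h : (i.factorial : ℂ) ≠ 0 := by exact_mod_cast i.factorial_ne_zero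
  rw [eval_mul, eval_C, descPochhammer_eval_eq_descFactorial,
    Nat.descFactorial_eq_factorial_mul_choose]
  push_cast
  field_simp

theorem auxil_bin_deg (i : ℕ) : (auxilBin i).natDegree ≤ i := by
  unfold auxilBin
  refine (natDegree_C_mul_le _ _).trans ?_
  rw [descPochhammer_natDegree]

theorem auxil_comb_deg {n : ℕ} (hn : 0 < n) (a : Fin n → ℂ) :
    (∑ i : Fin n, C (a i) * auxilBin i).natDegree < n := by
  have h : (∑ i : Fin n, C (a i) * auxilBin i).natDegree ≤ n - 1 := by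
    refine natDegree_sum_le_of_forall_le _ _ fun i _ => ?_
    refine (natDegree_C_mul_le _ _).trans ((auxil_bin_deg i).trans ?_)
    have := i.2
    omega
  omega

theorem auxil_comb_eval {n : ℕ} (a : Fin n → ℂ) (z : ℕ) :
    (∑ i : Fin n, C (a i) * auxilBin i).eval (z : ℂ) = ∑ i : Fin n, a i * (z.choose i : ℂ) := by
  rw [eval_finsetSum]
  exact Finset.sum_congr rfl fun i _ => by rw [eval_mul, eval_C, auxil_bin_eval]

theorem auxil_tri {n : ℕ} (a : Fin n → ℂ)
    (h : ∀ k : ℕ, ∑ i : Fin n, a i * (k.choose i : ℂ) = 0) : a = 0 := by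
  have key : ∀ m : ℕ, ∀ i : Fin n, (i : ℕ) = m → a i = 0 := by
    intro m
    induction m using Nat.strong_induction_on with
    | _ m ih =>
      intro i hi
      have h1 := h m
      rw [Finset.sum_eq_single i] at h1
      · rw [hi, Nat.choose_self] at h1
        simpa using h1
      · intro j _ hj
        rcases lt_trichotomy (j : ℕ) m with hlt | heq | hgt
        · rw [ih j hlt j rfl, zero_mul]
        · exact absurd (Fin.ext (heq.trans hi.symm)) hj
        · rw [Nat.choose_eq_zero_of_lt hgt]; simp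
      · intro hh; exact absurd (Finset.mem_univ i) hh
  funext i
  exact key i i rfl

theorem auxil_comb_zero {n : ℕ} (a : Fin n → ℂ)
    (h : ∑ i : Fin n, C (a i) * auxilBin i = 0) : a = 0 := by
  refine auxil_tri a fun k => ?_
  rw [← auxil_comb_eval, h, eval_zero]

theorem auxil_choose_mul (z i a : ℕ) : z.choose i * z.choose a =
    ∑ pq ∈ antidiagonal a, i.choose pq.1 * (i + pq.2).choose i * z.choose (i + pq.2) := by
  rcases lt_or_ge z i with h | h
  · rw [Nat.choose_eq_zero_of_lt h, zero_mul]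
    refine (Finset.sum_eq_zero fun pq _ => ?_).symm
    rw [Nat.choose_eq_zero_of_lt (show z < i + pq.2 by omega), mul_zero]
  · have h1 : z.choose a = (i + (z - i)).choose a := by congr 1; omega
    rw [h1, Nat.add_choose_eq, Finset.mul_sum]
    refine Finset.sum_congr rfl fun pq _ => ?_
    have h2 := Nat.choose_mul (n := z) (k := i + pq.2) (s := i) (by omega)
    rw [Nat.add_sub_cancel_left] at h2
    calc z.choose i * (i.choose pq.1 * (z - i).choose pq.2)
        = i.choose pq.1 * (z.choose i * (z - i).choose pq.2) := by ring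
      _ = i.choose pq.1 * (z.choose (i + pq.2) * (i + pq.2).choose i) := by rw [h2]
      _ = _ := by ring

theorem auxil_gauss (n : ℕ) : 2 * ∑ b ∈ range n, (n - b) = n * (n + 1) := by
  induction n with
  | zero => simp
  | succ n ih =>
    rw [Finset.sum_range_succ']
    have h : ∑ b ∈ range n, (n + 1 - (b + 1)) = ∑ b ∈ range n, (n - b) :=
      Finset.sum_congr rfl fun b _ => by omega
    rw [h, mul_add, ih]
    simp only [Nat.sub_zero]
    ring

theorem auxil_V {ω S ζ V : ℕ} {τ : ℝ} (hs : Shape ω S ζ) (hl : Slope ω ζ V τ) :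
    2 * (ω + 1) ≤ V := by
  have h1 : (1 : ℝ) ≤ ω := by exact_mod_cast hs.hω
  have h2 : (ω : ℝ) + 1 ≤ ζ := by exact_mod_cast hs.h1
  have h3 := hl.small
  have h4 := hl.large
  have h5 := hl.pos
  have hV : (0 : ℝ) ≤ V := Nat.cast_nonneg V
  have h6 : 8 * (ω : ℝ) * ζ * (8 * (ω : ℝ) ^ 2) ≤ 8 * (ω : ℝ) * ζ * (τ * V) :=
    mul_le_mul_of_nonneg_left h4 (by positivity)
  have h7 : 8 * (ω : ℝ) * ζ * (τ * V) ≤ V := by
    have := mul_le_mul_of_nonneg_right h3 hV
    nlinarith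
  have h8 : (1 : ℝ) ≤ (ω : ℝ) ^ 3 := one_le_pow₀ h1
  have h9 : 2 * ((ω : ℝ) + 1) ≤ V := by nlinarith
  exact_mod_cast h9

theorem auxil_tau {ω S ζ V : ℕ} {τ : ℝ} (hs : Shape ω S ζ) (hl : Slope ω ζ V τ) : τ ≤ 1 := by
  have h1 : (1 : ℝ) ≤ ω := by exact_mod_cast hs.hω
  have h2 : (ω : ℝ) + 1 ≤ ζ := by exact_mod_cast hs.h1
  have h3 := hl.small
  have h5 := hl.pos
  have h6 : (1 : ℝ) ≤ 8 * (ω : ℝ) * ζ := by nlinarith
  nlinarith

theorem auxil_ind {ω S ζ V : ℕ} {τ : ℝ} (hs : Shape ω S ζ) (hl : Slope ω ζ V τ) (t w : ℂ)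
    (ht0 : t ≠ 0) (ht1 : t ≠ 1) (hw0 : w ≠ 0) (hw1 : w ≠ 1) (W : ℕ) (hW0 : 0 < W)
    (hW : 2 * (ω + 1) * W ≤ V)
    (lam : (Σ b : Fin ω, Fin (V * (ω - b) + W)) → ℂ) (μ : Fin W → ℂ)
    (h : ∀ x : Fin (ζ * V) × Fin S,
      ∑ i : (Σ b : Fin ω, Fin (V * (ω - b) + W)),
        lam i * ((((x.1 : ℕ).choose i.2 : ℤ) * ((kap τ x.1 + x.2).choose i.1 : ℤ) : ℤ) : ℂ) +
      ∑ i, μ i * (((x.1 : ℕ).choose i : ℂ) * t ^ (x.1 : ℕ) * w ^ (kap τ x.1 + x.2)) = 0) :
    lam = 0 ∧ μ = 0 := by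
  have hω := hs.hω
  have hS := hs.hS
  have hζ := hs.h1
  have h3 := hs.h3
  let Q : ℕ → ℂ[X] := fun b =>
    if hb : b < ω then ∑ i : Fin (V * (ω - b) + W), C (lam ⟨⟨b, hb⟩, i⟩) * auxilBin i else 0
  let P : ℂ[X] := ∑ i : Fin W, C (μ i) * auxilBin i
  have hQ : ∀ b (hb : b < ω),
      Q b = ∑ i : Fin (V * (ω - b) + W), C (lam ⟨⟨b, hb⟩, i⟩) * auxilBin i := fun b hb => by
    simp only [Q, dif_pos hb]
  have hVZ : V ≤ ζ * V := Nat.le_mul_of_pos_left V (by omega)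
  have hres := zero_lemma t w ht0 ht1 hw0 hw1 ω S V W (ζ * V) (ζ * V - V / 2) (kap τ)
    ((range (ζ * V)).filter (fun z => z + ω < ζ * V ∧ kap τ (z + ω) = kap τ z))
    (by
      intro z hz
      obtain ⟨-, hz1, hz2⟩ := Finset.mem_filter.1 hz
      refine ⟨hz1, fun j hj => le_antisymm ?_ ?_⟩
      · rw [← hz2]; exact kap_mono hl.pos.le (by omega)
      · exact kap_mono hl.pos.le (by omega))
    (by
      intro E hE
      have := good_count hω (by omega) hl E hE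
      omega)
    (by
      rw [Finset.sum_add_distrib, ← Finset.mul_sum, Finset.sum_const, Finset.card_range,
        smul_eq_mul]
      have hg := auxil_gauss ω
      obtain ⟨g, hg'⟩ : ∃ g, g = ζ * V - V / 2 := ⟨_, rfl⟩
      rw [← hg']
      have h4 : 2 * (ζ * V) ≤ 2 * g + V := by omega
      have h5 : S * (2 * (ζ * V)) ≤ S * (2 * g + V) := Nat.mul_le_mul_left S h4
      have h6 : (ω * (ω + 1) + 2 * S) * V ≤ 2 * S * ζ * V := Nat.mul_le_mul_right V h3
      have h7 : V ≤ S * V := Nat.le_mul_of_pos_left V hS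
      have h8 : 2 * (V * ∑ b ∈ range ω, (ω - b)) = V * (ω * (ω + 1)) := by rw [← hg]; ring
      nlinarith)
    (by
      have h4 : (ω + 1) * V ≤ ζ * V := Nat.mul_le_mul_right V hζ
      have h5 : 2 * W ≤ 2 * (ω + 1) * W := Nat.mul_le_mul_right W (by omega)
      have h6 : (ω + 1) * V = V * ω + V := by ring
      omega)
    Q P
    (by
      intro b hb
      rw [hQ b hb]
      exact auxil_comb_deg (by omega) _)
    (auxil_comb_deg hW0 _)
    (by
      intro z hz l hl'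
      have h1 := h (⟨z, hz⟩, ⟨l, hl'⟩)
      rw [Fintype.sum_sigma] at h1
      rw [← h1, Finset.sum_range]
      congr 1
      · refine Finset.sum_congr rfl fun b _ => ?_
        rw [hQ b b.2, auxil_comb_eval, Finset.sum_mul]
        refine Finset.sum_congr rfl fun i _ => ?_
        push_cast
        ring
      · simp only [P]
        rw [auxil_comb_eval, Finset.sum_mul, Finset.sum_mul]
        refine Finset.sum_congr rfl fun i _ => ?_
        ring)
  refine ⟨?_, auxil_comb_zero μ hres.2⟩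
  funext i
  obtain ⟨b, i⟩ := i
  have h1 := hres.1 b b.2
  rw [hQ b b.2] at h1
  exact congrFun (auxil_comb_zero _ h1) i

theorem aux {ω S ζ V : ℕ} {τ : ℝ} (hs : Shape ω S ζ) (hl : Slope ω ζ V τ) (t w : ℂ)
    (ht0 : t ≠ 0) (ht1 : t ≠ 1) (hw0 : w ≠ 0) (hw1 : w ≠ 1) :
    ∃ c : ℕ → ℕ → ℤ, (∀ z l, |(c z l : ℝ)| ≤ 2 ^ (32 * (ω + 1) ^ 3 * (ζ * V))) ∧
      (∀ b < ω, ∀ a < V * (ω - b), ∑ z ∈ range (ζ * V), ∑ l ∈ range S,
        c z l * (z.choose a : ℤ) * ((kap τ z + l).choose b : ℤ) = 0) ∧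
      ∑ z ∈ range (ζ * V), ∑ l ∈ range S, (c z l : ℂ) * t ^ z * w ^ (kap τ z + l) ≠ 0 := by
  have hω := hs.hω
  have hS := hs.hS
  have hζ := hs.h1
  have hSζ := hs.h2
  have hV := auxil_V hs hl
  have hτ := auxil_tau hs hl
  obtain ⟨W, hWdef⟩ : ∃ W, W = V / (2 * (ω + 1)) := ⟨_, rfl⟩
  have hW0 : 0 < W := by
    rw [hWdef]; exact Nat.div_pos hV (by omega)
  have hW1 : 2 * (ω + 1) * W ≤ V := by
    rw [hWdef]; exact Nat.mul_div_le V _
  have hW2 : V < 2 * (ω + 1) * (W + 1) := by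
    rw [hWdef]; exact Nat.lt_mul_div_succ V (by omega)
  obtain ⟨Z, hZ⟩ : ∃ Z, Z = ζ * V := ⟨_, rfl⟩
  have hζZ : ζ ≤ Z := by rw [hZ]; exact Nat.le_mul_of_pos_right ζ (by omega)
  have hch : ∀ n k m : ℕ, n ≤ m → (n.choose k : ℝ) ≤ 2 ^ m := fun n k m hnm => by
    have h1 : n.choose k ≤ 2 ^ m :=
      (Nat.choose_le_two_pow n k).trans (Nat.pow_le_pow_right (by omega) hnm)
    exact_mod_cast h1
  obtain ⟨c', hc1, ⟨i0, hc2⟩, hc3⟩ := siegel_step
    (ρ := Σ b : Fin ω, Fin (V * (ω - b) + W)) (σ := Fin W) (Ω := Fin (ζ * V) × Fin S)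
    (fun i x => ((x.1 : ℕ).choose i.2 : ℤ) * ((kap τ x.1 + x.2).choose i.1 : ℤ))
    (fun i x => ((x.1 : ℕ).choose i : ℂ) * t ^ (x.1 : ℕ) * w ^ (kap τ x.1 + x.2))
    (fun lam μ h => auxil_ind hs hl t w ht0 ht1 hw0 hw1 W hW0 hW1 lam μ h)
    (2 ^ (3 * Z)) (one_le_pow₀ (by norm_num))
    (by
      intro i x
      have h1 := x.1.2
      have h2 := x.2.2
      have h3 := kap_le hl.pos.le hτ x.1
      push_cast
      rw [abs_of_nonneg (by positivity), show 3 * Z = Z + 2 * Z by ring, pow_add]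
      exact mul_le_mul (hch _ _ _ (by omega)) (hch _ _ _ (by omega)) (by positivity)
        (by positivity))
    (5 * (ω + 1) ^ 3)
    (by
      rw [Fintype.card_sigma, Fintype.card_fin]
      have h1 : ∑ b : Fin ω, Fintype.card (Fin (V * (ω - b) + W)) ≤ ∑ _b : Fin ω, (V * ω + W) := by
        refine Finset.sum_le_sum fun b _ => ?_
        rw [Fintype.card_fin]
        exact Nat.add_le_add_right (Nat.mul_le_mul_left V (by omega)) W
      refine h1.trans ?_
      rw [Finset.sum_const, Finset.card_univ, Fintype.card_fin, smul_eq_mul]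
      have h2 : V ≤ 4 * (ω + 1) * W := by nlinarith
      have h3 : V * ω ≤ 4 * (ω + 1) * W * ω := Nat.mul_le_mul_right ω h2
      have h4 : ω * (V * ω + W) ≤ ω * (4 * (ω + 1) * W * ω + W) :=
        Nat.mul_le_mul_left ω (by omega)
      refine h4.trans ?_
      have h5 : ω * (4 * (ω + 1) * ω + 1) ≤ 5 * (ω + 1) ^ 3 := by nlinarith
      calc ω * (4 * (ω + 1) * W * ω + W) = ω * (4 * (ω + 1) * ω + 1) * W := by ring
        _ ≤ _ := Nat.mul_le_mul_right W h5)
    (Fintype.card_pos_iff.2 ⟨⟨⟨0, hω⟩, ⟨0, by omega⟩⟩⟩)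
    (by rw [Fintype.card_fin]; exact hW0)
  let c : ℕ → ℕ → ℤ := fun z l =>
    if h : z < ζ * V ∧ l < S then c' (⟨z, h.1⟩, ⟨l, h.2⟩) * (z.choose i0 : ℤ) else 0
  have hc : ∀ (z : Fin (ζ * V)) (l : Fin S), c z l = c' (z, l) * ((z : ℕ).choose i0 : ℤ) :=
    fun z l => by simp only [c, dif_pos (And.intro z.2 l.2)]
  refine ⟨c, ?_, ?_, ?_⟩
  · intro z l
    by_cases h : z < ζ * V ∧ l < S
    · have h1 := hc ⟨z, h.1⟩ ⟨l, h.2⟩
      simp only at h1
      rw [h1]
      push_cast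
      rw [abs_mul]
      have h2 := hc3 (⟨z, h.1⟩, ⟨l, h.2⟩)
      have h3 : (Fintype.card (Fin (ζ * V) × Fin S) : ℝ) ≤ 2 ^ (2 * Z) := by
        rw [Fintype.card_prod, Fintype.card_fin, Fintype.card_fin, ← hZ]
        have h4 : Z ≤ 2 ^ Z := (Nat.lt_two_pow_self).le
        have h5 : Z * S ≤ 2 ^ (2 * Z) := by
          rw [two_mul, pow_add]
          exact Nat.mul_le_mul h4 (by omega)
        exact_mod_cast h5
      have h4 : ((Fintype.card (Fin (ζ * V) × Fin S) : ℝ) * 2 ^ (3 * Z)) ^ (5 * (ω + 1) ^ 3) ≤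
          2 ^ (25 * (ω + 1) ^ 3 * Z) := by
        calc _ ≤ ((2 : ℝ) ^ (2 * Z) * 2 ^ (3 * Z)) ^ (5 * (ω + 1) ^ 3) := by gcongr
          _ = _ := by rw [← pow_add, ← pow_mul]; congr 1; ring
      have h5 : |(z.choose i0 : ℝ)| ≤ 2 ^ Z := by
        rw [abs_of_nonneg (by positivity)]
        exact hch _ _ _ (by omega)
      have h6 : 1 ≤ (ω + 1) ^ 3 := Nat.one_le_pow _ _ (by omega)
      calc _ ≤ (2 : ℝ) ^ (25 * (ω + 1) ^ 3 * Z) * 2 ^ Z :=
            mul_le_mul (h2.trans h4) h5 (abs_nonneg _) (by positivity)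
        _ = 2 ^ (25 * (ω + 1) ^ 3 * Z + Z) := by rw [← pow_add]
        _ ≤ _ := pow_le_pow_right₀ (by norm_num) (by rw [← hZ]; nlinarith)
    · simp only [c, dif_neg h]
      simp
  · intro b hb a ha
    rw [Finset.sum_range]
    simp only [Finset.sum_range (n := S), hc]
    have h1 : ∀ (z : Fin (ζ * V)) (l : Fin S),
        c' (z, l) * ((z : ℕ).choose i0 : ℤ) * ((z : ℕ).choose a : ℤ) *
          ((kap τ z + l).choose b : ℤ) =
        ∑ pq ∈ antidiagonal a, (((i0 : ℕ).choose pq.1 : ℤ) * (((i0 : ℕ) + pq.2).choose i0 : ℤ)) *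
          ((((z : ℕ).choose (i0 + pq.2) : ℤ) * ((kap τ z + l).choose b : ℤ)) * c' (z, l)) := by
      intro z l
      have h2 : (((z : ℕ).choose i0 : ℤ)) * ((z : ℕ).choose a : ℤ) =
          ∑ pq ∈ antidiagonal a, ((i0 : ℕ).choose pq.1 : ℤ) * (((i0 : ℕ) + pq.2).choose i0 : ℤ) *
            ((z : ℕ).choose (i0 + pq.2) : ℤ) := by
        exact_mod_cast auxil_choose_mul z i0 a
      rw [mul_assoc (c' (z, l)), h2, Finset.mul_sum, Finset.sum_mul]
      exact Finset.sum_congr rfl fun pq _ => by ring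
    simp only [h1]
    rw [← Fintype.sum_prod_type', Finset.sum_comm]
    refine Finset.sum_eq_zero fun pq hpq => ?_
    rw [← Finset.mul_sum]
    have h3 : pq.1 + pq.2 = a := by simpa using hpq
    have h4 := i0.2
    have h5 := hc1 ⟨⟨b, hb⟩, ⟨i0 + pq.2, by simp only; omega⟩⟩
    simp only at h5
    rw [h5, mul_zero]
  · rw [Finset.sum_range]
    simp only [Finset.sum_range (n := S), hc]
    rw [← Fintype.sum_prod_type']
    refine fun h => hc2 ?_
    rw [← h]
    refine Finset.sum_congr rfl fun x _ => ?_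
    push_cast
    ring

end Pool.Agent.P.MP_6e34ef_nt.SY
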