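import Pool.Agent.P.MP_6e34ef_nt.SY.PropN

set_option autoImplicit false

namespace Pool.Agent.P.MP_6e34ef_nt.SY

open Finset

variable {R : Type} [CommRing R] [IsDomain R]

/-- One prime cannot carry almost all of `u - w`. -/
theorem bigPrime [IsPrincipalIdealRing R] (c : Ctx R) (ε : ℝ) (hε : 0 < ε) :
    ∃ η X0 : ℝ, 0 < η ∧ η ≤ 1 ∧ ∀ (T : Tri R) (X H : ℝ) (p : R) (v : ℕ), X0 ≤ X → Good c T X H →
      X ^ ((c.d : ℝ) / 6 + ε) ≤ H → Prime p → p ^ v ∣ T.u - T.w →
      Real.log (c.N (T.u - T.w)) ≤ H →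
      (∀ q ∈ T.su, IsCoprime q p) → (∀ q ∈ T.sw, IsCoprime q p) →
      X ^ ((1 : ℝ) / 6) ≤ c.N p → c.N p ≤ X ^ ((1 : ℝ) / 3) →
      v * Real.log (c.N p) < (1 - η) * H := by
  obtain ⟨S0, hS0⟩ := exists_nat_ge (4 * (c.d : ℝ) / (3 * ε))
  obtain ⟨S, hS3, hSd⟩ : ∃ S : ℕ, 3 ≤ S ∧ (c.d : ℝ) / (3 * S) ≤ ε / 4 := by
    refine ⟨S0 + 3, by omega, ?_⟩
    rw [div_le_iff₀ (by positivity)] at hS0 ⊢
    push_cast
    nlinarith
  have hSR : (3 : ℝ) ≤ S := by exact_mod_cast hS3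
  have hSpos : (0 : ℝ) < S := by linarith
  have hs : Shape (2 * S) S (2 * S + 2) :=
    ⟨by omega, by omega, by omega, by omega, by nlinarith⟩
  obtain ⟨X0, hX0⟩ := propN c hs (1 / 4) (ε / 4) 6 (by norm_num) (by positivity) (by norm_num)
  obtain ⟨X1, hX1⟩ := Filter.eventually_atTop.1
    (((ev_const 12).and (ev_const (2 * Real.log c.C0 / ε))).and
      ((Filter.eventually_ge_atTop X0).and (Filter.eventually_ge_atTop (1 : ℝ))))
  refine ⟨1 / (2 * (S + 1)), X1, by positivity, ?_, ?_⟩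
  · rw [div_le_one (by positivity)]
    linarith
  intro T X H p v hX hG hH hp hdvd hlog hcu hcw hlo hhi
  obtain ⟨⟨hL12, hLC⟩, hX0', hX1'⟩ := hX1 X hX
  by_contra hcon
  rw [not_lt] at hcon
  have hXpos : 0 < X := by linarith
  have hp0 : p ≠ 0 := hp.ne_zero
  have hNp : 0 < c.N p := c.N_pos hp0
  have hNp1 : 1 ≤ c.N p := c.one_le_N hp0
  set L := Real.log X with hL
  set l := Real.log (c.N p) with hl
  have hl1 : L / 6 ≤ l := by
    have := Real.log_le_log (by positivity) hlo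
    rw [Real.log_rpow hXpos] at this
    linarith
  have hl2 : l ≤ L / 3 := by
    have := Real.log_le_log hNp hhi
    rw [Real.log_rpow hXpos] at this
    linarith
  have hd0 : (0 : ℝ) ≤ c.d := Nat.cast_nonneg _
  have hv0 : (0 : ℝ) ≤ v := Nat.cast_nonneg _
  have hHpos : 0 < H := lt_of_lt_of_le (by positivity) hH
  have huw : T.u - T.w ≠ 0 := sub_ne_zero.2 hG.ne
  have hlA : Real.log (c.N (p ^ v)) = v * l := by rw [c.N_pow, Real.log_pow]
  have hvl : v * l ≤ H := by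
    rw [← hlA]
    exact (Real.log_le_log (c.N_pos (pow_ne_zero _ hp0)) (c.N_le_of_dvd huw hdvd)).trans hlog
  have hη : 1 / (2 * ((S : ℝ) + 1)) ≤ 1 / 8 :=
    one_div_le_one_div_of_le (by norm_num) (by linarith)
  have hinv : 1 / (S : ℝ) ≤ 1 / 3 := one_div_le_one_div_of_le (by norm_num) hSR
  have hinv0 : 0 < 1 / (S : ℝ) := by positivity
  set B := c.N p ^ ((1 : ℝ) / 2 - 1 / S) with hB
  have hBpos : 0 < B := by positivity
  have hlB : Real.log B = (1 / 2 - 1 / S) * l := by rw [hB, Real.log_rpow hNp]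
  have hB1 : 1 ≤ B := Real.one_le_rpow hNp1 (by linarith)
  have h2B : 2 * B < c.N p := by
    rw [← Real.log_lt_log_iff (by positivity) hNp, Real.log_mul (by norm_num) hBpos.ne', hlB]
    have h2 : Real.log 2 < 1 := by
      have := Real.log_two_lt_d9
      linarith
    have h3 : 0 ≤ 1 / (S : ℝ) * l := mul_nonneg hinv0.le (by linarith)
    linarith
  have hBX : B ≤ X := by
    rw [← Real.log_le_log_iff hBpos hXpos, hlB]
    have h3 : 0 ≤ 1 / (S : ℝ) * l := mul_nonneg hinv0.le (by linarith)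
    linarith
  have hvL1 : (v : ℝ) * l ≤ v * (L / 3) := mul_le_mul_of_nonneg_left hl2 hv0
  have hvL2 : (v : ℝ) * (L / 6) ≤ v * l := mul_le_mul_of_nonneg_left hl1 hv0
  have hH6 : H ≤ 6 * v * L := by
    have h1 : (7 / 8) * H ≤ (1 - 1 / (2 * ((S : ℝ) + 1))) * H :=
      mul_le_mul_of_nonneg_right (by linarith) hHpos.le
    linarith
  have hH7 : v * L ≤ 6 * H := by linarith
  obtain ⟨BB, hBB, hcard⟩ := c.many B hB1
  have key := hX0 T X H B (p ^ v) p v BB hX0' hG
    ((Real.rpow_le_rpow_of_exponent_le hX1' (by linarith)).trans hH)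
    hH6 hH7 hB1 hBX hp0 (pow_ne_zero _ hp0) dvd_rfl hdvd hcu hcw ?_ ?_ ?_
  · rw [hlA, hlB] at key
    push_cast at key
    have hvl0 : 0 ≤ v * l := mul_nonneg hv0 (by linarith)
    have e1 : (2 * (S : ℝ) + 2) * v * ((1 / 2 - 1 / S) * l) = (S - 1 - 2 * (1 / S)) * (v * l) := by
      field_simp
      ring
    rw [e1] at key
    have e2 : ((S : ℝ) + 1) * ((1 - 1 / (2 * (S + 1))) * H) = (S + 1 / 2) * H := by
      field_simp
      ring
    have h3 := mul_le_mul_of_nonneg_left hcon (by positivity : (0 : ℝ) ≤ S + 1)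
    rw [e2] at h3
    linarith [mul_nonneg hinv0.le hvl0]
  · intro r hr
    obtain ⟨hr0, hrB⟩ := hBB r hr
    refine ⟨hr0, hrB, (hp.coprime_iff_not_dvd.2 fun hpr => ?_).symm⟩
    have h1 := c.N_le_of_dvd hr0 hpr
    have h2 : c.N r ≤ B := hrB
    linarith
  · intro r1 hr1 r2 hr2 hpr
    by_contra hne
    have h1 := c.N_le_of_dvd (sub_ne_zero.2 hne) hpr
    have h2 : c.N r1 ≤ B := (hBB r1 hr1).2
    have h3 : c.N r2 ≤ B := (hBB r2 hr2).2
    linarith [c.N_sub_le r1 r2]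
  · have hC := c.C0_pos
    have h1 : c.N p ^ c.d * X ^ (ε / 4) * c.C0 ≤ X ^ ((c.d : ℝ) / 6 + ε) * B ^ c.d := by
      rw [← Real.log_le_log_iff (by positivity) (by positivity),
        Real.log_mul (by positivity) hC.ne', Real.log_mul (by positivity) (by positivity),
        Real.log_mul (by positivity) (by positivity), Real.log_pow, Real.log_pow,
        Real.log_rpow hXpos, Real.log_rpow hXpos, hlB]
      rw [div_le_iff₀ hε] at hLC
      have h4 : (c.d : ℝ) * (1 / S) ≤ 3 * ε / 4 := by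
        have : (c.d : ℝ) * (1 / S) = 3 * (c.d / (3 * S)) := by field_simp
        rw [this]
        linarith
      have h5 : (c.d : ℝ) * (1 / S) * l ≤ 3 * ε / 4 * (L / 3) :=
        mul_le_mul h4 hl2 (by linarith) (by positivity)
      have h6 : (c.d : ℝ) * l ≤ c.d * (L / 3) := mul_le_mul_of_nonneg_left hl2 hd0
      rw [← hl, ← hL]
      linarith
    have h2 : X ^ ((c.d : ℝ) / 6 + ε) * B ^ c.d ≤ H * (c.C0 * BB.card) :=
      mul_le_mul hH hcard (by positivity) hHpos.le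
    have h3 : c.N p ^ c.d * X ^ (ε / 4) * c.C0 ≤ H * BB.card * c.C0 := by linarith
    exact le_of_mul_le_mul_right h3 hC

end Pool.Agent.P.MP_6e34ef_nt.SY
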