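import Pool.Agent.P.MP_6e34ef_nt.SY.Defs

set_option autoImplicit false

namespace Pool.Agent.P.MP_6e34ef_nt.SY

open Finset Polynomial

/-- Linear independence of sequences on every tail. -/
def TailIndep {ι : Type} [Fintype ι] (φ : ι → ℕ → ℂ) : Prop :=
  ∀ (N0 : ℕ) (a : ι → ℂ), (∀ n, N0 ≤ n → ∑ i, a i * φ i n = 0) → a = 0

theorem cas_natRoots (q : ℂ[X]) (hq : q ≠ 0) :
    ∃ E : Finset ℕ, E.card ≤ q.natDegree ∧ ∀ n : ℕ, q.eval (n : ℂ) = 0 → n ∈ E := by
  classical
  refine ⟨q.roots.toFinset.preimage (fun n : ℕ => (n : ℂ)) (Nat.cast_injective.injOn), ?_, ?_⟩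
  · refine le_trans ?_ ((Multiset.toFinset_card_le q.roots).trans (card_roots' q))
    refine Finset.card_le_card_of_injOn (fun n : ℕ => (n : ℂ)) ?_ (Nat.cast_injective.injOn)
    intro n hn
    simpa using hn
  · intro n hn
    rw [Finset.mem_preimage, Multiset.mem_toFinset, mem_roots hq]
    exact hn

theorem cas_tail_ne (q : ℂ[X]) (hq : q ≠ 0) :
    ∃ N0 : ℕ, ∀ n : ℕ, N0 ≤ n → q.eval (n : ℂ) ≠ 0 := by
  obtain ⟨E, -, hE⟩ := cas_natRoots q hq
  refine ⟨E.sup id + 1, fun n hn h0 => ?_⟩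
  have h1 : id n ≤ E.sup id := Finset.le_sup (hE n h0)
  simp only [id] at h1
  omega

theorem cas_eq_zero_of_tail (q : ℂ[X]) (N0 : ℕ) (h : ∀ n : ℕ, N0 ≤ n → q.eval (n : ℂ) = 0) :
    q = 0 := by
  by_contra hq
  obtain ⟨N1, hN1⟩ := cas_tail_ne q hq
  exact hN1 (max N0 N1) (le_max_right _ _) (h _ (le_max_left _ _))

theorem cas_q_zero (x : ℂ) (hx0 : x ≠ 0) (hx1 : x ≠ 1) (N0 : ℕ) (d : ℕ) :
    ∀ p q : ℂ[X], p.degree < (d : WithBot ℕ) →
      (∀ n : ℕ, N0 ≤ n → p.eval (n : ℂ) + q.eval (n : ℂ) * x ^ n = 0) → q = 0 := by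
  induction d with
  | zero =>
    intro p q hp h
    have hp0 : p = 0 := by
      rw [← degree_eq_bot]
      exact Nat.WithBot.lt_zero_iff.1 (by simpa using hp)
    refine cas_eq_zero_of_tail q N0 fun n hn => ?_
    have h1 := h n hn
    rw [hp0, eval_zero, zero_add] at h1
    exact (mul_eq_zero.1 h1).resolve_right (pow_ne_zero _ hx0)
  | succ d ih =>
    intro p q hp h
    have hdeg : (taylor 1 p - p).degree < (d : WithBot ℕ) := by
      by_cases hp0 : p = 0
      · subst hp0
        simp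
      · have h1 : (taylor 1 p - p).degree < (taylor 1 p).degree := by
          refine degree_sub_lt_left (degree_taylor p 1) ?_ (leadingCoeff_taylor 1 p)
          intro h0
          apply hp0
          rw [← degree_eq_bot, ← degree_taylor p 1, h0, degree_zero]
        rw [degree_taylor] at h1
        rw [degree_eq_natDegree hp0] at hp h1
        have h2 : p.natDegree ≤ d := by
          have : p.natDegree < d + 1 := by exact_mod_cast hp
          omega
        exact lt_of_lt_of_le h1 (by exact_mod_cast h2)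
    have hq' : C x * taylor 1 q - q = 0 := by
      refine ih (taylor 1 p - p) _ hdeg fun n hn => ?_
      have h1 := h n hn
      have h2 := h (n + 1) (by omega)
      simp only [eval_sub, eval_mul, eval_C, taylor_eval]
      push_cast at h2
      rw [pow_succ] at h2
      linear_combination h2 - h1
    have h3 : (C x * taylor 1 q).leadingCoeff = q.leadingCoeff := by
      rw [sub_eq_zero.1 hq']
    rw [leadingCoeff_mul, leadingCoeff_C, leadingCoeff_taylor] at h3
    have h4 : (x - 1) * q.leadingCoeff = 0 := by linear_combination h3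
    exact leadingCoeff_eq_zero.1 ((mul_eq_zero.1 h4).resolve_left (sub_ne_zero.2 hx1))

theorem expPoly_eq_zero (x : ℂ) (hx0 : x ≠ 0) (hx1 : x ≠ 1) (p q : ℂ[X]) (N0 : ℕ)
    (h : ∀ n : ℕ, N0 ≤ n → p.eval (n : ℂ) + q.eval (n : ℂ) * x ^ n = 0) : p = 0 ∧ q = 0 := by
  have hq : q = 0 :=
    cas_q_zero x hx0 hx1 N0 (p.natDegree + 1) p q
      (lt_of_le_of_lt degree_le_natDegree (by exact_mod_cast Nat.lt_succ_self _)) h
  refine ⟨cas_eq_zero_of_tail p N0 fun n hn => ?_, hq⟩
  have h1 := h n hn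
  rwa [hq, eval_zero, zero_mul, add_zero] at h1

/-- The Casoratian matrix of the sequences `x i ^ n * p i n`. -/
noncomputable def casM {r : ℕ} (x : Fin r → ℂ) (p : Fin r → ℂ[X]) : Matrix (Fin r) (Fin r) ℂ[X] :=
  fun i j => C (x i ^ (j : ℕ)) * taylor ((j : ℕ) : ℂ) (p i)

theorem cas_eval {r : ℕ} (x : Fin r → ℂ) (p : Fin r → ℂ[X]) (i j : Fin r) (n : ℕ) :
    x i ^ n * (casM x p i j).eval (n : ℂ) =
      x i ^ (n + j) * (p i).eval ((n + j : ℕ) : ℂ) := by
  simp only [casM, eval_mul, eval_C, taylor_eval]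
  push_cast
  rw [pow_add]
  ring

theorem cas_ne_zero {r : ℕ} (x : Fin r → ℂ) (p : Fin r → ℂ[X])
    (h : TailIndep fun i n => x i ^ n * (p i).eval (n : ℂ)) : (casM x p).det ≠ 0 := by
  classical
  intro hdet
  obtain ⟨a, ha0, ha⟩ := Matrix.exists_mulVec_eq_zero_iff.2 hdet
  set φ : Fin r → ℕ → ℂ := fun i n => x i ^ n * (p i).eval (n : ℂ) with hφ
  have hrec : ∀ (i : Fin r) (n : ℕ), ∑ j : Fin r, (a j).eval (n : ℂ) * φ i (n + j) = 0 := by
    intro i n
    have h1 := congrFun ha i
    simp only [Matrix.mulVec, dotProduct, Pi.zero_apply] at h1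
    have h2 := congrArg (fun f : ℂ[X] => x i ^ n * f.eval (n : ℂ)) h1
    simp only [eval_finsetSum, eval_mul, eval_zero, mul_zero, Finset.mul_sum] at h2
    rw [← h2]
    refine Finset.sum_congr rfl fun j _ => ?_
    simp only [hφ]
    rw [← cas_eval x p i j n]
    ring
  have hne : (univ.filter (fun j : Fin r => a j ≠ 0)).Nonempty := by
    by_contra hc
    apply ha0
    funext j
    by_contra hj
    exact hc ⟨j, by simpa using hj⟩
  set j1 : Fin r := (univ.filter (fun j : Fin r => a j ≠ 0)).max' hne with hj1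
  have hj1ne : a j1 ≠ 0 := (Finset.mem_filter.1 (Finset.max'_mem _ hne)).2
  have hj1max : ∀ j : Fin r, j1 < j → a j = 0 := by
    intro j hj
    by_contra hc
    have : j ≤ j1 := Finset.le_max' _ j (by simpa using hc)
    exact absurd hj (not_lt.2 this)
  obtain ⟨N0, hN0⟩ := cas_tail_ne (a j1) hj1ne
  let L : (Fin r → ℂ) →ₗ[ℂ] (Fin (j1 : ℕ) → ℂ) :=
    { toFun := fun c l => ∑ i, c i * φ i (N0 + l)
      map_add' := by
        intro c c'
        funext l
        simp [add_mul, Finset.sum_add_distrib]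
      map_smul' := by
        intro s c
        funext l
        simp [Finset.mul_sum, mul_assoc] }
  have hinj : Function.Injective L := by
    rw [injective_iff_map_eq_zero]
    intro c hc
    have hψ : ∀ m : ℕ, ∑ i, c i * φ i (N0 + m) = 0 := by
      intro m
      induction m using Nat.strong_induction_on with
      | _ m ih =>
        by_cases hm : m < j1
        · exact congrFun hc ⟨m, hm⟩
        · obtain ⟨m', rfl⟩ : ∃ m', m = m' + j1 := ⟨m - j1, by omega⟩
          have h1 : ∑ j : Fin r, (a j).eval ((N0 + m' : ℕ) : ℂ) *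
              ∑ i, c i * φ i (N0 + m' + j) = 0 := by
            simp only [Finset.mul_sum]
            rw [Finset.sum_comm]
            refine Finset.sum_eq_zero fun i _ => ?_
            have h2 := congrArg (fun t => c i * t) (hrec i (N0 + m'))
            simp only [Finset.mul_sum, mul_zero] at h2
            rw [← h2]
            refine Finset.sum_congr rfl fun j _ => by ring
          rw [Finset.sum_eq_single j1] at h1
          · have h3 := (mul_eq_zero.1 h1).resolve_left (hN0 _ (by omega))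
            rwa [add_assoc] at h3
          · intro j _ hj
            rcases lt_or_gt_of_ne hj with hlt | hgt
            · have hlt' : (j : ℕ) < j1 := hlt
              rw [add_assoc, ih (m' + j) (by omega), mul_zero]
            · rw [hj1max j hgt, eval_zero, zero_mul]
          · intro hj
            exact absurd (Finset.mem_univ _) hj
    refine h N0 c fun n hn => ?_
    obtain ⟨m, rfl⟩ := Nat.exists_eq_add_of_le hn
    exact hψ m
  have hle := LinearMap.finrank_le_finrank_of_injective hinj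
  simp only [Module.finrank_fin_fun] at hle
  exact absurd j1.2 (not_lt.2 hle)

theorem cas_natDegree {r : ℕ} (x : Fin r → ℂ) (p : Fin r → ℂ[X]) :
    (casM x p).det.natDegree ≤ ∑ i, (p i).natDegree := by
  classical
  rw [Matrix.det_apply]
  refine natDegree_sum_le_of_forall_le _ _ fun σ _ => ?_
  refine (natDegree_smul_le _ _).trans ((natDegree_prod_le _ _).trans ?_)
  rw [← Equiv.sum_comp σ (fun i => (p i).natDegree)]
  refine Finset.sum_le_sum fun i _ => ?_
  unfold casM
  refine (natDegree_C_mul_le _ _).trans ?_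
  rw [natDegree_taylor]

theorem cas_pow_dvd_det {r : ℕ} (M : Matrix (Fin r) (Fin r) ℂ[X]) (f : ℂ[X]) (S : ℕ)
    (h : ∀ j l : Fin r, (l : ℕ) < S → f ∣ M j l) : f ^ (min S r) ∣ M.det := by
  classical
  have h1 : ∀ j l : Fin r, ∃ e : ℂ[X], M j l = e * (if (l : ℕ) < S then f else 1) := by
    intro j l
    by_cases hl : (l : ℕ) < S
    · obtain ⟨e, he⟩ := h j l hl
      exact ⟨e, by rw [if_pos hl, he, mul_comm]⟩
    · exact ⟨M j l, by rw [if_neg hl, mul_one]⟩
  choose e he using h1
  have h2 : M = (Matrix.of e) * Matrix.diagonal (fun l : Fin r => if (l : ℕ) < S then f else 1) := by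
    ext1 j l
    rw [Matrix.mul_diagonal, Matrix.of_apply, he]
  rw [h2, Matrix.det_mul, Matrix.det_diagonal, Finset.prod_ite, Finset.prod_const_one, mul_one,
    Finset.prod_const, Fin.card_filter_val_lt, min_comm]
  exact Dvd.intro_left _ rfl

theorem cas_zero_fin {r : ℕ} (x y : Fin r → ℂ) (hx : ∀ i, x i ≠ 0) (hy : ∀ i, y i ≠ 0)
    (p g : Fin r → ℂ[X]) (hp : TailIndep fun i n => x i ^ n * (p i).eval (n : ℂ))
    (hg : TailIndep fun i n => y i ^ n * (g i).eval (n : ℂ)) (S : ℕ) (κ : ℕ → ℕ) (G : Finset ℕ)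
    (hv : ∀ z ∈ G, ∀ j < r, ∀ l < S,
      ∑ i, (x i ^ (z + j) * (p i).eval ((z + j : ℕ) : ℂ)) *
        (y i ^ (κ z + l) * (g i).eval ((κ z + l : ℕ) : ℂ)) = 0) :
    ∃ E : Finset ℕ, E.card ≤ ∑ i, (g i).natDegree ∧
      min S r * (G.filter (fun z => κ z ∉ E)).card ≤ ∑ i, (p i).natDegree := by
  classical
  have hD := cas_ne_zero x p hp
  obtain ⟨E, hEc, hE⟩ := cas_natRoots _ (cas_ne_zero y g hg)
  refine ⟨E, hEc.trans (cas_natDegree y g), le_trans ?_ (cas_natDegree x p)⟩
  have hdvd : ∀ z ∈ G.filter (fun z => κ z ∉ E),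
      (X - C (z : ℂ)) ^ (min S r) ∣ (casM x p).det := by
    intro z hz
    obtain ⟨hzG, hzE⟩ := Finset.mem_filter.1 hz
    have hk : ((casM y g).det).eval ((κ z : ℕ) : ℂ) ≠ 0 := fun h0 => hzE (hE _ h0)
    set Cm : Matrix (Fin r) (Fin r) ℂ :=
      Matrix.diagonal (fun i => x i ^ z * y i ^ (κ z)) *
        (evalRingHom ((κ z : ℕ) : ℂ)).mapMatrix (casM y g) with hCm
    have hCdet : Cm.det ≠ 0 := by
      rw [hCm, Matrix.det_mul, Matrix.det_diagonal, ← RingHom.map_det]
      refine mul_ne_zero (Finset.prod_ne_zero_iff.2 fun i _ => ?_) hk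
      exact mul_ne_zero (pow_ne_zero _ (hx i)) (pow_ne_zero _ (hy i))
    have hCe : ∀ i l : Fin r, Cm i l =
        x i ^ z * (y i ^ (κ z + l) * (g i).eval ((κ z + l : ℕ) : ℂ)) := by
      intro i l
      rw [hCm, Matrix.diagonal_mul, ← cas_eval y g i l (κ z), mul_assoc]
      rfl
    have h1 : (X - C (z : ℂ)) ^ (min S r) ∣
        ((casM x p).transpose * (C : ℂ →+* ℂ[X]).mapMatrix Cm).det := by
      refine cas_pow_dvd_det _ _ S fun j l hl => ?_
      rw [dvd_iff_isRoot, IsRoot.def, Matrix.mul_apply, eval_finsetSum, ← hv z hzG j j.2 l hl]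
      refine Finset.sum_congr rfl fun i _ => ?_
      rw [← cas_eval x p i j z, Matrix.transpose_apply, RingHom.mapMatrix_apply, Matrix.map_apply,
        eval_mul, eval_C, hCe]
      ring
    rw [Matrix.det_mul, Matrix.det_transpose, ← RingHom.map_det] at h1
    exact (isUnit_C.2 (isUnit_iff_ne_zero.2 hCdet)).dvd_mul_right.1 h1
  have hprod : ∏ z ∈ G.filter (fun z => κ z ∉ E), (X - C (z : ℂ)) ^ (min S r) ∣
      (casM x p).det := by
    refine Finset.prod_dvd_of_coprime ?_ hdvd
    intro z _ z' _ hzz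
    exact (pairwise_coprime_X_sub_C (K := ℂ) (s := fun n : ℕ => (n : ℂ))
      Nat.cast_injective hzz).pow
  have h2 := natDegree_le_of_dvd hprod hD
  rw [natDegree_prod_of_monic _ _ (fun z _ => (monic_X_sub_C _).pow _)] at h2
  simp only [natDegree_pow, natDegree_X_sub_C, mul_one, Finset.sum_const, smul_eq_mul] at h2
  rwa [mul_comm] at h2

theorem cas_tail_equiv {ι κ : Type} [Fintype ι] [Fintype κ] (e : κ ≃ ι) (φ : ι → ℕ → ℂ)
    (h : TailIndep φ) : TailIndep fun i => φ (e i) := by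
  intro N0 a ha
  have h1 := h N0 (fun i => a (e.symm i)) fun n hn => by
    rw [← ha n hn, ← Equiv.sum_comp e]
    simp
  funext i
  simpa using congrFun h1 (e i)

theorem zero0 {ι : Type} [Fintype ι] (x y : ι → ℂ) (hx : ∀ i, x i ≠ 0) (hy : ∀ i, y i ≠ 0)
    (p g : ι → ℂ[X]) (hp : TailIndep fun i n => x i ^ n * (p i).eval (n : ℂ))
    (hg : TailIndep fun i n => y i ^ n * (g i).eval (n : ℂ)) (S : ℕ) (κ : ℕ → ℕ) (G : Finset ℕ)
    (hv : ∀ z ∈ G, ∀ j < Fintype.card ι, ∀ l < S,
      ∑ i, (x i ^ (z + j) * (p i).eval ((z + j : ℕ) : ℂ)) *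
        (y i ^ (κ z + l) * (g i).eval ((κ z + l : ℕ) : ℂ)) = 0) :
    ∃ E : Finset ℕ, E.card ≤ ∑ i, (g i).natDegree ∧
      min S (Fintype.card ι) * (G.filter (fun z => κ z ∉ E)).card ≤ ∑ i, (p i).natDegree := by
  set e : Fin (Fintype.card ι) ≃ ι := (Fintype.equivFin ι).symm with he
  obtain ⟨E, h1, h2⟩ := cas_zero_fin (fun i => x (e i)) (fun i => y (e i)) (fun i => hx _)
    (fun i => hy _) (fun i => p (e i)) (fun i => g (e i)) (cas_tail_equiv e _ hp)
    (cas_tail_equiv e _ hg) S κ G (fun z hz j hj l hl => by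
      rw [← hv z hz j hj l hl, ← Equiv.sum_comp e])
  refine ⟨E, ?_, ?_⟩
  · rwa [← Equiv.sum_comp e]
  · rwa [← Equiv.sum_comp e]

end Pool.Agent.P.MP_6e34ef_nt.SY
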