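import Pool.Agent.P.MP_6e34ef_nt.SY.Auxil

set_option autoImplicit false

namespace Pool.Agent.P.MP_6e34ef_nt.SY

open Finset

theorem core_binom {A : Type} [CommRing A] {z M : ℕ} (h : z < M) (x : A) :
    (1 + x) ^ z = ∑ a ∈ range M, (z.choose a : A) * x ^ a := by
  rw [add_comm, add_pow, ← sum_subset (range_mono (Nat.succ_le_of_lt h)) fun a _ ha => by
    rw [Nat.choose_eq_zero_of_lt (by simpa using ha), Nat.cast_zero, zero_mul]]
  exact sum_congr rfl fun a _ => by rw [one_pow, mul_one, mul_comm]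

theorem core_binom2 {A : Type} [CommRing A] {z k M : ℕ} (h : z < M) (h' : k < M) (x y : A) :
    (1 + x) ^ z * (1 + y) ^ k = ∑ ab ∈ range M ×ˢ range M,
      (z.choose ab.1 : A) * (k.choose ab.2 : A) * x ^ ab.1 * y ^ ab.2 := by
  rw [core_binom h, core_binom h', sum_mul_sum, sum_product]
  exact sum_congr rfl fun a _ => sum_congr rfl fun b _ => by ring

theorem split {A : Type} [CommRing A] (c : ℕ → ℕ → ℤ) (Z S ω V M : ℕ) (κ : ℕ → ℕ)
    (horth : ∀ b < ω, ∀ a < V * (ω - b), ∑ z ∈ range Z, ∑ l ∈ range S,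
      c z l * (z.choose a : ℤ) * ((κ z + l).choose b : ℤ) = 0)
    (hM : ∀ z < Z, ∀ l < S, z < M ∧ κ z + l < M) (x y : A) :
    ∑ z ∈ range Z, ∑ l ∈ range S, (c z l : A) * (1 + x) ^ z * (1 + y) ^ (κ z + l) =
      ∑ z ∈ range Z, ∑ l ∈ range S, (c z l : A) *
        ∑ ab ∈ (range M ×ˢ range M).filter (fun ab => ¬ (ab.2 < ω ∧ ab.1 < V * (ω - ab.2))),
          (z.choose ab.1 : A) * ((κ z + l).choose ab.2 : A) * x ^ ab.1 * y ^ ab.2 := by
  have h0 : ∑ z ∈ range Z, ∑ l ∈ range S, (c z l : A) *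
      ∑ ab ∈ (range M ×ˢ range M).filter (fun ab => ab.2 < ω ∧ ab.1 < V * (ω - ab.2)),
        (z.choose ab.1 : A) * ((κ z + l).choose ab.2 : A) * x ^ ab.1 * y ^ ab.2 = 0 := by
    simp only [mul_sum]
    rw [sum_congr rfl fun z _ => sum_comm, sum_comm]
    refine sum_eq_zero fun ab hab => ?_
    obtain ⟨-, h1, h2⟩ := mem_filter.1 hab
    have h3 := congrArg (fun t : ℤ => (t : A) * (x ^ ab.1 * y ^ ab.2)) (horth _ h1 _ h2)
    push_cast at h3
    rw [zero_mul] at h3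
    rw [← h3]
    simp only [sum_mul]
    exact sum_congr rfl fun z _ => sum_congr rfl fun l _ => by ring
  rw [← zero_add (∑ z ∈ range Z, ∑ l ∈ range S, (c z l : A) * ∑ ab ∈ _, _), ← h0,
    ← sum_add_distrib]
  refine sum_congr rfl fun z hz => ?_
  rw [← sum_add_distrib]
  refine sum_congr rfl fun l hl => ?_
  obtain ⟨h1, h2⟩ := hM z (mem_range.1 hz) l (mem_range.1 hl)
  rw [← mul_add, sum_filter_add_sum_filter_not, mul_assoc, core_binom2 h1 h2]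

theorem core_par {ω S ζ V : ℕ} {τ : ℝ} (hs : Shape ω S ζ) (hl : Slope ω ζ V τ) :
    1 ≤ ζ * V ∧ S ≤ ζ * V ∧ ∀ z < ζ * V, ∀ l < S, z < 2 * (ζ * V) ∧ kap τ z + l < 2 * (ζ * V) := by
  have h1 : (1 : ℝ) ≤ ω := by exact_mod_cast hs.hω
  have hζ : 1 ≤ ζ := hs.hS.trans hs.h2
  have h2 : (1 : ℝ) ≤ ζ := by exact_mod_cast hζ
  have hτ : τ ≤ 1 := by
    have h3 : (1 : ℝ) ≤ 8 * ω * ζ := by nlinarith
    exact (le_mul_of_one_le_left hl.pos.le h3).trans hl.small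
  have hV : 1 ≤ V := by
    rcases Nat.eq_zero_or_pos V with rfl | h
    · have := hl.large
      simp only [Nat.cast_zero, mul_zero] at this
      nlinarith
    · exact h
  have h4 : ζ ≤ ζ * V := Nat.le_mul_of_pos_right _ hV
  have h5 := hs.h2
  refine ⟨by omega, by omega, fun z hz l hl' => ?_⟩
  have := kap_le hl.pos.le hτ z
  omega

theorem core_sum_le {Z S : ℕ} (hS : S ≤ Z) (f : ℕ → ℕ → ℂ) {B : ℝ} (hB : 0 ≤ B)
    (h : ∀ z < Z, ∀ l < S, ‖f z l‖ ≤ B) :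
    ‖∑ z ∈ range Z, ∑ l ∈ range S, f z l‖ ≤ 2 ^ (2 * Z) * B := by
  have h1 : (Z : ℝ) ≤ 2 ^ Z := by exact_mod_cast Nat.lt_two_pow_self.le
  have h2 : (S : ℝ) ≤ 2 ^ Z := (Nat.cast_le.2 hS).trans h1
  calc _ ≤ ∑ z ∈ range Z, ∑ l ∈ range S, B :=
        (norm_sum_le _ _).trans (sum_le_sum fun z hz => (norm_sum_le _ _).trans
          (sum_le_sum fun l hl => h z (mem_range.1 hz) l (mem_range.1 hl)))
    _ = Z * S * B := by simp [mul_assoc]
    _ ≤ _ := by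
      rw [two_mul, pow_add]
      gcongr

variable {R : Type} [CommRing R] [IsDomain R]

omit [IsDomain R] in
theorem core_phi (c : Ctx R) {Z S : ℕ} (κ : ℕ → ℕ) {P1 P2 Y1 Y2 n0 : R} {n : ℕ → ℕ → R}
    (h2 : P2 ≠ 0) (h4 : Y2 ≠ 0)
    (hn : ∀ z < Z, ∀ l < S, n z l * P2 ^ z * Y2 ^ (κ z + l) = n0 * P1 ^ z * Y1 ^ (κ z + l))
    (a : ℕ → ℕ → ℤ) :
    c.φ (∑ z ∈ range Z, ∑ l ∈ range S, (a z l : R) * n z l) = c.φ n0 *
      ∑ z ∈ range Z, ∑ l ∈ range S,
        (a z l : ℂ) * (c.φ P1 / c.φ P2) ^ z * (c.φ Y1 / c.φ Y2) ^ (κ z + l) := by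
  simp only [map_sum, mul_sum, map_mul, map_intCast]
  refine sum_congr rfl fun z hz => sum_congr rfl fun l hl => ?_
  have h := congrArg c.φ (hn z (mem_range.1 hz) l (mem_range.1 hl))
  simp only [map_mul, map_pow] at h
  have e2 := c.φ_ne_zero h2
  have e4 := c.φ_ne_zero h4
  rw [div_pow, div_pow]
  field_simp
  linear_combination (a z l : ℂ) * h

omit [IsDomain R] in
theorem core_ne_one (c : Ctx R) {P1 P2 : R} (h2 : P2 ≠ 0) (h : P1 ≠ P2) : c.φ P1 / c.φ P2 ≠ 1 :=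
  fun e => h (c.φ_inj ((div_eq_one_iff_eq (c.φ_ne_zero h2)).1 e))

theorem coreN (c : Ctx R) {ω S ζ V : ℕ} {τ : ℝ} (hs : Shape ω S ζ) (hl : Slope ω ζ V τ)
    (A m P1 P2 Y1 Y2 n0 : R) (n : ℕ → ℕ → R) (hAm : A ∣ m ^ V) (hP : m ∣ P1 - P2)
    (hY : A ∣ Y1 - Y2) (hP2 : IsCoprime P2 m) (hY2 : IsCoprime Y2 m)
    (h1 : P1 ≠ 0) (h2 : P2 ≠ 0) (h3 : Y1 ≠ 0) (h4 : Y2 ≠ 0) (h5 : n0 ≠ 0) (h6 : P1 ≠ P2)
    (h7 : Y1 ≠ Y2)
    (hn : ∀ z < ζ * V, ∀ l < S,
      n z l * P2 ^ z * Y2 ^ (kap τ z + l) = n0 * P1 ^ z * Y1 ^ (kap τ z + l))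
    (Nmax : ℝ) (hN : ∀ z < ζ * V, ∀ l < S, c.N (n z l) ≤ Nmax) :
    c.N A ^ ω ≤ 2 ^ (40 * (ω + 1) ^ 3 * (ζ * V)) * Nmax := by
  obtain ⟨p1, p2, p3⟩ := core_par hs hl
  obtain ⟨a, ha, horth, hne⟩ := aux hs hl (c.φ P1 / c.φ P2) (c.φ Y1 / c.φ Y2)
    (div_ne_zero (c.φ_ne_zero h1) (c.φ_ne_zero h2)) (core_ne_one c h2 h6)
    (div_ne_zero (c.φ_ne_zero h3) (c.φ_ne_zero h4)) (core_ne_one c h4 h7)
  set s : R := ∑ z ∈ range (ζ * V), ∑ l ∈ range S, (a z l : R) * n z l with hsd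
  have hs0 : s ≠ 0 := by
    intro h
    have := core_phi c (kap τ) h2 h4 hn a
    rw [← hsd, h, map_zero] at this
    exact mul_ne_zero (c.φ_ne_zero h5) hne this.symm
  obtain ⟨P', e1, hP'⟩ := hP2.pow_right (n := V * ω + 1)
  obtain ⟨Y', e2, hY'⟩ := hY2.pow_right (n := V * ω + 1)
  have d1 : A ^ ω ∣ m ^ (V * ω + 1) := by
    rw [pow_succ, pow_mul]
    exact (pow_dvd_pow_of_dvd hAm ω).mul_right m
  have d2 : m ∣ P1 * P' - 1 := by
    have : P1 * P' - 1 = (P1 - P2) * P' - e1 * m ^ (V * ω + 1) := by linear_combination hP'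
    rw [this]
    exact (hP.mul_right _).sub ((dvd_pow_self m (by omega)).mul_left _)
  have d3 : A ∣ Y1 * Y' - 1 := by
    have : Y1 * Y' - 1 = (Y1 - Y2) * Y' - e2 * m ^ (V * ω + 1) := by linear_combination hY'
    rw [this]
    exact (hY.mul_right _).sub
      (((dvd_pow_self A (Nat.one_le_iff_ne_zero.1 hs.hω)).trans d1).mul_left _)
  have hdvd : A ^ ω ∣ s := by
    rw [← Ideal.Quotient.eq_zero_iff_dvd]
    set π := Ideal.Quotient.mk (Ideal.span {A ^ ω}) with hπ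
    have z1 : π (m ^ (V * ω + 1)) = 0 := (Ideal.Quotient.eq_zero_iff_dvd _ _).2 d1
    have q1 : π P' * π P2 = 1 := by
      have := congrArg π hP'
      rwa [map_add, map_mul, map_mul, z1, mul_zero, add_zero, map_one] at this
    have q2 : π Y' * π Y2 = 1 := by
      have := congrArg π hY'
      rwa [map_add, map_mul, map_mul, z1, mul_zero, add_zero, map_one] at this
    have q3 : π s = π n0 * ∑ z ∈ range (ζ * V), ∑ l ∈ range S, (a z l : R ⧸ Ideal.span {A ^ ω}) *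
        (1 + π (P1 * P' - 1)) ^ z * (1 + π (Y1 * Y' - 1)) ^ (kap τ z + l) := by
      simp only [hsd, map_sum, mul_sum, map_mul, map_intCast, map_sub, map_one, add_sub_cancel]
      refine sum_congr rfl fun z hz => sum_congr rfl fun l hl => ?_
      have h := congrArg π (hn z (mem_range.1 hz) l (mem_range.1 hl))
      simp only [map_mul, map_pow] at h
      calc _ = a z l * (π (n z l) * (π P' * π P2) ^ z * (π Y' * π Y2) ^ (kap τ z + l)) := by
            rw [q1, q2, one_pow, one_pow, mul_one, mul_one]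
        _ = a z l * (π (n z l) * π P2 ^ z * π Y2 ^ (kap τ z + l)) *
            (π P' ^ z * π Y' ^ (kap τ z + l)) := by rw [mul_pow, mul_pow]; ring
        _ = _ := by rw [h, mul_pow, mul_pow]; ring
    rw [q3, split a _ S ω V _ (kap τ) horth p3]
    refine mul_eq_zero_of_right _ (sum_eq_zero fun z _ => sum_eq_zero fun l _ =>
      mul_eq_zero_of_right _ (sum_eq_zero fun ab hab => ?_))
    rw [mul_assoc, ← map_pow, ← map_pow, ← map_mul]
    refine mul_eq_zero_of_right _ ((Ideal.Quotient.eq_zero_iff_dvd _ _).2 ?_)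
    have g1 : V * (ω - ab.2) ≤ ab.1 := by
      by_contra h
      refine (mem_filter.1 hab).2 ⟨?_, not_le.1 h⟩
      by_contra h'
      rw [Nat.sub_eq_zero_of_le (not_lt.1 h')] at h
      simp at h
    have g2 : A ^ (ω - ab.2) ∣ (P1 * P' - 1) ^ ab.1 := by
      refine (pow_dvd_pow_of_dvd hAm _).trans ?_
      rw [← pow_mul]
      exact pow_dvd_pow_of_dvd_of_le d2 g1
    refine (pow_dvd_pow A (le_tsub_add (a := ab.2))).trans ?_
    rw [pow_add]
    exact mul_dvd_mul g2 (pow_dvd_pow_of_dvd d3 _)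
  have hN0 : 0 ≤ Nmax := (c.N_nonneg _).trans (hN 0 p1 0 hs.hS)
  have hb : c.N s ≤ 2 ^ (2 * (ζ * V)) * (2 ^ (32 * (ω + 1) ^ 3 * (ζ * V)) * Nmax) := by
    simp only [Ctx.N, hsd, map_sum]
    refine core_sum_le p2 _ (by positivity) fun z hz l hl' => ?_
    rw [map_mul, norm_mul, map_intCast, Complex.norm_intCast]
    exact mul_le_mul (ha z l) (hN z hz l hl') (norm_nonneg _) (by positivity)
  rw [← c.N_pow]
  refine (c.N_le_of_dvd hs0 hdvd).trans (hb.trans ?_)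
  rw [← mul_assoc, ← pow_add, ← add_mul]
  have : 1 ≤ (ω + 1) ^ 3 := Nat.one_le_pow _ _ (by omega)
  exact mul_le_mul_of_nonneg_right
    (pow_le_pow_right₀ one_le_two (Nat.mul_le_mul_right _ (by omega))) hN0

theorem coreA (c : Ctx R) {ω S ζ V : ℕ} {τ : ℝ} (hs : Shape ω S ζ) (hl : Slope ω ζ V τ)
    (P1 P2 Y1 Y2 n0 : R) (n : ℕ → ℕ → R) (δ : ℝ) (hδ0 : 0 ≤ δ) (hδ1 : δ ≤ 1)
    (hP : ‖c.φ P1 / c.φ P2 - 1‖ ≤ δ) (hY : ‖c.φ Y1 / c.φ Y2 - 1‖ ≤ δ ^ V)
    (h1 : P1 ≠ 0) (h2 : P2 ≠ 0) (h3 : Y1 ≠ 0) (h4 : Y2 ≠ 0) (h5 : n0 ≠ 0) (h6 : P1 ≠ P2)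
    (h7 : Y1 ≠ Y2)
    (hn : ∀ z < ζ * V, ∀ l < S,
      n z l * P2 ^ z * Y2 ^ (kap τ z + l) = n0 * P1 ^ z * Y1 ^ (kap τ z + l)) :
    1 ≤ 2 ^ (48 * (ω + 1) ^ 3 * (ζ * V)) * c.N n0 * δ ^ (V * ω) := by
  obtain ⟨p1, p2, p3⟩ := core_par hs hl
  obtain ⟨a, ha, horth, hne⟩ := aux hs hl (c.φ P1 / c.φ P2) (c.φ Y1 / c.φ Y2)
    (div_ne_zero (c.φ_ne_zero h1) (c.φ_ne_zero h2)) (core_ne_one c h2 h6)
    (div_ne_zero (c.φ_ne_zero h3) (c.φ_ne_zero h4)) (core_ne_one c h4 h7)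
  have hφ := core_phi c (kap τ) h2 h4 hn a
  have hs0 : ∑ z ∈ range (ζ * V), ∑ l ∈ range S, (a z l : R) * n z l ≠ 0 := by
    intro h
    rw [h, map_zero] at hφ
    exact mul_ne_zero (c.φ_ne_zero h5) hne hφ.symm
  have hone := c.one_le _ hs0
  have hsp := split a _ S ω V _ (kap τ) horth p3 (c.φ P1 / c.φ P2 - 1) (c.φ Y1 / c.φ Y2 - 1)
  rw [add_sub_cancel, add_sub_cancel] at hsp
  rw [hφ, norm_mul, hsp] at hone
  refine hone.trans ((mul_le_mul_of_nonneg_left (core_sum_le p2 _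
    (B := 2 ^ (32 * (ω + 1) ^ 3 * (ζ * V)) * (2 ^ (4 * (ζ * V)) * δ ^ (V * ω))) (by positivity)
    fun z hz l hl' => ?_) (norm_nonneg _)).trans ?_)
  · obtain ⟨m1, m2⟩ := p3 z hz l hl'
    rw [norm_mul, Complex.norm_intCast]
    refine mul_le_mul (ha z l) ((norm_sum_le _ _).trans ?_) (norm_nonneg _) (by positivity)
    have e := core_binom2 m1 m2 (1 : ℝ) 1
    simp only [one_pow, mul_one, one_add_one_eq_two] at e
    calc _ ≤ ∑ ab ∈ (range (2 * (ζ * V)) ×ˢ range (2 * (ζ * V))).filter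
            (fun ab => ¬ (ab.2 < ω ∧ ab.1 < V * (ω - ab.2))),
            (z.choose ab.1 : ℝ) * ((kap τ z + l).choose ab.2 : ℝ) * δ ^ (V * ω) := by
          refine sum_le_sum fun ab hab => ?_
          rw [mul_assoc, norm_mul, norm_mul, norm_mul, norm_pow, norm_pow, Complex.norm_natCast,
            Complex.norm_natCast]
          refine mul_le_mul_of_nonneg_left ?_ (by positivity)
          have g1 : V * ω ≤ ab.1 + V * ab.2 := by
            have h := (mem_filter.1 hab).2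
            by_cases h' : ab.2 < ω
            · have h2 : V * (ω - ab.2) ≤ ab.1 := not_lt.1 fun h2 => h ⟨h', h2⟩
              have h3 : V * ω = V * (ω - ab.2) + V * ab.2 := by
                rw [← mul_add, Nat.sub_add_cancel h'.le]
              omega
            · exact (Nat.mul_le_mul_left V (not_lt.1 h')).trans (Nat.le_add_left _ _)
          calc _ ≤ δ ^ ab.1 * (δ ^ V) ^ ab.2 := by gcongr
            _ = δ ^ (ab.1 + V * ab.2) := by rw [pow_add, pow_mul]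
            _ ≤ _ := pow_le_pow_of_le_one hδ0 hδ1 g1
      _ ≤ ∑ ab ∈ range (2 * (ζ * V)) ×ˢ range (2 * (ζ * V)),
            (z.choose ab.1 : ℝ) * ((kap τ z + l).choose ab.2 : ℝ) * δ ^ (V * ω) :=
          sum_le_sum_of_subset_of_nonneg (filter_subset _ _) fun _ _ _ => by positivity
      _ ≤ _ := by
          rw [← sum_mul, ← e, ← pow_add]
          exact mul_le_mul_of_nonneg_right (pow_le_pow_right₀ one_le_two (by omega))
            (by positivity)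
  · have : 1 ≤ (ω + 1) ^ 3 := Nat.one_le_pow _ _ (by omega)
    calc _ = (2 : ℝ) ^ ((6 + 32 * (ω + 1) ^ 3) * (ζ * V)) * (c.N n0 * δ ^ (V * ω)) := by
          rw [add_mul, pow_add, show 6 * (ζ * V) = 2 * (ζ * V) + 4 * (ζ * V) by ring, pow_add,
            Ctx.N]
          ring
      _ ≤ _ := by
          rw [mul_assoc]
          exact mul_le_mul_of_nonneg_right
            (pow_le_pow_right₀ one_le_two (Nat.mul_le_mul_right _ (by omega)))
            (mul_nonneg (c.N_nonneg _) (by positivity))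

end Pool.Agent.P.MP_6e34ef_nt.SY
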