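import Mathlib

set_option autoImplicit false

namespace Pool.Agent.P.MP_6e34ef_nt.SY

open Finset

/-- A ring with an embedding in the complex numbers whose image is a lattice of dimension `d`. -/
structure Ctx (R : Type) [CommRing R] where
  φ : R →+* ℂ
  d : ℕ
  C0 : ℝ
  C0_ge : 1 ≤ C0
  one_le : ∀ x : R, x ≠ 0 → 1 ≤ ‖φ x‖
  rep : ∀ m : R, m ≠ 0 → ∀ x : R, ∃ y : R, m ∣ x - y ∧ ‖φ y‖ ≤ ‖φ m‖
  ball : ∀ T : ℝ, 1 ≤ T → ∃ s : Finset R, (∀ x : R, ‖φ x‖ ≤ T → x ∈ s) ∧ (s.card : ℝ) ≤ C0 * T ^ d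
  many : ∀ T : ℝ, 1 ≤ T → ∃ s : Finset R, (∀ x ∈ s, x ≠ 0 ∧ ‖φ x‖ ≤ T) ∧ T ^ d ≤ C0 * s.card

/-- The lower edge of the slanted strip. -/
noncomputable def kap (τ : ℝ) (z : ℕ) : ℕ := ⌊(z : ℝ) * τ⌋₊

/-- Product of powers. -/
def pw {R : Type} [CommRing R] (s : Finset R) (e : R → ℕ) : R := ∏ q ∈ s, q ^ e q

/-- The conditions on the integer parameters. -/
structure Shape (ω S ζ : ℕ) : Prop where
  hω : 1 ≤ ω
  hS : 1 ≤ S
  h1 : ω + 1 ≤ ζ
  h2 : S ≤ ζ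
  h3 : ω * (ω + 1) + 2 * S ≤ 2 * S * ζ

/-- The conditions on the slope. -/
structure Slope (ω ζ V : ℕ) (τ : ℝ) : Prop where
  pos : 0 < τ
  small : 8 * (ω : ℝ) * ζ * τ ≤ 1
  large : 8 * (ω : ℝ) ^ 2 ≤ τ * V

/-- Two factored elements `u`, `w`. -/
structure Tri (R : Type) [CommRing R] where
  su : Finset R
  sw : Finset R
  α : R → ℕ
  β : R → ℕ
  εu : Rˣ
  εw : Rˣ

def Tri.u {R : Type} [CommRing R] (T : Tri R) : R := (T.εu : R) * pw T.su T.α
def Tri.w {R : Type} [CommRing R] (T : Tri R) : R := (T.εw : R) * pw T.sw T.β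

namespace Ctx

variable {R : Type} [CommRing R] (c : Ctx R)

/-- The size of an element. -/
noncomputable def N (x : R) : ℝ := ‖c.φ x‖

/-- The product of the sizes. -/
noncomputable def rad (s : Finset R) : ℝ := ∏ q ∈ s, c.N q

theorem N_nonneg (x : R) : 0 ≤ c.N x := norm_nonneg _
theorem N_mul (x y : R) : c.N (x * y) = c.N x * c.N y := by simp [N]
theorem N_pow (x : R) (n : ℕ) : c.N (x ^ n) = c.N x ^ n := by simp [N]
theorem N_one : c.N 1 = 1 := by simp [N]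
theorem N_zero : c.N 0 = 0 := by simp [N]
theorem N_neg (x : R) : c.N (-x) = c.N x := by simp [N]
theorem N_add_le (x y : R) : c.N (x + y) ≤ c.N x + c.N y := by
  simp only [N, map_add]; exact norm_add_le _ _
theorem N_sub_le (x y : R) : c.N (x - y) ≤ c.N x + c.N y := by
  simp only [N, map_sub]; exact norm_sub_le _ _
theorem N_prod {ι : Type*} (s : Finset ι) (f : ι → R) :
    c.N (∏ i ∈ s, f i) = ∏ i ∈ s, c.N (f i) := by simp [N]
theorem N_intCast (n : ℤ) : c.N (n : R) = |(n : ℝ)| := by simp [N]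
theorem one_le_N {x : R} (hx : x ≠ 0) : 1 ≤ c.N x := c.one_le x hx
theorem N_pos {x : R} (hx : x ≠ 0) : 0 < c.N x := lt_of_lt_of_le one_pos (c.one_le_N hx)
theorem log_N_nonneg {x : R} (hx : x ≠ 0) : 0 ≤ Real.log (c.N x) :=
  Real.log_nonneg (c.one_le_N hx)
theorem ne_zero_of_N_pos {x : R} (hx : 0 < c.N x) : x ≠ 0 := by
  rintro rfl; rw [c.N_zero] at hx; exact lt_irrefl _ hx
theorem φ_ne_zero {x : R} (hx : x ≠ 0) : c.φ x ≠ 0 := by
  intro h
  have := c.N_pos hx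
  simp [N, h] at this
theorem φ_inj : Function.Injective c.φ := by
  intro x y h
  by_contra hne
  exact c.φ_ne_zero (sub_ne_zero.2 hne) (by rw [map_sub, h, sub_self])
theorem N_le_of_dvd {x y : R} (hy : y ≠ 0) (h : x ∣ y) : c.N x ≤ c.N y := by
  obtain ⟨z, rfl⟩ := h
  have hz : z ≠ 0 := by rintro rfl; exact hy (mul_zero _)
  rw [c.N_mul]
  exact le_mul_of_one_le_right (c.N_nonneg _) (c.one_le_N hz)
theorem N_unit [Nontrivial R] (u : Rˣ) : c.N (u : R) = 1 :=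
  le_antisymm (by
    rw [← c.N_one]
    exact c.N_le_of_dvd one_ne_zero (Units.coe_dvd)) (c.one_le_N u.ne_zero)
theorem C0_pos : 0 < c.C0 := lt_of_lt_of_le one_pos c.C0_ge
theorem one_le_rad {s : Finset R} (hs : ∀ q ∈ s, q ≠ 0) : 1 ≤ c.rad s :=
  Finset.one_le_prod (fun q hq => c.one_le_N (hs q hq))
theorem log_rad {s : Finset R} (hs : ∀ q ∈ s, q ≠ 0) :
    Real.log (c.rad s) = ∑ q ∈ s, Real.log (c.N q) :=
  Real.log_prod (fun q hq => (c.N_pos (hs q hq)).ne')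
theorem log_N_pw {s : Finset R} (hs : ∀ q ∈ s, q ≠ 0) (e : R → ℕ) :
    Real.log (c.N (pw s e)) = ∑ q ∈ s, (e q : ℝ) * Real.log (c.N q) := by
  unfold pw
  rw [c.N_prod, Real.log_prod (fun q hq => by
    rw [c.N_pow]; exact (pow_pos (c.N_pos (hs q hq)) _).ne')]
  exact Finset.sum_congr rfl fun q _ => by rw [c.N_pow, Real.log_pow]

end Ctx

theorem pw_ne_zero {R : Type} [CommRing R] [IsDomain R] {s : Finset R} (hs : ∀ q ∈ s, q ≠ 0)
    (e : R → ℕ) : pw s e ≠ 0 :=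
  Finset.prod_ne_zero_iff.2 fun q hq => pow_ne_zero _ (hs q hq)

/-- The standing hypotheses on `u`, `w`: `X` bounds the radical and `H` is the logarithmic size. -/
structure Good {R : Type} [CommRing R] (c : Ctx R) (T : Tri R) (X H : ℝ) : Prop where
  nu : ∀ q ∈ T.su, q ≠ 0
  nw : ∀ q ∈ T.sw, q ≠ 0
  cop : ∀ q ∈ T.su, ∀ q' ∈ T.sw, IsCoprime q q'
  rad : c.rad T.su * c.rad T.sw ≤ X
  hu : Real.log (c.N T.u) ≤ H
  hw : Real.log (c.N T.w) ≤ H
  big : H - 1 ≤ max (Real.log (c.N T.u)) (Real.log (c.N T.w))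
  ne : T.u ≠ T.w

theorem ev_log (C ε : ℝ) (hε : 0 < ε) :
    ∀ᶠ X : ℝ in Filter.atTop, C * Real.log X ≤ X ^ ε := by
  have h := (isLittleO_log_rpow_atTop hε).bound (show 0 < 1 / (|C| + 1) by positivity)
  filter_upwards [h, Filter.eventually_ge_atTop (1 : ℝ)] with X hX h1
  have h2 : 0 ≤ Real.log X := Real.log_nonneg h1
  have h3 : 0 ≤ X ^ ε := by positivity
  rw [Real.norm_of_nonneg h2, Real.norm_of_nonneg h3, div_mul_eq_mul_div, one_mul,
    le_div_iff₀ (by positivity)] at hX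
  nlinarith [le_abs_self C]

theorem ev_const (C : ℝ) : ∀ᶠ X : ℝ in Filter.atTop, C ≤ Real.log X :=
  Real.tendsto_log_atTop.eventually_ge_atTop C

end Pool.Agent.P.MP_6e34ef_nt.SY
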