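import Pool.Agent.P.MP_6e34ef_nt.SY.Main

set_option autoImplicit false

namespace Pool.Agent.P.MP_6e34ef_nt.SY

open Finset

theorem mainZ (ε : ℝ) (hε : 0 < ε) : ∃ C : ℝ, 0 < C ∧ ∀ a b c : ℕ, 0 < a → 0 < b → a + b = c →
    Nat.Coprime a b →
    Real.log c ≤ C * ((∏ p ∈ (a * b * c).primeFactors, p : ℕ) : ℝ) ^ ((1 : ℝ) / 6 + ε) := by
  obtain ⟨cx, hd, hφ⟩ := exists_ctxZ
  obtain ⟨C, hC, h⟩ := main cx ε hε
  refine ⟨C, hC, fun a b c ha hb habc hcop => ?_⟩
  have hN : ∀ n : ℕ, cx.N (n : ℤ) = n := by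
    intro n
    simp [Ctx.N, hφ]
  have hc : 0 < c := by omega
  have hne : a * b * c ≠ 0 := by positivity
  have hbc : Nat.Coprime b c := by
    rw [← habc]
    exact (Nat.coprime_add_self_right).2 hcop.symm
  have hac : Nat.Coprime a c := by
    rw [← habc]
    exact (Nat.coprime_self_add_right).2 hcop
  have key := h (a : ℤ) (b : ℤ) (c : ℤ) (by exact_mod_cast habc) (by exact_mod_cast hne)
    (Nat.isCoprime_iff_coprime.2 hcop) (Nat.isCoprime_iff_coprime.2 hbc)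
    (Nat.isCoprime_iff_coprime.2 hac) ((a * b * c).primeFactors.image fun p : ℕ => (p : ℤ))
    (by
      intro Q hQ
      obtain ⟨p, hp, rfl⟩ := Finset.mem_image.1 hQ
      exact Nat.prime_iff_prime_int.1 (Nat.prime_of_mem_primeFactors hp))
    (by
      intro Q hQ hdvd
      refine ⟨(Q.natAbs : ℤ), Finset.mem_image.2 ⟨Q.natAbs, ?_, rfl⟩, Int.associated_natAbs Q⟩
      refine Nat.mem_primeFactors.2 ⟨Int.prime_iff_natAbs_prime.1 hQ, ?_, hne⟩
      have h1 : Q ∣ ((a * b * c : ℕ) : ℤ) := by exact_mod_cast hdvd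
      exact Int.natAbs_dvd_natAbs.2 h1)
  have hrad : cx.rad ((a * b * c).primeFactors.image fun p : ℕ => (p : ℤ)) =
      ((∏ p ∈ (a * b * c).primeFactors, p : ℕ) : ℝ) := by
    unfold Ctx.rad
    rw [Finset.prod_image (fun x _ y _ hxy => by exact_mod_cast hxy)]
    push_cast
    exact Finset.prod_congr rfl fun p _ => hN p
  rw [hrad, hd, hN, hN, hN, Nat.cast_one] at key
  refine le_trans (Real.log_le_log (by exact_mod_cast hc) ?_) key
  exact le_max_of_le_right (le_max_right _ _)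

theorem mainG (ε : ℝ) (hε : 0 < ε) : ∃ C : ℝ, 0 < C ∧
    ∀ a b c : GaussianInt, a + b = c → a * b * c ≠ 0 →
      IsCoprime a b → IsCoprime b c → IsCoprime a c →
      ∀ S : Finset GaussianInt,
        (∀ Q ∈ S, Prime Q ∧ Q ∣ a * b * c) →
        (∀ Q : GaussianInt, Prime Q → Q ∣ a * b * c → ∃ R ∈ S, Associated Q R) →
        (∀ Q ∈ S, ∀ R ∈ S, Associated Q R → Q = R) →
        Real.log (max ‖GaussianInt.toComplex a‖
            (max ‖GaussianInt.toComplex b‖ ‖GaussianInt.toComplex c‖)) ≤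
          C * (∏ Q ∈ S, ‖GaussianInt.toComplex Q‖) ^ ((1 : ℝ) / 3 + ε) := by
  obtain ⟨cx, hd, hφ⟩ := exists_ctxG
  obtain ⟨C, hC, h⟩ := main cx ε hε
  refine ⟨C, hC, fun a b c habc hne hab hbc hac S hS hS' _ => ?_⟩
  have key := h a b c habc hne hab hbc hac S (fun Q hQ => (hS Q hQ).1) hS'
  have he : ((cx.d : ℝ) / 6 + ε) = (1 : ℝ) / 3 + ε := by
    rw [hd]; norm_num
  rw [he] at key
  simpa only [Ctx.N, Ctx.rad, hφ] using key

end Pool.Agent.P.MP_6e34ef_nt.SY
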