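import Pool.Agent.P.MP_6e34ef_nt.SY.Side

set_option autoImplicit false

namespace Pool.Agent.P.MP_6e34ef_nt.SY

open Finset

variable {R : Type} [CommRing R] [IsDomain R]

theorem main_fac0 [IsPrincipalIdealRing R] (T : Finset R) (x : R) : x ≠ 0 →
    (∀ Q : R, Prime Q → Q ∣ x → ∃ P ∈ T, Associated Q P) →
    ∃ (v : R → ℕ) (u : Rˣ), x = (u : R) * pw T v := by
  classical
  induction x using UniqueFactorizationMonoid.induction_on_prime with
  | h₁ => exact fun h => absurd rfl h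
  | h₂ x hx =>
    intro _ _
    obtain ⟨u, rfl⟩ := hx
    exact ⟨fun _ => 0, u, by simp [pw]⟩
  | h₃ a p ha hp ih =>
    intro _ hT
    obtain ⟨v, u, hu⟩ := ih ha fun Q hQ h => hT Q hQ (h.mul_left p)
    obtain ⟨P, hP, w, hw⟩ := hT p hp (dvd_mul_right p a)
    refine ⟨fun q => v q + if q = P then 1 else 0, u * w⁻¹, ?_⟩
    have h1 : pw T (fun q => v q + if q = P then 1 else 0) = pw T v * P := by
      unfold pw
      simp only [pow_add, prod_mul_distrib]
      congr 1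
      rw [prod_eq_single P (fun q _ hq => by simp [hq]) (fun h => absurd hP h)]
      simp
    have h2 : ((w⁻¹ : Rˣ) : R) * (w : R) = 1 := w.inv_mul
    rw [h1, hu, ← hw, Units.val_mul]
    linear_combination (-(p * (u : R) * pw T v)) * h2

theorem exists_fac [IsPrincipalIdealRing R] (T : Finset R) (x : R) (hx : x ≠ 0)
    (hT : ∀ Q : R, Prime Q → Q ∣ x → ∃ P ∈ T, Associated Q P) :
    ∃ (s : Finset R) (v : R → ℕ) (u : Rˣ), s ⊆ T ∧ (∀ q ∈ s, q ∣ x) ∧ x = (u : R) * pw s v := by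
  classical
  obtain ⟨v, u, hu⟩ := main_fac0 T x hx hT
  refine ⟨T.filter fun q => v q ≠ 0, v, u, filter_subset _ _, fun q hq => ?_, ?_⟩
  · obtain ⟨h1, h2⟩ := mem_filter.1 hq
    rw [hu]
    exact ((dvd_pow_self q h2).trans (dvd_prod_of_mem (fun q => q ^ v q) h1)).mul_left _
  · rw [hu]
    congr 1
    unfold pw
    refine (prod_filter_of_ne (p := fun q => v q ≠ 0) fun q _ h h' => h ?_).symm
    rw [h', pow_zero]

/-- `s` is a set of primes dividing `x`, and `x` is a unit times a product of their powers. -/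
def main_Fac (x : R) (s : Finset R) : Prop :=
  (∀ q ∈ s, Prime q ∧ q ∣ x) ∧ ∃ (v : R → ℕ) (u : Rˣ), x = (u : R) * pw s v

omit [IsDomain R] in
theorem main_Fac.neg {x : R} {s : Finset R} (h : main_Fac x s) : main_Fac (-x) s := by
  obtain ⟨h1, v, u, hu⟩ := h
  refine ⟨fun q hq => ⟨(h1 q hq).1, (h1 q hq).2.neg_right⟩, v, -u, ?_⟩
  rw [Units.val_neg, neg_mul, ← hu]

omit [IsDomain R] in
theorem main_Fac.disj {x y : R} {s t : Finset R} (hs : main_Fac x s) (ht : main_Fac y t)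
    (h : IsCoprime x y) : Disjoint s t :=
  disjoint_left.2 fun q h1 h2 =>
    (hs.1 q h1).1.not_isUnit (h.isUnit_of_dvd' (hs.1 q h1).2 (ht.1 q h2).2)

omit [IsDomain R] in
theorem main_side (c : Ctx R) {e X0 : ℝ}
    (hs : ∀ (T : Tri R) (X H : ℝ) (s : Finset R) (v : R → ℕ) (εx : Rˣ), X0 ≤ X →
      Good c T X H → T.u - T.w = (εx : R) * pw s v → (∀ p ∈ s, Prime p) →
      Real.log (c.N (T.u - T.w)) ≤ H →
      (∀ p ∈ s, ∀ q ∈ T.su, IsCoprime q p) → (∀ p ∈ s, ∀ q ∈ T.sw, IsCoprime q p) →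
      c.rad s ≤ X ^ ((1 : ℝ) / 3) → H ≤ X ^ e)
    {u w x : R} {su sw sx : Finset R} {X M : ℝ} (hx : u - w = x) (hu0 : u ≠ 0) (hw0 : w ≠ 0)
    (hx0 : x ≠ 0) (huw : IsCoprime u w) (hux : IsCoprime u x) (hwx : IsCoprime w x)
    (fu : main_Fac u su) (fw : main_Fac w sw) (fx : main_Fac x sx) (hX : X0 ≤ X)
    (hrad : c.rad su * c.rad sw ≤ X) (hsx : c.rad sx ≤ X ^ ((1 : ℝ) / 3))
    (h1 : c.N u ≤ M) (h2 : c.N w ≤ M) (h3 : c.N x ≤ M)
    (h4 : M = c.N u ∨ M = c.N w ∨ M = c.N x) : Real.log M ≤ X ^ e := by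
  obtain ⟨pu, α, εu, eu⟩ := fu
  obtain ⟨pw', β, εw, ew⟩ := fw
  obtain ⟨px, v, εx, ex⟩ := fx
  have Tu : (Tri.mk su sw α β εu εw).u = u := eu.symm
  have Tw : (Tri.mk su sw α β εu εw).w = w := ew.symm
  have Nu := c.N_pos hu0
  have Nw := c.N_pos hw0
  have Nx := c.N_pos hx0
  refine hs (Tri.mk su sw α β εu εw) X (Real.log M) sx v εx hX
    ⟨fun q hq => (pu q hq).1.ne_zero, fun q hq => (pw' q hq).1.ne_zero,
      fun q hq q' hq' => huw.mono (pu q hq).2 (pw' q' hq').2, hrad, ?_, ?_, ?_, ?_⟩ ?_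
    (fun p hp => (px p hp).1) ?_ (fun p hp q hq => hux.mono (pu q hq).2 (px p hp).2)
    (fun p hp q hq => hwx.mono (pw' q hq).2 (px p hp).2) hsx
  · rw [Tu]
    exact Real.log_le_log Nu h1
  · rw [Tw]
    exact Real.log_le_log Nw h2
  · rw [Tu, Tw]
    have h5 : c.N x ≤ c.N u + c.N w := by
      rw [← hx]
      exact c.N_sub_le u w
    have hM : 0 < M := Nu.trans_le h1
    have hl : Real.log 2 ≤ 1 := by
      have := Real.log_two_lt_d9
      linarith
    rcases le_total (c.N u) (c.N w) with h6 | h6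
    · have h7 : M ≤ 2 * c.N w := by rcases h4 with h | h | h <;> linarith
      have h8 := Real.log_le_log hM h7
      rw [Real.log_mul two_ne_zero Nw.ne'] at h8
      exact le_max_of_le_right (by linarith)
    · have h7 : M ≤ 2 * c.N u := by rcases h4 with h | h | h <;> linarith
      have h8 := Real.log_le_log hM h7
      rw [Real.log_mul two_ne_zero Nu.ne'] at h8
      exact le_max_of_le_left (by linarith)
  · rw [Tu, Tw]
    exact fun h => hx0 (by rw [← hx, h, sub_self])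
  · rw [Tu, Tw, hx]
    exact ex
  · rw [Tu, Tw, hx]
    exact Real.log_le_log Nx h3

theorem main [IsPrincipalIdealRing R] (c : Ctx R) (ε : ℝ) (hε : 0 < ε) :
    ∃ C : ℝ, 0 < C ∧ ∀ x y z : R, x + y = z → x * y * z ≠ 0 → IsCoprime x y → IsCoprime y z →
      IsCoprime x z → ∀ T : Finset R, (∀ Q ∈ T, Prime Q) →
      (∀ Q : R, Prime Q → Q ∣ x * y * z → ∃ P ∈ T, Associated Q P) →
      Real.log (max (c.N x) (max (c.N y) (c.N z))) ≤ C * c.rad T ^ ((c.d : ℝ) / 6 + ε) := by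
  classical
  obtain ⟨X0, hs⟩ := side c ε hε
  have he : 0 ≤ (c.d : ℝ) / 6 + ε := by positivity
  have hX1 : (1 : ℝ) ≤ max X0 1 := le_max_right _ _
  refine ⟨max X0 1 ^ ((c.d : ℝ) / 6 + ε), by positivity, ?_⟩
  intro x y z hxyz h0 hxy hyz hxz T hT hT2
  have hz0 : z ≠ 0 := right_ne_zero_of_mul h0
  have hx0 : x ≠ 0 := left_ne_zero_of_mul (left_ne_zero_of_mul h0)
  have hy0 : y ≠ 0 := right_ne_zero_of_mul (left_ne_zero_of_mul h0)
  have key : ∀ a : R, a ≠ 0 → a ∣ x * y * z → ∃ s ⊆ T, main_Fac a s := by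
    intro a ha hd
    obtain ⟨s, v, u, h1, h2, h3⟩ := exists_fac T a ha fun Q hQ h => hT2 Q hQ (h.trans hd)
    exact ⟨s, h1, fun q hq => ⟨hT q (h1 hq), h2 q hq⟩, v, u, h3⟩
  obtain ⟨sx, hsx, fx⟩ := key x hx0 ((dvd_mul_right x y).mul_right z)
  obtain ⟨sy, hsy, fy⟩ := key y hy0 ((dvd_mul_left y x).mul_right z)
  obtain ⟨sz, hsz, fz⟩ := key z hz0 (dvd_mul_left z _)
  have hT0 : ∀ q ∈ T, q ≠ 0 := fun q hq => (hT q hq).ne_zero
  have hR : 1 ≤ c.rad T := c.one_le_rad hT0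
  have ha : 1 ≤ c.rad sx := c.one_le_rad fun q hq => hT0 q (hsx hq)
  have hb : 1 ≤ c.rad sy := c.one_le_rad fun q hq => hT0 q (hsy hq)
  have hc : 1 ≤ c.rad sz := c.one_le_rad fun q hq => hT0 q (hsz hq)
  have hprod : c.rad sx * c.rad sy * c.rad sz ≤ c.rad T := by
    unfold Ctx.rad
    rw [← prod_union (fx.disj fy hxy),
      ← prod_union (disjoint_union_left.2 ⟨fx.disj fz hxz, fy.disj fz hyz⟩)]
    exact prod_le_prod_of_subset_of_one_le (union_subset (union_subset hsx hsy) hsz)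
      (fun q _ => c.N_nonneg q) fun q hq _ => c.one_le_N (hT0 q hq)
  set X := max X0 1 * c.rad T with hX
  have hX0 : X0 ≤ X := (le_max_left X0 1).trans (le_mul_of_one_le_right (by positivity) hR)
  have hTX : c.rad T ≤ X := le_mul_of_one_le_left (by positivity) hX1
  have hXp : 0 ≤ X := by positivity
  rw [← Real.mul_rpow (by positivity) (by positivity), ← hX]
  have hab : c.rad sx * c.rad sy ≤ X :=
    (le_mul_of_one_le_right (by positivity) hc).trans (hprod.trans hTX)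
  have hzy : c.rad sz * c.rad sy ≤ X := by
    refine le_trans ?_ (hprod.trans hTX)
    have : 1 * (c.rad sz * c.rad sy) ≤ c.rad sx * (c.rad sz * c.rad sy) :=
      mul_le_mul_of_nonneg_right ha (by positivity)
    linarith
  have hzx : c.rad sz * c.rad sx ≤ X := by
    refine le_trans ?_ (hprod.trans hTX)
    have : 1 * (c.rad sz * c.rad sx) ≤ c.rad sy * (c.rad sz * c.rad sx) :=
      mul_le_mul_of_nonneg_right hb (by positivity)
    linarith
  set M := max (c.N x) (max (c.N y) (c.N z)) with hM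
  have m1 : c.N x ≤ M := le_max_left _ _
  have m2 : c.N y ≤ M := (le_max_left _ _).trans (le_max_right _ _)
  have m3 : c.N z ≤ M := (le_max_right _ _).trans (le_max_right _ _)
  have m4 : M = c.N x ∨ M = c.N y ∨ M = c.N z := by
    rcases max_choice (c.N x) (max (c.N y) (c.N z)) with h | h
    · exact Or.inl h
    · rcases max_choice (c.N y) (c.N z) with h' | h'
      · exact Or.inr (Or.inl (h.trans h'))
      · exact Or.inr (Or.inr (h.trans h'))
  by_cases c1 : c.rad sx ≤ X ^ ((1 : ℝ) / 3)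
  · exact main_side c hs (by rw [← hxyz]; ring) hz0 hy0 hx0 hyz.symm hxz.symm hxy.symm fz fy fx hX0
      hzy c1 m3 m2 m1 (by tauto)
  by_cases c2 : c.rad sy ≤ X ^ ((1 : ℝ) / 3)
  · exact main_side c hs (by rw [← hxyz]; ring) hz0 hx0 hy0 hxz.symm hyz.symm hxy fz fx fy hX0
      hzx c2 m3 m1 m2 (by tauto)
  by_cases c3 : c.rad sz ≤ X ^ ((1 : ℝ) / 3)
  · exact main_side c hs (by rw [← hxyz]; ring) hx0 (neg_ne_zero.2 hy0) hz0 hxy.neg_right hxz
      hyz.neg_left fx fy.neg fz hX0 hab c3 m1 (by rwa [c.N_neg]) m3 (by rwa [c.N_neg])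
  exfalso
  push Not at c1 c2 c3
  have h3 : 0 ≤ X ^ ((1 : ℝ) / 3) := by positivity
  have h4 : X ^ ((1 : ℝ) / 3) * X ^ ((1 : ℝ) / 3) * X ^ ((1 : ℝ) / 3) = X := by
    rw [← Real.rpow_add' hXp (by norm_num), ← Real.rpow_add' hXp (by norm_num)]
    norm_num
  have h5 := mul_lt_mul'' (mul_lt_mul'' c1 c2 h3 h3) c3 (mul_nonneg h3 h3) h3
  linarith

end Pool.Agent.P.MP_6e34ef_nt.SY
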