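import Pool.Agent.P.MP_6e34ef_nt.SY.Pigeon

set_option autoImplicit false

namespace Pool.Agent.P.MP_6e34ef_nt.SY

open Finset

theorem pigeona_floor_sub {t1 t2 a : ℝ} (h2 : 0 ≤ t2) (h12 : t2 ≤ t1) (ha : 0 ≤ a) :
    ((⌊t1 * a⌋₊ - ⌊t2 * a⌋₊ : ℕ) : ℝ) - (t1 - t2) * a =
      -(Int.fract (t1 * a) - Int.fract (t2 * a)) := by
  have e2 : 0 ≤ t2 * a := mul_nonneg h2 ha
  have e12 : t2 * a ≤ t1 * a := mul_le_mul_of_nonneg_right h12 ha
  have e1 : 0 ≤ t1 * a := e2.trans e12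
  rw [Nat.cast_sub (Nat.floor_le_floor e12), natCast_floor_eq_intCast_floor e1,
    natCast_floor_eq_intCast_floor e2]
  unfold Int.fract
  ring

theorem pigeona_card_Icc {A : ℝ} (hA : 0 ≤ A) :
    ((Finset.Icc ⌊-A⌋ ⌊A⌋).card : ℝ) ≤ 2 * A + 2 := by
  rw [Int.card_Icc]
  have h1 : ⌊-A⌋ ≤ ⌊A⌋ := Int.floor_le_floor (by linarith)
  have h2 : ((⌊A⌋ + 1 - ⌊-A⌋).toNat : ℤ) = ⌊A⌋ + 1 - ⌊-A⌋ := Int.toNat_of_nonneg (by omega)
  have h3 : (((⌊A⌋ + 1 - ⌊-A⌋).toNat : ℕ) : ℝ) = (⌊A⌋ : ℝ) + 1 - (⌊-A⌋ : ℝ) := by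
    exact_mod_cast h2
  rw [h3]
  have h4 := Int.floor_le A
  have h5 := Int.lt_floor_add_one (-A)
  linarith

theorem pigeona_mem_Icc {A x : ℝ} (hx : |x| ≤ A) : ⌊x⌋ ∈ Finset.Icc ⌊-A⌋ ⌊A⌋ := by
  rw [Finset.mem_Icc]
  exact ⟨Int.floor_le_floor (abs_le.1 hx).1, Int.floor_le_floor (abs_le.1 hx).2⟩

theorem pigeona_close {δ x y : ℝ} (hδ : 0 < δ) (h : ⌊4 / δ * x⌋ = ⌊4 / δ * y⌋) :
    |x - y| ≤ δ / 4 := by
  have h1 := Int.abs_sub_lt_one_of_floor_eq_floor h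
  rw [← mul_sub, abs_mul, abs_of_pos (by positivity : 0 < 4 / δ), div_mul_eq_mul_div,
    div_lt_one hδ] at h1
  linarith

theorem pigeona_ratio {δ : ℝ} (hδ0 : 0 < δ) (hδ1 : δ ≤ 1) {x y : ℂ} (hx : x ≠ 0) (hy : y ≠ 0)
    (hre : ⌊4 / δ * (Complex.log x).re⌋ = ⌊4 / δ * (Complex.log y).re⌋)
    (him : ⌊4 / δ * (Complex.log x).im⌋ = ⌊4 / δ * (Complex.log y).im⌋) :
    ‖x / y - 1‖ ≤ δ := by
  have h1 := pigeona_close hδ0 hre
  have h2 := pigeona_close hδ0 him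
  have h3 : ‖Complex.log x - Complex.log y‖ ≤ δ / 2 := by
    have := Complex.norm_le_abs_re_add_abs_im (Complex.log x - Complex.log y)
    rw [Complex.sub_re, Complex.sub_im] at this
    linarith
  have h4 : x / y = Complex.exp (Complex.log x - Complex.log y) := by
    rw [Complex.exp_sub, Complex.exp_log hx, Complex.exp_log hy]
  rw [h4]
  have h5 := Complex.norm_exp_sub_one_le (x := Complex.log x - Complex.log y) (by linarith)
  linarith

variable {R : Type} [CommRing R] [IsDomain R]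

omit [IsDomain R] in
theorem pigeona_log_floor (c : Ctx R) (s : Finset R) (hs : ∀ q ∈ s, q ≠ 0) (α : R → ℕ) {t : ℝ}
    (ht : 0 ≤ t) :
    t * Real.log (c.N (pw s α)) - Real.log (c.rad s) ≤
        Real.log (c.N (pw s fun q => ⌊t * (α q : ℝ)⌋₊)) ∧
      Real.log (c.N (pw s fun q => ⌊t * (α q : ℝ)⌋₊)) ≤ t * Real.log (c.N (pw s α)) := by
  rw [c.log_N_pw hs, c.log_N_pw hs, c.log_rad hs, Finset.mul_sum, ← Finset.sum_sub_distrib]
  constructor
  · refine Finset.sum_le_sum fun q hq => ?_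
    have h1 := c.log_N_nonneg (hs q hq)
    have h2 := Nat.lt_floor_add_one (t * (α q : ℝ))
    nlinarith
  · refine Finset.sum_le_sum fun q hq => ?_
    have h1 := c.log_N_nonneg (hs q hq)
    have h2 : (⌊t * (α q : ℝ)⌋₊ : ℝ) ≤ t * (α q : ℝ) := Nat.floor_le (by positivity)
    nlinarith

omit [IsDomain R] in
theorem pigeona_pw_sub (s : Finset R) (a b : R → ℕ) (h : ∀ q, b q ≤ a q) :
    pw s a = pw s (fun q => a q - b q) * pw s b := by
  unfold pw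
  rw [← Finset.prod_mul_distrib]
  exact Finset.prod_congr rfl fun q _ => by rw [← pow_add, Nat.sub_add_cancel (h q)]

theorem approxA (c : Ctx R) (su sw : Finset R) (α β : R → ℕ) (hu : ∀ q ∈ su, q ≠ 0)
    (hw : ∀ q ∈ sw, q ≠ 0) (X : ℝ) (hX : c.rad su * c.rad sw ≤ X)
    (hlog : |Real.log (c.N (pw su α)) - Real.log (c.N (pw sw β))| ≤ 2)
    (δ : ℝ) (hδ0 : 0 < δ) (hδ1 : δ ≤ 1)
    (K J : ℕ) (hK : 1 ≤ K) (γ : ℝ) (hγ : 0 < γ) (hJ : J * γ ≤ 1)
    (hcard : (K : ℝ) ^ (su.card + sw.card) * (600 * (1 + Real.log X) / δ ^ 2) < J + 1) :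
    ∃ (τ : ℝ) (e f : R → ℕ), γ ≤ τ ∧ τ ≤ J * γ ∧
      (∀ q ∈ su, |(e q : ℝ) - τ * α q| ≤ 1 / (K : ℝ)) ∧
      (∀ q ∈ sw, |(f q : ℝ) - τ * β q| ≤ 1 / (K : ℝ)) ∧
      ‖c.φ (pw su e) / c.φ (pw sw f) - 1‖ ≤ δ := by
  classical
  have hru := c.one_le_rad hu
  have hrw := c.one_le_rad hw
  have hlu : 0 ≤ Real.log (c.rad su) := Real.log_nonneg hru
  have hlw : 0 ≤ Real.log (c.rad sw) := Real.log_nonneg hrw
  have hlX : Real.log (c.rad su) + Real.log (c.rad sw) ≤ Real.log X := by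
    rw [← Real.log_mul (by linarith) (by linarith)]
    exact Real.log_le_log (by positivity) hX
  set L := Real.log X with hL
  have hL0 : 0 ≤ L := by linarith
  let ea : ℕ → R → ℕ := fun j q => ⌊(j : ℝ) * γ * (α q : ℝ)⌋₊
  let fb : ℕ → R → ℕ := fun j q => ⌊(j : ℝ) * γ * (β q : ℝ)⌋₊
  let ξ : ℕ → ℂ := fun j => c.φ (pw su (ea j)) / c.φ (pw sw (fb j))
  have hnu : ∀ e : R → ℕ, c.φ (pw su e) ≠ 0 := fun e => c.φ_ne_zero (pw_ne_zero hu e)
  have hnw : ∀ e : R → ℕ, c.φ (pw sw e) ≠ 0 := fun e => c.φ_ne_zero (pw_ne_zero hw e)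
  have hξ : ∀ j, ξ j ≠ 0 := fun j => div_ne_zero (hnu _) (hnw _)
  let col : ℕ → ℤ × ℤ := fun j =>
    (⌊4 / δ * (Complex.log (ξ j)).re⌋, ⌊4 / δ * (Complex.log (ξ j)).im⌋)
  let A1 : ℝ := 4 / δ * (2 + L)
  let A2 : ℝ := 4 / δ * Real.pi
  have hδ4 : 0 < 4 / δ := by positivity
  let Cs : Finset (ℤ × ℤ) := Finset.Icc ⌊-A1⌋ ⌊A1⌋ ×ˢ Finset.Icc ⌊-A2⌋ ⌊A2⌋
  have hc : ∀ j ∈ Finset.range (J + 1), col j ∈ Cs := by
    intro j hj
    have hjJ : (j : ℝ) ≤ J := by exact_mod_cast Nat.lt_succ_iff.1 (Finset.mem_range.1 hj)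
    have ht0 : 0 ≤ (j : ℝ) * γ := by positivity
    have ht1 : (j : ℝ) * γ ≤ 1 := (mul_le_mul_of_nonneg_right hjJ hγ.le).trans hJ
    refine Finset.mem_product.2 ⟨pigeona_mem_Icc ?_, pigeona_mem_Icc ?_⟩
    · rw [abs_mul, abs_of_pos hδ4]
      refine mul_le_mul_of_nonneg_left ?_ hδ4.le
      have hre : (Complex.log (ξ j)).re =
          Real.log (c.N (pw su (ea j))) - Real.log (c.N (pw sw (fb j))) := by
        rw [Complex.log_re]
        simp only [ξ, norm_div]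
        exact Real.log_div (norm_ne_zero_iff.2 (hnu _)) (norm_ne_zero_iff.2 (hnw _))
      obtain ⟨a1, a2⟩ := pigeona_log_floor c su hu α ht0
      obtain ⟨b1, b2⟩ := pigeona_log_floor c sw hw β ht0
      obtain ⟨l1, l2⟩ := abs_le.1 hlog
      rw [hre, abs_le]
      simp only [ea, fb]
      constructor <;> nlinarith
    · rw [abs_mul, abs_of_pos hδ4]
      refine mul_le_mul_of_nonneg_left ?_ hδ4.le
      rw [Complex.log_im]
      exact Complex.abs_arg_le_pi _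
  have hCs : (Cs.card : ℝ) ≤ 600 * (1 + L) / δ ^ 2 := by
    have h1 := pigeona_card_Icc (A := A1) (by positivity)
    have h2 := pigeona_card_Icc (A := A2) (by positivity)
    have hi : 1 ≤ 1 / δ := by rw [le_div_iff₀ hδ0]; linarith
    have h3 : 2 * A1 + 2 ≤ 18 * (1 + L) * (1 / δ) := by
      have : A1 = 4 * (2 + L) * (1 / δ) := by simp only [A1]; ring
      rw [this]
      nlinarith
    have h4 : 2 * A2 + 2 ≤ 30 * (1 / δ) := by
      have : A2 = 4 * Real.pi * (1 / δ) := by simp only [A2]; ring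
      rw [this]
      have := Real.pi_lt_d2
      nlinarith
    have h5 : (Cs.card : ℝ) ≤ (18 * (1 + L) * (1 / δ)) * (30 * (1 / δ)) := by
      simp only [Cs, Finset.card_product, Nat.cast_mul]
      exact mul_le_mul (h1.trans h3) (h2.trans h4) (Nat.cast_nonneg _) (by positivity)
    refine h5.trans ?_
    have h6 : (18 * (1 + L) * (1 / δ)) * (30 * (1 / δ)) = 540 * (1 + L) / δ ^ 2 := by
      field_simp; ring
    rw [h6]
    gcongr
    norm_num
  have hcard' : K ^ Fintype.card (↥su ⊕ ↥sw) * Cs.card < (Finset.range (J + 1)).card := by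
    rw [Fintype.card_sum, Fintype.card_coe, Fintype.card_coe, Finset.card_range]
    have : (K : ℝ) ^ (su.card + sw.card) * (Cs.card : ℝ) < J + 1 :=
      lt_of_le_of_lt (mul_le_mul_of_nonneg_left hCs (by positivity)) hcard
    exact_mod_cast this
  obtain ⟨x, hx, y, hy, hxy, hcol, hfr⟩ :=
    pigeon (ι := ↥su ⊕ ↥sw) (Sum.elim (fun q => (α q : ℝ)) (fun q => (β q : ℝ))) K hK
      (Finset.range (J + 1)) (fun j : ℕ => (j : ℝ) * γ) col Cs hc hcard'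
  wlog hlt : y < x generalizing x y
  · refine this y hy x hx hxy.symm hcol.symm (fun i => ?_) (by omega)
    rw [abs_sub_comm]; exact hfr i
  have hxJ : (x : ℝ) ≤ J := by exact_mod_cast Nat.lt_succ_iff.1 (Finset.mem_range.1 hx)
  have hyx : (y : ℝ) + 1 ≤ x := by exact_mod_cast hlt
  have hy0 : (0 : ℝ) ≤ y := Nat.cast_nonneg _
  have ht0 : 0 ≤ (y : ℝ) * γ := by positivity
  have ht1 : (y : ℝ) * γ ≤ (x : ℝ) * γ := mul_le_mul_of_nonneg_right (by linarith) hγ.le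
  refine ⟨(x : ℝ) * γ - (y : ℝ) * γ, fun q => ea x q - ea y q, fun q => fb x q - fb y q,
    by nlinarith, by nlinarith, fun q hq => ?_, fun q hq => ?_, ?_⟩
  · have h := hfr (Sum.inl ⟨q, hq⟩)
    simp only [ea]
    rw [pigeona_floor_sub ht0 ht1 (Nat.cast_nonneg _), abs_neg]
    exact h
  · have h := hfr (Sum.inr ⟨q, hq⟩)
    simp only [fb]
    rw [pigeona_floor_sub ht0 ht1 (Nat.cast_nonneg _), abs_neg]
    exact h
  · have h1 := pigeona_pw_sub su (ea x) (ea y) fun q =>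
      Nat.floor_le_floor (mul_le_mul_of_nonneg_right ht1 (Nat.cast_nonneg _))
    have h2 := pigeona_pw_sub sw (fb x) (fb y) fun q =>
      Nat.floor_le_floor (mul_le_mul_of_nonneg_right ht1 (Nat.cast_nonneg _))
    have h3 : c.φ (pw su fun q => ea x q - ea y q) / c.φ (pw sw fun q => fb x q - fb y q) =
        ξ x / ξ y := by
      simp only [ξ]
      rw [h1, h2, map_mul, map_mul]
      have a1 := hnu (ea y)
      have a2 := hnw (fb y)
      have a3 := hnw fun q => fb x q - fb y q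
      field_simp
    rw [h3]
    exact pigeona_ratio hδ0 hδ1 (hξ x) (hξ y) (congrArg Prod.fst hcol) (congrArg Prod.snd hcol)

end Pool.Agent.P.MP_6e34ef_nt.SY
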