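import Pool.Agent.P.MP_6e34ef_nt.SY.Core
import Pool.Agent.P.MP_6e34ef_nt.SY.PigeonA
import Pool.Agent.P.MP_6e34ef_nt.SY.Vals
import Pool.Agent.P.MP_6e34ef_nt.SY.Inst

set_option autoImplicit false

namespace Pool.Agent.P.MP_6e34ef_nt.SY

open Finset

theorem propA_near {a b d H t : ℝ} (hb : 0 < b) (ha : 0 < a) (hab : a ≤ b + d)
    (h1 : H - 1 ≤ Real.log a) (hd : d ≤ Real.exp t) (ht : t ≤ H - 2) : H - 2 ≤ Real.log b := by
  rw [Real.le_log_iff_exp_le hb]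
  have e1 : Real.exp (H - 1) ≤ a := (Real.le_log_iff_exp_le ha).1 h1
  have e2 : Real.exp t ≤ Real.exp (H - 2) := Real.exp_le_exp.2 ht
  have e3 : Real.exp (H - 1) = Real.exp (H - 2) * Real.exp 1 := by
    rw [← Real.exp_add]; congr 1; ring
  have e4 : (2 : ℝ) ≤ Real.exp 1 := by
    have := Real.add_one_le_exp (1 : ℝ); linarith
  have e5 := Real.exp_pos (H - 2)
  nlinarith

variable {R : Type} [CommRing R] [IsDomain R]

theorem propA_Nu (c : Ctx R) (T : Tri R) : c.N T.u = c.N (pw T.su T.α) := by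
  unfold Tri.u; rw [c.N_mul, c.N_unit, one_mul]

theorem propA_Nw (c : Ctx R) (T : Tri R) : c.N T.w = c.N (pw T.sw T.β) := by
  unfold Tri.w; rw [c.N_mul, c.N_unit, one_mul]

theorem propA_u_ne {c : Ctx R} {T : Tri R} {X H : ℝ} (hT : Good c T X H) : T.u ≠ 0 :=
  mul_ne_zero T.εu.ne_zero (pw_ne_zero hT.nu _)

theorem propA_w_ne {c : Ctx R} {T : Tri R} {X H : ℝ} (hT : Good c T X H) : T.w ≠ 0 :=
  mul_ne_zero T.εw.ne_zero (pw_ne_zero hT.nw _)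

theorem propA_both {c : Ctx R} {T : Tri R} {X H t : ℝ} (hT : Good c T X H)
    (hd : c.N (T.u - T.w) ≤ Real.exp t) (ht : t ≤ H - 2) :
    H - 2 ≤ Real.log (c.N T.u) ∧ H - 2 ≤ Real.log (c.N T.w) := by
  have hu := c.N_pos (propA_u_ne hT)
  have hw := c.N_pos (propA_w_ne hT)
  rcases le_max_iff.1 hT.big with h | h
  · refine ⟨by linarith, propA_near hw hu ?_ h hd ht⟩
    have := c.N_add_le T.w (T.u - T.w)
    rwa [add_sub_cancel] at this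
  · refine ⟨propA_near hu hw ?_ h hd ht, by linarith⟩
    have := c.N_sub_le T.u (T.u - T.w)
    rwa [sub_sub_cancel] at this

theorem propA_ratio {c : Ctx R} {T : Tri R} {X H t : ℝ} (hT : Good c T X H)
    (hd : c.N (T.u - T.w) ≤ Real.exp t) (ht : t ≤ H - 2) :
    ‖c.φ T.w / c.φ T.u - 1‖ ≤ Real.exp (t - (H - 2)) := by
  have hu0 := propA_u_ne hT
  have hu := c.N_pos hu0
  have h1 := (propA_both hT hd ht).1
  have h2 : Real.exp (H - 2) ≤ c.N T.u := (Real.le_log_iff_exp_le hu).1 h1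
  have h3 : c.φ T.w / c.φ T.u - 1 = -(c.φ (T.u - T.w)) / c.φ T.u := by
    have := c.φ_ne_zero hu0
    rw [map_sub]; field_simp; ring
  rw [h3, norm_div, norm_neg, Real.exp_sub]
  exact div_le_div₀ (Real.exp_pos _).le hd (Real.exp_pos _) h2

theorem propA_final {om U V H L η : ℝ} (hom : 3 ≤ om * η) (hη1 : η ≤ 1) (hom1 : 1 ≤ om)
    (hH : 0 ≤ H) (hUV : η * H - 2 - U ≤ U * V) (hU : 0 ≤ U)
    (hA : om * (U * V) ≤ U * V + H + 2 * L) (hbig : om * (2 + U) + 2 * L < H) : False := by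
  have h1 : (om - 1) * (η * H - 2 - U) ≤ (om - 1) * (U * V) :=
    mul_le_mul_of_nonneg_left hUV (by linarith)
  have h2 : 2 * H ≤ (om - 1) * η * H := mul_le_mul_of_nonneg_right (by nlinarith) hH
  nlinarith

theorem propA (c : Ctx R) (η ε : ℝ) (hη : 0 < η) (hη1 : η ≤ 1) (hε : 0 < ε) :
    ∃ X0 : ℝ, ∀ (T : Tri R) (X H : ℝ), X0 ≤ X → Good c T X H → X ^ ε ≤ H →
      (1 - η) * H ≤ Real.log (c.N (T.u - T.w)) := by
  obtain ⟨ω, hωdef⟩ : ∃ ω : ℕ, ω = ⌈3 / η⌉₊ := ⟨_, rfl⟩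
  have hω3 : 3 ≤ (ω : ℝ) * η := by
    have : 3 / η ≤ (ω : ℝ) := hωdef ▸ Nat.le_ceil _
    rwa [div_le_iff₀ hη] at this
  have hωR : (1 : ℝ) ≤ ω := by
    by_contra h
    push Not at h
    have h0 : (0 : ℝ) ≤ ω := Nat.cast_nonneg _
    nlinarith
  have hω1 : 1 ≤ ω := by exact_mod_cast hωR
  obtain ⟨ζ, hζdef⟩ : ∃ ζ : ℕ, ζ = ω ^ 2 + 1 := ⟨_, rfl⟩
  have hs : Shape ω 1 ζ := ⟨hω1, le_rfl, by rw [hζdef]; nlinarith, by rw [hζdef]; omega,
    by rw [hζdef]; nlinarith⟩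
  have hζR : (1 : ℝ) ≤ ζ := by exact_mod_cast hs.h2
  obtain ⟨e4, he4⟩ : ∃ e4 : ℝ, e4 = ε / 8 := ⟨_, rfl⟩
  have he4p : 0 < e4 := by rw [he4]; positivity
  obtain ⟨K, hKdef⟩ : ∃ K : ℕ, K = ⌈4 * (ζ : ℝ) / e4⌉₊ + 1 := ⟨_, rfl⟩
  have hK1 : 1 ≤ K := by omega
  have hKR : (1 : ℝ) ≤ K := by exact_mod_cast hK1
  have hK4 : 4 * (ζ : ℝ) ≤ K * e4 := by
    have h1 : 4 * (ζ : ℝ) / e4 ≤ (K : ℝ) := by
      rw [hKdef]; push_cast
      have := Nat.le_ceil (4 * (ζ : ℝ) / e4)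
      linarith
    rwa [div_le_iff₀ he4p] at h1
  obtain ⟨G, hG⟩ : ∃ G : ℝ, G = 16 * (ω : ℝ) ^ 2 * e4 / η + 8 := ⟨_, rfl⟩
  have hG8 : 8 ≤ G := by
    have : 0 ≤ 16 * (ω : ℝ) ^ 2 * e4 / η := by positivity
    linarith
  have hG16 : 16 * (ω : ℝ) ^ 2 * e4 ≤ G * η := by
    rw [hG, add_mul, div_mul_cancel₀ _ hη.ne']; linarith
  obtain ⟨C, hC1, hC⟩ := pow_card_le c (K : ℝ) (ε / 4) hKR (by positivity)
  have ev : ∀ᶠ X : ℝ in Filter.atTop, 1 ≤ X ∧ 1 ≤ Real.log X ∧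
      96 * ((ω : ℝ) + 1) ^ 3 * ζ / e4 ≤ Real.log X ∧
      (C ^ 2 * 1200 * (8 * ω * ζ * G)) * Real.log X ≤ X ^ (ε / 4) ∧
      1 * Real.log X ≤ X ^ (ε / 4) ∧
      (ω * (2 + e4) + 3) * Real.log X ≤ X ^ ε ∧
      (2 * (2 + e4) / η) * Real.log X ≤ X ^ ε := by
    filter_upwards [Filter.eventually_ge_atTop (1 : ℝ), ev_const 1,
      ev_const (96 * ((ω : ℝ) + 1) ^ 3 * ζ / e4),
      ev_log (C ^ 2 * 1200 * (8 * ω * ζ * G)) (ε / 4) (by positivity),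
      ev_log 1 (ε / 4) (by positivity), ev_log (ω * (2 + e4) + 3) ε hε,
      ev_log (2 * (2 + e4) / η) ε hε] with X h1 h2 h3 h4 h5 h6 h7
    exact ⟨h1, h2, h3, h4, h5, h6, h7⟩
  obtain ⟨X0, hX0⟩ := Filter.eventually_atTop.1 ev
  refine ⟨X0, fun T X H hX hT hH => ?_⟩
  obtain ⟨hX1, hL1, hLc, hLa, hLb, hLd, hLe⟩ := hX0 X hX
  by_contra hcon
  push Not at hcon
  obtain ⟨L, hL⟩ : ∃ L : ℝ, L = Real.log X := ⟨_, rfl⟩
  rw [← hL] at hL1 hLc hLa hLb hLd hLe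
  have hXp : 0 < X := by linarith
  have hLp : 0 < L := by linarith
  obtain ⟨U, hU⟩ : ∃ U : ℝ, U = e4 * L := ⟨_, rfl⟩
  have hUp : 0 < U := by rw [hU]; positivity
  have hHd : (ω * (2 + e4) + 3) * L ≤ H := hLd.trans hH
  have hbig : (ω : ℝ) * (2 + U) + 2 * L < H := by
    have h1 : (ω : ℝ) * 2 ≤ ω * 2 * L := le_mul_of_one_le_right (by positivity) hL1
    rw [hU]; nlinarith
  have hH2 : 2 ≤ H := by nlinarith
  have hHp : 0 < H := by linarith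
  have hηH : 2 * (2 + U) ≤ η * H := by
    have h1 : (2 * (2 + e4) / η) * L ≤ H := hLe.trans hH
    rw [div_mul_eq_mul_div, div_le_iff₀ hη] at h1
    rw [hU]; nlinarith
  have hd0 : T.u - T.w ≠ 0 := sub_ne_zero.2 hT.ne
  have hd : c.N (T.u - T.w) ≤ Real.exp ((1 - η) * H) :=
    ((Real.log_lt_iff_lt_exp (c.N_pos hd0)).1 hcon).le
  have ht : (1 - η) * H ≤ H - 2 := by nlinarith
  obtain ⟨hbu, hbw⟩ := propA_both hT hd ht
  have hratio := propA_ratio hT hd ht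
  obtain ⟨V, hVdef⟩ : ∃ V : ℕ, V = ⌊(η * H - 2) / U⌋₊ := ⟨_, rfl⟩
  have hV1 : U * V ≤ η * H - 2 := by
    have h1 : (V : ℝ) ≤ (η * H - 2) / U := hVdef ▸ Nat.floor_le (div_nonneg (by linarith) hUp.le)
    rw [le_div_iff₀ hUp] at h1; linarith
  have hV2 : η * H - 2 - U ≤ U * V := by
    have h1 : (η * H - 2) / U < V + 1 := hVdef ▸ Nat.lt_floor_add_one _
    rw [div_lt_iff₀ hUp] at h1; linarith
  have hV0 : (0 : ℝ) ≤ V := Nat.cast_nonneg _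
  obtain ⟨γ, hγ⟩ : ∃ γ : ℝ, γ = G * L / H := ⟨_, rfl⟩
  have hγp : 0 < γ := by rw [hγ]; exact div_pos (mul_pos (by linarith) hLp) hHp
  have hγH : γ * H = G * L := by rw [hγ]; field_simp
  obtain ⟨J, hJdef⟩ : ∃ J : ℕ, J = ⌊1 / (8 * (ω : ℝ) * ζ * γ)⌋₊ := ⟨_, rfl⟩
  have hq : 0 < 8 * (ω : ℝ) * ζ * γ := by positivity
  have hJ1 : (J : ℝ) * (8 * (ω : ℝ) * ζ * γ) ≤ 1 := by
    have h1 : (J : ℝ) ≤ 1 / (8 * (ω : ℝ) * ζ * γ) := hJdef ▸ Nat.floor_le (by positivity)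
    rwa [le_div_iff₀ hq] at h1
  have hJ2 : 1 / (8 * (ω : ℝ) * ζ * γ) < J + 1 := hJdef ▸ Nat.lt_floor_add_one _
  have hωζ : (1 : ℝ) ≤ 8 * (ω : ℝ) * ζ := by nlinarith
  have hJγ0 : 0 ≤ (J : ℝ) * γ := by positivity
  have hJ : (J : ℝ) * γ ≤ 1 := by nlinarith
  have hδ1 : Real.exp (-U) ≤ 1 := Real.exp_le_one_iff.2 (by linarith)
  have hlog : |Real.log (c.N (pw T.su T.α)) - Real.log (c.N (pw T.sw T.β))| ≤ 2 := by
    rw [← propA_Nu, ← propA_Nw, abs_le]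
    have := hT.hu
    have := hT.hw
    constructor <;> linarith
  have hcard : (K : ℝ) ^ (T.su.card + T.sw.card) *
      (600 * (1 + Real.log X) / Real.exp (-U) ^ 2) < J + 1 := by
    refine lt_of_le_of_lt ?_ hJ2
    have hY : 0 < X ^ (ε / 4) := Real.rpow_pos_of_pos hXp _
    have ru := c.one_le_rad hT.nu
    have rw' := c.one_le_rad hT.nw
    have h1 : (K : ℝ) ^ (T.su.card + T.sw.card) ≤ C ^ 2 * X ^ (ε / 4) := by
      rw [pow_add]
      calc (K : ℝ) ^ T.su.card * (K : ℝ) ^ T.sw.card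
          ≤ (C * c.rad T.su ^ (ε / 4)) * (C * c.rad T.sw ^ (ε / 4)) :=
            mul_le_mul (hC _ hT.nu) (hC _ hT.nw) (by positivity) (by positivity)
        _ = C ^ 2 * (c.rad T.su * c.rad T.sw) ^ (ε / 4) := by
            rw [Real.mul_rpow (by linarith) (by linarith)]; ring
        _ ≤ C ^ 2 * X ^ (ε / 4) :=
            mul_le_mul_of_nonneg_left
              (Real.rpow_le_rpow (by positivity) hT.rad (by positivity)) (by positivity)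
    have h2 : Real.exp (-U) ^ 2 * X ^ (ε / 4) = 1 := by
      rw [Real.rpow_def_of_pos hXp, ← Real.exp_nat_mul, ← Real.exp_add, ← hL, hU, he4,
        Real.exp_eq_one_iff]
      push_cast; ring
    have h3 : 600 * (1 + Real.log X) / Real.exp (-U) ^ 2 ≤ 1200 * L * X ^ (ε / 4) := by
      rw [div_le_iff₀ (by positivity), ← hL]
      have : 1200 * L * X ^ (ε / 4) * Real.exp (-U) ^ 2 = 1200 * L := by
        rw [mul_assoc (1200 * L), mul_comm (X ^ (ε / 4)), h2, mul_one]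
      rw [this]; linarith
    have h4 : X ^ ε = X ^ (ε / 4) * X ^ (ε / 4) * X ^ (ε / 4) * X ^ (ε / 4) := by
      rw [← Real.rpow_add hXp, ← Real.rpow_add hXp, ← Real.rpow_add hXp]; congr 1; ring
    obtain ⟨Y, hYd⟩ : ∃ Y : ℝ, Y = X ^ (ε / 4) := ⟨_, rfl⟩
    rw [← hYd] at hY h1 h3 h4 hLa hLb
    rw [le_div_iff₀ hq]
    have h5 : (K : ℝ) ^ (T.su.card + T.sw.card) *
        (600 * (1 + Real.log X) / Real.exp (-U) ^ 2) ≤ (C ^ 2 * Y) * (1200 * L * Y) :=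
      mul_le_mul h1 h3 (by rw [← hL]; positivity) (by positivity)
    refine (mul_le_mul_of_nonneg_right h5 hq.le).trans ?_
    have h6 : (C ^ 2 * Y) * (1200 * L * Y) * (8 * (ω : ℝ) * ζ * γ) * H ≤ 1 * H := by
      calc (C ^ 2 * Y) * (1200 * L * Y) * (8 * (ω : ℝ) * ζ * γ) * H
          = (C ^ 2 * Y) * (1200 * L * Y) * (8 * (ω : ℝ) * ζ) * (γ * H) := by ring
        _ = (Y * Y) * (((C ^ 2 * 1200 * (8 * ω * ζ * G)) * L) * (1 * L)) := by rw [hγH]; ring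
        _ ≤ (Y * Y) * (Y * Y) :=
            mul_le_mul_of_nonneg_left (mul_le_mul hLa hLb (by positivity) hY.le) (by positivity)
        _ = X ^ ε := by rw [h4]; ring
        _ ≤ 1 * H := by rw [one_mul]; exact hH
    exact le_of_mul_le_mul_right h6 hHp
  obtain ⟨τ, e, f, hτ1, hτ2, he, hf, hP⟩ := approxA c T.su T.sw T.α T.β hT.nu hT.nw X hT.rad hlog
    (Real.exp (-U)) (Real.exp_pos _) hδ1 K J hK1 γ hγp hJ hcard
  have hτp : 0 < τ := lt_of_lt_of_le hγp hτ1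
  have hl : Slope ω ζ V τ := by
    refine ⟨hτp, ?_, ?_⟩
    · calc 8 * (ω : ℝ) * ζ * τ ≤ 8 * (ω : ℝ) * ζ * (J * γ) :=
            mul_le_mul_of_nonneg_left hτ2 (by positivity)
        _ = J * (8 * (ω : ℝ) * ζ * γ) := by ring
        _ ≤ 1 := hJ1
    · refine le_trans ?_ (mul_le_mul_of_nonneg_right hτ1 hV0)
      have h1 : η * H ≤ 2 * (U * V) := by linarith
      have h2 : 8 * (ω : ℝ) ^ 2 * (2 * U) ≤ γ * V * (2 * U) := by
        calc 8 * (ω : ℝ) ^ 2 * (2 * U) = (16 * (ω : ℝ) ^ 2 * e4) * L := by rw [hU]; ring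
          _ ≤ (G * η) * L := mul_le_mul_of_nonneg_right hG16 hLp.le
          _ = η * (γ * H) := by rw [hγH]; ring
          _ = γ * (η * H) := by ring
          _ ≤ γ * (2 * (U * V)) := mul_le_mul_of_nonneg_left h1 hγp.le
          _ = γ * V * (2 * U) := by ring
      exact le_of_mul_le_mul_right h2 (by positivity)
  have hKinv0 : (0 : ℝ) ≤ 1 / K := by positivity
  have hKinv1 : (1 : ℝ) / K ≤ 1 := by rw [div_le_one (by linarith)]; exact hKR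
  have hN1 : c.N (1 : R) ≤ 1 := c.N_one.le
  have hne := ne_of_approx c T X H hT e f 1 1 τ (1 / K) 1 hτp.le hKinv0 he hf one_ne_zero
    one_ne_zero hN1 hN1 (by
      rw [Real.log_one, zero_add, ← hL]
      have h1 : 1 / (K : ℝ) * L ≤ L := by nlinarith
      have h2 : γ * (H - 1) ≤ τ * (H - 1) := mul_le_mul_of_nonneg_right hτ1 (by linarith)
      have h3 : γ * (H / 2) ≤ γ * (H - 1) := mul_le_mul_of_nonneg_left (by linarith) hγp.le
      have h4 : 8 * L ≤ G * L := mul_le_mul_of_nonneg_right hG8 hLp.le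
      nlinarith)
  obtain ⟨n, n0, hn0, hNn0, hn⟩ := vals c T X H hT e f 1 1 τ (1 / K) 1 1 (ζ * V) le_rfl hτp.le
    hKinv0 he hf one_ne_zero one_ne_zero hN1 hN1
  have hY : ‖c.φ T.w / c.φ T.u - 1‖ ≤ Real.exp (-U) ^ V := by
    refine hratio.trans ?_
    rw [← Real.exp_nat_mul]
    exact Real.exp_le_exp.2 (by linarith)
  have hcore := coreA c hs hl (pw T.su e * 1) (pw T.sw f * 1) T.w T.u n0 n (Real.exp (-U))
    (Real.exp_pos _).le hδ1 (by rw [mul_one, mul_one]; exact hP) hY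
    (mul_ne_zero (pw_ne_zero hT.nu _) one_ne_zero) (mul_ne_zero (pw_ne_zero hT.nw _) one_ne_zero)
    (propA_w_ne hT) (propA_u_ne hT) hn0 hne hT.ne.symm (fun z hz l hl' => (hn z hz l hl').1)
  have h2e : (2 : ℝ) ^ (48 * (ω + 1) ^ 3 * (ζ * V)) ≤
      Real.exp ((48 * (ω + 1) ^ 3 * (ζ * V) : ℕ) * 1) := by
    rw [Real.exp_nat_mul]
    refine pow_le_pow_left₀ (by norm_num) ?_ _
    have := Real.add_one_le_exp (1 : ℝ); linarith
  have hall : 1 ≤ Real.exp ((48 * (ω + 1) ^ 3 * (ζ * V) : ℕ) * 1) *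
      Real.exp ((1 : ℕ) * H + (ζ * V : ℕ) * Real.log 1 +
        2 * (1 / (K : ℝ) * (ζ * V : ℕ) + 1) * Real.log X) * Real.exp (-U) ^ (V * ω) :=
    hcore.trans (mul_le_mul_of_nonneg_right
      (mul_le_mul h2e hNn0 (c.N_nonneg _) (Real.exp_pos _).le) (by positivity))
  rw [← Real.exp_nat_mul, ← Real.exp_add, ← Real.exp_add, Real.one_le_exp_iff, Real.log_one,
    ← hL] at hall
  push_cast at hall
  have hA1 : 48 * ((ω : ℝ) + 1) ^ 3 * (ζ * V) ≤ U * V / 2 := by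
    rw [div_le_iff₀ he4p] at hLc
    have h1 : 96 * ((ω : ℝ) + 1) ^ 3 * ζ ≤ U := by rw [hU]; linarith
    have h2 := mul_le_mul_of_nonneg_right h1 hV0
    linarith
  have hA2 : 2 * (1 / (K : ℝ) * (ζ * V)) * L ≤ U * V / 2 := by
    have h1 : 1 / (K : ℝ) * ζ ≤ e4 / 4 := by
      rw [div_mul_eq_mul_div, one_mul, div_le_div_iff₀ (by linarith) (by norm_num)]
      linarith
    have h2 := mul_le_mul_of_nonneg_right h1 (mul_nonneg hV0 hLp.le)
    rw [hU]; linarith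
  exact propA_final hω3 hη1 hωR hHp.le hV2 hUp.le (by linarith) hbig

end Pool.Agent.P.MP_6e34ef_nt.SY
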