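import Pool.Agent.P.MP_6e34ef_nt.SY.Core
import Pool.Agent.P.MP_6e34ef_nt.SY.Pigeon
import Pool.Agent.P.MP_6e34ef_nt.SY.Vals
import Pool.Agent.P.MP_6e34ef_nt.SY.Inst

set_option autoImplicit false

namespace Pool.Agent.P.MP_6e34ef_nt.SY

open Finset

variable {R : Type} [CommRing R] [IsDomain R]

theorem propN_cop {s : Finset R} {m : R} (h : ∀ q ∈ s, IsCoprime q m) (e : R → ℕ) :
    IsCoprime (pw s e) m :=
  IsCoprime.prod_left fun q hq => (h q hq).pow_left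

theorem propN_cells (c : Ctx R) (K ε : ℝ) (hK : 1 ≤ K) (hε : 0 < ε) :
    ∃ C : ℝ, 1 ≤ C ∧ ∀ (T : Tri R) (X H : ℝ), Good c T X H →
      K ^ (T.su.card + T.sw.card) ≤ C * X ^ ε := by
  obtain ⟨C, hC, h⟩ := pow_card_le c K ε hK hε
  refine ⟨C * C, by nlinarith, fun T X H hT => ?_⟩
  have a1 := h _ hT.nu
  have a2 := h _ hT.nw
  have b1 := c.one_le_rad hT.nu
  have b2 := c.one_le_rad hT.nw
  have b3 : c.rad T.su ^ ε * c.rad T.sw ^ ε ≤ X ^ ε := by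
    rw [← Real.mul_rpow (by linarith) (by linarith)]
    exact Real.rpow_le_rpow (by positivity) hT.rad hε.le
  rw [pow_add]
  calc K ^ T.su.card * K ^ T.sw.card ≤ (C * c.rad T.su ^ ε) * (C * c.rad T.sw ^ ε) :=
        mul_le_mul a1 a2 (by positivity) (by positivity)
    _ = C * C * (c.rad T.su ^ ε * c.rad T.sw ^ ε) := by ring
    _ ≤ C * C * X ^ ε := mul_le_mul_of_nonneg_left b3 (by positivity)

theorem propN (c : Ctx R) {ω S ζ : ℕ} (hs : Shape ω S ζ) (δ ε lam : ℝ) (hδ : 0 < δ) (hε : 0 < ε)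
    (hlam : 0 < lam) :
    ∃ X0 : ℝ, ∀ (T : Tri R) (X H B : ℝ) (A m : R) (V : ℕ) (BB : Finset R), X0 ≤ X →
      Good c T X H → X ^ ε ≤ H → H ≤ lam * V * Real.log X → V * Real.log X ≤ lam * H →
      1 ≤ B → B ≤ X → m ≠ 0 → A ≠ 0 → A ∣ m ^ V → A ∣ T.u - T.w →
      (∀ q ∈ T.su, IsCoprime q m) → (∀ q ∈ T.sw, IsCoprime q m) →
      (∀ r ∈ BB, r ≠ 0 ∧ c.N r ≤ B ∧ IsCoprime r m) →
      (∀ r1 ∈ BB, ∀ r2 ∈ BB, m ∣ r1 - r2 → r1 = r2) →
      c.N m ^ c.d * X ^ ε ≤ H * BB.card →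
      ω * Real.log (c.N A) ≤ S * H + ζ * V * Real.log B + δ * H := by
  have hω : (1 : ℝ) ≤ ω := by exact_mod_cast hs.hω
  have hζ : (1 : ℝ) ≤ ζ := by exact_mod_cast (le_trans (Nat.le_add_left 1 ω) hs.h1)
  obtain ⟨K, hK1, hK2⟩ : ∃ K : ℕ, 1 ≤ K ∧ 8 * ζ * lam / δ ≤ K :=
    ⟨⌈8 * ζ * lam / δ⌉₊ + 1, by omega, by push_cast; linarith [Nat.le_ceil (8 * ζ * lam / δ)]⟩
  have hKR : (1 : ℝ) ≤ K := by exact_mod_cast hK1
  set G : ℝ := 8 * (ω : ℝ) ^ 2 * lam + 8 with hG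
  have hG8 : 8 ≤ G := by rw [hG]; nlinarith [mul_pos (show (0 : ℝ) < 8 * (ω : ℝ) ^ 2 by positivity) hlam]
  obtain ⟨C, hC1, hC⟩ := propN_cells c K (ε / 2) hKR (by positivity)
  set cc : ℝ := 40 * ((ω : ℝ) + 1) ^ 3 * ζ with hcc
  have hcc0 : 0 < cc := by positivity
  have e1 := ev_log (C * c.C0 * (8 * ω * ζ * G)) (ε / 2) (by positivity)
  have e2 := ev_log (8 / δ) ε hε
  have e3 := ev_const (4 * cc * lam / δ)
  have e4 := ev_log 2 ε hε
  have e5 := ev_const 1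
  obtain ⟨X0, hX0⟩ := Filter.eventually_atTop.1
    (e1.and (e2.and (e3.and (e4.and (e5.and (Filter.eventually_ge_atTop (1 : ℝ)))))))
  refine ⟨X0, fun T X H B A m V BB hX hT hH hV1 hV2 hB1 hBX hm hA hAm hAx hcu hcw hBB hinc hcard => ?_⟩
  obtain ⟨f1, f2, f3, f4, f5, hX1⟩ := hX0 X hX
  set L := Real.log X with hL
  have hL0 : 0 < L := by linarith
  have hH2 : 2 ≤ H := by linarith
  have hH0 : 0 < H := by linarith
  set γ : ℝ := G * L / H with hγ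
  have hγ0 : 0 < γ := by positivity
  set J : ℕ := ⌊1 / (8 * ω * ζ * γ)⌋₊ with hJ
  have hden : 0 < 8 * (ω : ℝ) * ζ * γ := by positivity
  have hJ1 : (J : ℝ) ≤ 1 / (8 * ω * ζ * γ) := Nat.floor_le (by positivity)
  have hJ2 : 1 / (8 * ω * ζ * γ) < J + 1 := Nat.lt_floor_add_one _
  have hJ3 : 8 * (ω : ℝ) * ζ * (J * γ) ≤ 1 := by
    rw [le_div_iff₀ hden] at hJ1; linarith
  have hωζ : (1 : ℝ) ≤ 8 * ω * ζ := by nlinarith
  have hJ4 : (J : ℝ) * γ ≤ 1 := by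
    have : 0 ≤ (J : ℝ) * γ := by positivity
    nlinarith
  have hNm : 0 < c.N m ^ c.d := pow_pos (c.N_pos hm) _
  have hXe : 0 < X ^ (ε / 2) := by positivity
  have hXee : X ^ ε = X ^ (ε / 2) * X ^ (ε / 2) := by
    rw [← Real.rpow_add (by linarith)]; congr 1; ring
  have hBB0 : (0 : ℝ) < BB.card := by
    by_contra h0
    have : H * BB.card ≤ 0 := mul_nonpos_of_nonneg_of_nonpos hH0.le (not_lt.1 h0)
    have : 0 < c.N m ^ c.d * X ^ ε := by positivity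
    linarith
  have hpig : (K : ℝ) ^ (T.su.card + T.sw.card) * (c.C0 * c.N m ^ c.d) < (J + 1) * BB.card := by
    have g1 := hC T X H hT
    have g2 : H < (J + 1) * (8 * ω * ζ * G * L) := by
      rw [div_lt_iff₀ hden, hγ] at hJ2
      have : ((J : ℝ) + 1) * (8 * ω * ζ * (G * L / H)) = (J + 1) * (8 * ω * ζ * G * L) / H := by ring
      rw [this, lt_div_iff₀ hH0] at hJ2
      linarith
    have hD : 0 < 8 * (ω : ℝ) * ζ * G * L := by positivity
    apply lt_of_mul_lt_mul_right _ hD.le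
    have hC0 := c.C0_pos
    calc (K : ℝ) ^ (T.su.card + T.sw.card) * (c.C0 * c.N m ^ c.d) * (8 * ω * ζ * G * L)
        ≤ C * X ^ (ε / 2) * (c.C0 * c.N m ^ c.d) * (8 * ω * ζ * G * L) := by gcongr
      _ = c.N m ^ c.d * (X ^ (ε / 2) * (C * c.C0 * (8 * ω * ζ * G) * L)) := by ring
      _ ≤ c.N m ^ c.d * (X ^ (ε / 2) * X ^ (ε / 2)) := by gcongr
      _ ≤ H * BB.card := by rw [← hXee]; exact hcard
      _ < (J + 1) * (8 * ω * ζ * G * L) * BB.card := by gcongr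
      _ = (J + 1) * BB.card * (8 * ω * ζ * G * L) := by ring
  obtain ⟨τ, e, f, r1, hr1, r2, hr2, hτ1, hτ2, he, hf, hdvd⟩ :=
    approxN c T.su T.sw T.α T.β m hm hcu hcw BB hinc K J hK1 γ hγ0 hJ4 hpig
  have hτ0 : 0 < τ := lt_of_lt_of_le hγ0 hτ1
  have hV0 : (0 : ℝ) ≤ V := Nat.cast_nonneg V
  have hsl : Slope ω ζ V τ := by
    refine ⟨hτ0, ?_, ?_⟩
    · have : 8 * (ω : ℝ) * ζ * τ ≤ 8 * (ω : ℝ) * ζ * (J * γ) := by gcongr
      linarith
    · have g1 : 8 * (ω : ℝ) ^ 2 ≤ γ * V := by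
        rw [hγ, div_mul_eq_mul_div, le_div_iff₀ hH0]
        have g2 : 8 * (ω : ℝ) ^ 2 * H ≤ 8 * (ω : ℝ) ^ 2 * (lam * V * L) := by gcongr
        have g3 : 0 ≤ 8 * (L * V) := by positivity
        have g4 : G * L * V = 8 * (ω : ℝ) ^ 2 * (lam * V * L) + 8 * (L * V) := by rw [hG]; ring
        linarith
      exact g1.trans (by gcongr)
  obtain ⟨g1, g2, g3⟩ := hBB r1 hr1
  obtain ⟨g4, g5, g6⟩ := hBB r2 hr2
  have hKi : 1 / (K : ℝ) ≤ 1 := by rw [div_le_one (by linarith)]; exact hKR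
  have hKi0 : 0 ≤ 1 / (K : ℝ) := by positivity
  have hlB : Real.log B ≤ L := Real.log_le_log (by linarith) hBX
  have hne := ne_of_approx c T X H hT e f r1 r2 τ (1 / K) B hτ0.le hKi0 he hf g1 g4 g2 g5 (by
    have k1 : 4 * L ≤ γ * (H - 1) := by
      rw [hγ, div_mul_eq_mul_div, le_div_iff₀ hH0]
      have : 8 * L * (H - 1) ≤ G * L * (H - 1) := by gcongr; linarith
      nlinarith
    have k2 : γ * (H - 1) ≤ τ * (H - 1) := by gcongr; linarith
    have k3 : 1 / (K : ℝ) * L ≤ L := by nlinarith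
    linarith)
  obtain ⟨n, n0, hn0, -, hn⟩ := vals c T X H hT e f r1 r2 τ (1 / K) B S (ζ * V) hs.hS hτ0.le hKi0
    he hf g1 g4 g2 g5
  have hu0 : T.u ≠ 0 := mul_ne_zero T.εu.ne_zero (pw_ne_zero hT.nu _)
  have hw0 : T.w ≠ 0 := mul_ne_zero T.εw.ne_zero (pw_ne_zero hT.nw _)
  have hcore := coreN c hs hsl A m (pw T.su e * r1) (pw T.sw f * r2) T.w T.u n0 n hAm hdvd
    (by rw [← neg_sub]; exact hAx.neg_right)
    ((propN_cop hcw f).mul_left g6)
    ((isCoprime_mul_unit_left_left T.εu.isUnit _ _).2 (propN_cop hcu _))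
    (mul_ne_zero (pw_ne_zero hT.nu _) g1) (mul_ne_zero (pw_ne_zero hT.nw _) g4) hw0 hu0 hn0 hne
    hT.ne.symm (fun z hz l hl => (hn z hz l hl).1) _ (fun z hz l hl => (hn z hz l hl).2)
  have hlog := Real.log_le_log (pow_pos (c.N_pos hA) _) hcore
  rw [Real.log_pow, Real.log_mul (by positivity) (Real.exp_pos _).ne', Real.log_exp,
    Real.log_pow] at hlog
  push_cast at hlog
  have l2 : Real.log 2 ≤ 1 := by
    have := Real.log_le_sub_one_of_pos (show (0 : ℝ) < 2 by norm_num); linarith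
  have t1 : 40 * ((ω : ℝ) + 1) ^ 3 * (ζ * V) * Real.log 2 ≤ δ * H / 4 := by
    have k1 : 40 * ((ω : ℝ) + 1) ^ 3 * (ζ * V) * Real.log 2 ≤ cc * V := by
      have : 40 * ((ω : ℝ) + 1) ^ 3 * (ζ * V) = cc * V := by rw [hcc]; ring
      rw [this]
      exact mul_le_of_le_one_right (by positivity) l2
    rw [div_le_iff₀ hδ] at f3
    have k2 : cc * V * (4 * lam) ≤ δ * H / 4 * (4 * lam) := by
      calc cc * V * (4 * lam) = V * (4 * cc * lam) := by ring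
        _ ≤ V * (L * δ) := by gcongr
        _ = δ * (V * L) := by ring
        _ ≤ δ * (lam * H) := by gcongr
        _ = δ * H / 4 * (4 * lam) := by ring
    exact k1.trans (le_of_mul_le_mul_right k2 (by positivity))
  have t2 : 2 * (1 / (K : ℝ) * (ζ * V)) * L ≤ δ * H / 4 := by
    rw [div_le_iff₀ hδ] at hK2
    have k1 : 2 * (1 / (K : ℝ) * (ζ * V)) * L = 2 * ζ * (V * L) / K := by ring
    rw [k1, div_le_iff₀ (by linarith)]
    calc 2 * ζ * (V * L) ≤ 2 * ζ * (lam * H) := by gcongr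
      _ = (8 * ζ * lam) * (H / 4) := by ring
      _ ≤ (K * δ) * (H / 4) := by gcongr
      _ = δ * H / 4 * K := by ring
  have t3 : 2 * L ≤ δ * H / 4 := by
    have k1 : 8 / δ * L ≤ H := f2.trans hH
    rw [div_mul_eq_mul_div, div_le_iff₀ hδ] at k1
    linarith
  have t4 : 0 ≤ δ * H := by positivity
  nlinarith

end Pool.Agent.P.MP_6e34ef_nt.SY
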