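import Pool.Agent.P.MP_6e34ef_nt.SY.Small
import Pool.Agent.P.MP_6e34ef_nt.SY.Big
import Pool.Agent.P.MP_6e34ef_nt.SY.PropA

set_option autoImplicit false

namespace Pool.Agent.P.MP_6e34ef_nt.SY

open Finset

variable {R : Type} [CommRing R] [IsDomain R]

theorem side_dvd {s t : Finset R} (h : t ⊆ s) (v : R → ℕ) : pw t v ∣ pw s v :=
  Finset.prod_dvd_prod_of_subset t s _ h

theorem side [IsPrincipalIdealRing R] (c : Ctx R) (ε : ℝ) (hε : 0 < ε) :
    ∃ X0 : ℝ, ∀ (T : Tri R) (X H : ℝ) (s : Finset R) (v : R → ℕ) (εx : Rˣ), X0 ≤ X →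
      Good c T X H → T.u - T.w = (εx : R) * pw s v → (∀ p ∈ s, Prime p) →
      Real.log (c.N (T.u - T.w)) ≤ H →
      (∀ p ∈ s, ∀ q ∈ T.su, IsCoprime q p) → (∀ p ∈ s, ∀ q ∈ T.sw, IsCoprime q p) →
      c.rad s ≤ X ^ ((1 : ℝ) / 3) → H ≤ X ^ ((c.d : ℝ) / 6 + ε) := by
  classical
  obtain ⟨η, X1, hη0, hη1, hbig⟩ := bigPrime c ε hε
  obtain ⟨X2, hsmall⟩ := smallPart c (η / 8) ε (by positivity) hε
  obtain ⟨X3, harch⟩ := propA c (η / 8) ε (by positivity) (by linarith) hε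
  refine ⟨max (max X1 X2) (max X3 1), fun T X H s v εx hX hT hx hs hH hcu hcw hrad => ?_⟩
  have hX1 : X1 ≤ X := le_trans (le_trans (le_max_left _ _) (le_max_left _ _)) hX
  have hX2 : X2 ≤ X := le_trans (le_trans (le_max_right _ _) (le_max_left _ _)) hX
  have hX3 : X3 ≤ X := le_trans (le_trans (le_max_left _ _) (le_max_right _ _)) hX
  have hX4 : 1 ≤ X := le_trans (le_trans (le_max_right _ _) (le_max_right _ _)) hX
  by_contra hcon
  have hHX : X ^ ((c.d : ℝ) / 6 + ε) ≤ H := (not_le.1 hcon).le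
  have hH0 : 0 < H := lt_of_lt_of_le (by positivity) hHX
  have hHe : X ^ ε ≤ H :=
    le_trans (Real.rpow_le_rpow_of_exponent_le hX4 (le_add_of_nonneg_left (by positivity))) hHX
  have hs0 : ∀ p ∈ s, p ≠ 0 := fun p hp => (hs p hp).ne_zero
  have ha := harch T X H hX3 hT hHe
  have hlogx : Real.log (c.N (T.u - T.w)) = ∑ q ∈ s, (v q : ℝ) * Real.log (c.N q) := by
    rw [hx, c.N_mul, c.N_unit, one_mul, c.log_N_pw hs0]
  have hsm : ∀ t : Finset R, t ⊆ s → c.rad t ≤ X ^ ((1 : ℝ) / 6) →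
      ∑ q ∈ t, (v q : ℝ) * Real.log (c.N q) ≤ η / 8 * H := by
    intro t ht hr
    rw [← c.log_N_pw (fun q hq => hs0 q (ht hq))]
    exact hsmall T X H t v hX2 hT hHX (fun q hq => hs0 q (ht hq))
      (by rw [hx]; exact (side_dvd ht v).mul_left _) hH
      (fun p hp => hcu p (ht hp)) (fun p hp => hcw p (ht hp)) hr
  have h16 : 1 ≤ X ^ ((1 : ℝ) / 6) := Real.one_le_rpow hX4 (by norm_num)
  obtain ⟨s1, hs1, hmax⟩ := Finset.exists_max_image
    (s.powerset.filter fun t => c.rad t ≤ X ^ ((1 : ℝ) / 6)) Finset.card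
    ⟨∅, Finset.mem_filter.2 ⟨Finset.empty_mem_powerset _, by simpa [Ctx.rad] using h16⟩⟩
  obtain ⟨hs1a, hs1b⟩ := Finset.mem_filter.1 hs1
  have hsub : s1 ⊆ s := Finset.mem_powerset.1 hs1a
  have hηH : η * H ≤ H := mul_le_of_le_one_left hH0.le hη1
  by_cases hall : s ⊆ s1
  · have e : s1 = s := Finset.Subset.antisymm hsub hall
    have := hsm s subset_rfl (e ▸ hs1b)
    rw [hlogx] at ha
    linarith
  obtain ⟨p, hps, hp1⟩ := Finset.not_subset.1 hall
  have hins : insert p s1 ⊆ s := Finset.insert_subset hps hsub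
  have hlarge : X ^ ((1 : ℝ) / 6) < c.rad (insert p s1) := by
    by_contra h
    have := hmax (insert p s1) (Finset.mem_filter.2 ⟨Finset.mem_powerset.2 hins, not_lt.1 h⟩)
    rw [Finset.card_insert_of_notMem hp1] at this
    omega
  have hsplit : c.rad (s \ insert p s1) * c.rad (insert p s1) = c.rad s :=
    Finset.prod_sdiff hins
  have h13 : X ^ ((1 : ℝ) / 3) = X ^ ((1 : ℝ) / 6) * X ^ ((1 : ℝ) / 6) := by
    rw [← Real.rpow_add (by linarith)]; norm_num
  have hr2 : 1 ≤ c.rad (s \ insert p s1) := c.one_le_rad fun q hq => hs0 q (Finset.sdiff_subset hq)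
  have hs2 : c.rad (s \ insert p s1) ≤ X ^ ((1 : ℝ) / 6) := by
    by_contra h
    have h' := not_le.1 h
    have : X ^ ((1 : ℝ) / 6) * X ^ ((1 : ℝ) / 6) <
        c.rad (s \ insert p s1) * c.rad (insert p s1) :=
      mul_lt_mul'' h' hlarge (by linarith) (by linarith)
    linarith
  have hsum : ∑ q ∈ s, (v q : ℝ) * Real.log (c.N q) =
      ∑ q ∈ s \ insert p s1, (v q : ℝ) * Real.log (c.N q) +
        ((v p : ℝ) * Real.log (c.N p) + ∑ q ∈ s1, (v q : ℝ) * Real.log (c.N q)) := by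
    rw [← Finset.sum_insert (f := fun q => (v q : ℝ) * Real.log (c.N q)) hp1,
      Finset.sum_sdiff hins]
  have b1 := hsm s1 hsub hs1b
  have b2 := hsm _ Finset.sdiff_subset hs2
  rw [hlogx, hsum] at ha
  by_cases hp : c.N p ≤ X ^ ((1 : ℝ) / 6)
  · have b3 := hsm {p} (Finset.singleton_subset_iff.2 hps) (by simpa [Ctx.rad] using hp)
    rw [Finset.sum_singleton] at b3
    linarith
  · have hpr : c.N p ≤ c.rad s := by
      have e : c.rad (s \ {p}) * c.rad {p} = c.rad s :=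
        Finset.prod_sdiff (Finset.singleton_subset_iff.2 hps)
      have e1 : 1 ≤ c.rad (s \ {p}) := c.one_le_rad fun q hq => hs0 q (Finset.sdiff_subset hq)
      have e2 : c.rad {p} = c.N p := by simp [Ctx.rad]
      rw [← e, e2]
      exact le_mul_of_one_le_left (c.N_nonneg _) e1
    have hd : p ^ v p ∣ T.u - T.w := by
      rw [hx]
      exact (Finset.dvd_prod_of_mem (fun q => q ^ v q) hps).mul_left _
    have b3 := hbig T X H p (v p) hX1 hT hHX (hs p hps) hd hH (hcu p hps) (hcw p hps)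
      (not_le.1 hp).le (hpr.trans hrad)
    have : 0 < η * H := by positivity
    linarith

end Pool.Agent.P.MP_6e34ef_nt.SY
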