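import Pool.Agent.P.MP_6e34ef_nt.SY.PropN

set_option autoImplicit false

namespace Pool.Agent.P.MP_6e34ef_nt.SY

open Finset

variable {R : Type} [CommRing R] [IsDomain R]

/-- A set of primes with small product carries only a small part of `u - w`. -/
theorem smallPart (c : Ctx R) (η ε : ℝ) (hη : 0 < η) (hε : 0 < ε) :
    ∃ X0 : ℝ, ∀ (T : Tri R) (X H : ℝ) (s : Finset R) (v : R → ℕ), X0 ≤ X → Good c T X H →
      X ^ ((c.d : ℝ) / 6 + ε) ≤ H → (∀ p ∈ s, p ≠ 0) → pw s v ∣ T.u - T.w →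
      Real.log (c.N (T.u - T.w)) ≤ H →
      (∀ p ∈ s, ∀ q ∈ T.su, IsCoprime q p) → (∀ p ∈ s, ∀ q ∈ T.sw, IsCoprime q p) →
      c.rad s ≤ X ^ ((1 : ℝ) / 6) → Real.log (c.N (pw s v)) ≤ η * H := by
  set ω := ⌈2 / η⌉₊ with hω
  have hω1 : 1 ≤ ω := Nat.one_le_iff_ne_zero.2 (Nat.ceil_pos.2 (by positivity)).ne'
  have hs : Shape ω 1 (ω ^ 2 + 1) :=
    ⟨hω1, le_rfl, by nlinarith, by omega, by nlinarith⟩
  set e4 : ℝ := ε / (2 * ((c.d : ℝ) + 1)) with he4
  have he4pos : 0 < e4 := by positivity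
  have hde : (c.d : ℝ) * e4 ≤ ε / 2 := by
    rw [he4, mul_div_assoc', div_le_div_iff₀ (by positivity) (by norm_num)]
    nlinarith
  obtain ⟨X1, hX1⟩ := propN c hs 1 (ε / 2) (e4 + 1 / e4 + 1) one_pos (by positivity)
    (by positivity)
  obtain ⟨X2, hX2⟩ := Filter.eventually_atTop.1 ((ev_log 1 ε hε).and (ev_const 1))
  refine ⟨max (max X1 X2) 1, ?_⟩
  intro T X H s v hX hG hH hs0 hdvd hlog hcu hcw hrad
  have hX1' : X1 ≤ X := (le_max_left _ _).trans ((le_max_left _ _).trans hX)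
  have hX2' : X2 ≤ X := (le_max_right _ _).trans ((le_max_left _ _).trans hX)
  have hone : 1 ≤ X := (le_max_right _ _).trans hX
  have hXpos : 0 < X := by linarith
  obtain ⟨hL1, hL2⟩ := hX2 X hX2'
  set L := Real.log X with hL
  have hLpos : 0 < L := by linarith
  have hd0 : (0 : ℝ) ≤ (c.d : ℝ) / 6 := by positivity
  have hH1 : X ^ ε ≤ H := (Real.rpow_le_rpow_of_exponent_le hone (by linarith)).trans hH
  have hH2 : X ^ (ε / 2) ≤ H := (Real.rpow_le_rpow_of_exponent_le hone (by linarith)).trans hH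
  have hLH : L ≤ H := by linarith
  have hHpos : 0 < H := by linarith
  set V := ⌈H / (e4 * L)⌉₊ with hV
  have hVpos : 0 < V := Nat.ceil_pos.2 (by positivity)
  have hVr : (0 : ℝ) < V := by exact_mod_cast hVpos
  have hV1 : H ≤ e4 * L * V := by
    have := Nat.le_ceil (H / (e4 * L))
    rw [← hV, div_le_iff₀ (by positivity)] at this
    linarith
  have hV2 : V * L ≤ 1 / e4 * H + L := by
    have := (Nat.ceil_lt_add_one (show 0 ≤ H / (e4 * L) by positivity)).le
    rw [← hV] at this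
    calc V * L ≤ (H / (e4 * L) + 1) * L := by gcongr
      _ = 1 / e4 * H + L := by field_simp
  have hA0 : pw s v ≠ 0 := pw_ne_zero hs0 v
  have hne : T.u - T.w ≠ 0 := sub_ne_zero.2 hG.ne
  have hAH : Real.log (c.N (pw s v)) ≤ H :=
    (Real.log_le_log (c.N_pos hA0) (c.N_le_of_dvd hne hdvd)).trans hlog
  set m := pw s (fun q => v q / V + 1) with hm
  have hm0 : m ≠ 0 := pw_ne_zero hs0 _
  have hAm : pw s v ∣ m ^ V := by
    rw [hm, pw, pw, ← Finset.prod_pow]
    refine Finset.prod_dvd_prod_of_dvd _ _ fun q _ => ?_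
    rw [← pow_mul]
    refine pow_dvd_pow _ ?_
    have := Nat.lt_div_mul_add (a := v q) hVpos
    rw [add_mul, one_mul]
    exact this.le
  have hcop : ∀ q : R, (∀ p ∈ s, IsCoprime q p) → IsCoprime q m := fun q hq =>
    IsCoprime.prod_right fun p hp => (hq p hp).pow_right
  have hradlog : Real.log (c.rad s) ≤ L / 6 := by
    have := Real.log_le_log (lt_of_lt_of_le one_pos (c.one_le_rad hs0)) hrad
    rw [Real.log_rpow hXpos] at this
    linarith
  have hmlog : Real.log (c.N m) ≤ (e4 + 1 / 6) * L := by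
    have h1 : Real.log (c.N m) ≤ Real.log (c.N (pw s v)) / V + Real.log (c.rad s) := by
      rw [hm, c.log_N_pw hs0, c.log_N_pw hs0, c.log_rad hs0, Finset.sum_div,
        ← Finset.sum_add_distrib]
      refine Finset.sum_le_sum fun q hq => ?_
      have h2 := c.log_N_nonneg (hs0 q hq)
      have h3 : ((v q / V : ℕ) : ℝ) ≤ (v q : ℝ) / V := Nat.cast_div_le
      push_cast
      calc (((v q / V : ℕ) : ℝ) + 1) * Real.log (c.N q)
          ≤ ((v q : ℝ) / V + 1) * Real.log (c.N q) := by gcongr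
        _ = v q * Real.log (c.N q) / V + Real.log (c.N q) := by ring
    have h4 : Real.log (c.N (pw s v)) / V ≤ e4 * L := by
      rw [div_le_iff₀ hVr]; linarith
    linarith
  have hcard : c.N m ^ c.d * X ^ (ε / 2) ≤ H * (({1} : Finset R).card : ℝ) := by
    rw [Finset.card_singleton, Nat.cast_one, mul_one]
    refine le_trans ?_ hH
    have h1 : c.N m ≤ X ^ (e4 + 1 / 6) := by
      rw [← Real.log_le_log_iff (c.N_pos hm0) (by positivity), Real.log_rpow hXpos]
      exact hmlog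
    calc c.N m ^ c.d * X ^ (ε / 2) ≤ (X ^ (e4 + 1 / 6)) ^ c.d * X ^ (ε / 2) := by
          gcongr
          exact c.N_nonneg m
      _ = X ^ ((e4 + 1 / 6) * c.d + ε / 2) := by
          rw [Real.rpow_add hXpos ((e4 + 1 / 6) * c.d), Real.rpow_mul_natCast hXpos.le]
      _ ≤ X ^ ((c.d : ℝ) / 6 + ε) := Real.rpow_le_rpow_of_exponent_le hone (by nlinarith)
  have key := hX1 T X H 1 (pw s v) m V {1} hX1' hG hH2
    (by
      have : 0 ≤ (1 / e4 + 1) * V * L := by positivity
      nlinarith)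
    (by
      have : 0 ≤ e4 * H := by positivity
      nlinarith)
    le_rfl hone hm0 hA0 hAm hdvd
    (fun q hq => hcop q fun p hp => hcu p hp q hq) (fun q hq => hcop q fun p hp => hcw p hp q hq)
    (by
      intro r hr
      rw [Finset.mem_singleton.1 hr]
      exact ⟨one_ne_zero, c.N_one.le, isCoprime_one_left⟩)
    (by
      intro r1 h1 r2 h2 _
      rw [Finset.mem_singleton.1 h1, Finset.mem_singleton.1 h2])
    hcard
  rw [Real.log_one] at key
  have hω2 : 2 / η ≤ ω := Nat.le_ceil _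
  have hA1 := c.log_N_nonneg hA0
  have h5 : 2 / η * Real.log (c.N (pw s v)) ≤ 2 * H := by
    calc 2 / η * Real.log (c.N (pw s v)) ≤ ω * Real.log (c.N (pw s v)) := by gcongr
      _ ≤ 2 * H := by
        push_cast at key
        linarith
  rw [div_mul_eq_mul_div, div_le_iff₀ hη] at h5
  linarith

end Pool.Agent.P.MP_6e34ef_nt.SY
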