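import Pool.Agent.P.MP_6e34ef_nt.SY.Cas

set_option autoImplicit false

namespace Pool.Agent.P.MP_6e34ef_nt.SY

open Finset Polynomial

/-- The binomial coefficient as a polynomial. -/
noncomputable def zero_binom (b : ℕ) : ℂ[X] := C (1 / (b.factorial : ℂ)) * descPochhammer ℂ b

theorem zero_binom_eval (b k : ℕ) : (zero_binom b).eval (k : ℂ) = (k.choose b : ℂ) := by
  rw [Nat.cast_choose_eq_descPochhammer_div ℂ k b, zero_binom, eval_mul, eval_C]
  ring

theorem zero_binom_natDegree (b : ℕ) : (zero_binom b).natDegree ≤ b := by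
  unfold zero_binom
  exact (natDegree_C_mul_le _ _).trans (descPochhammer_natDegree ℂ b).le

theorem zero_triangular {ω : ℕ} (c : Fin ω → ℂ)
    (h : ∀ k : ℕ, ∑ b : Fin ω, c b * (k.choose (b : ℕ) : ℂ) = 0) : ∀ b, c b = 0 := by
  have key : ∀ n : ℕ, ∀ b : Fin ω, (b : ℕ) = n → c b = 0 := by
    intro n
    induction n using Nat.strong_induction_on with
    | _ n ih =>
      intro b hb
      have h1 := h n
      rw [Finset.sum_eq_single b] at h1
      · rw [hb, Nat.choose_self] at h1
        simpa using h1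
      · intro b' _ hne
        have hne' : (b' : ℕ) ≠ n := fun h' => hne (Fin.ext (h'.trans hb.symm))
        rcases lt_or_gt_of_ne hne' with hlt | hgt
        · rw [ih _ hlt b' rfl, zero_mul]
        · rw [Nat.choose_eq_zero_of_lt hgt, Nat.cast_zero, mul_zero]
      · intro hb'
        exact absurd (Finset.mem_univ b) hb'
  exact fun b => key _ b rfl

theorem zero_tailIndep {κ T : Type} [Fintype κ] [Fintype T] [Subsingleton T] (x : ℂ)
    (hx0 : x ≠ 0) (hx1 : x ≠ 1) (A : κ → ℂ[X]) (hA : LinearIndependent ℂ A) (B : ℂ[X])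
    (hB : ∀ _u : T, B ≠ 0) :
    TailIndep fun (i : κ ⊕ T) n => (Sum.elim (fun _ => (1 : ℂ)) (fun _ => x) i) ^ n *
      (Sum.elim A (fun _ => B) i).eval (n : ℂ) := by
  intro N0 a ha
  obtain ⟨hp, hq⟩ := expPoly_eq_zero x hx0 hx1 (∑ i, a (Sum.inl i) • A i)
    (C (∑ u, a (Sum.inr u)) * B) N0 (fun n hn => by
      have h1 := ha n hn
      rw [Fintype.sum_sum_type] at h1
      simp only [Sum.elim_inl, Sum.elim_inr, one_pow, one_mul] at h1
      rw [eval_finsetSum, eval_mul, eval_C, Finset.sum_mul, Finset.sum_mul, ← h1]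
      congr 1
      · exact Finset.sum_congr rfl fun i _ => by rw [eval_smul, smul_eq_mul]
      · exact Finset.sum_congr rfl fun u _ => by ring)
  funext i
  rcases i with i | u
  · exact Fintype.linearIndependent_iff.1 hA _ hp i
  · have h2 : ∑ u', a (Sum.inr u') = a (Sum.inr u) :=
      Finset.sum_eq_single u (fun b _ hb => absurd (Subsingleton.elim b u) hb)
        (fun h => absurd (Finset.mem_univ u) h)
    rw [h2] at hq
    rcases mul_eq_zero.1 hq with h3 | h3
    · exact C_eq_zero.1 h3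
    · exact absurd h3 (hB u)

theorem zero_sum_sub (P : ℂ[X]) [Fintype {_u : Unit // P ≠ 0}] (f : ℂ) (hf : P = 0 → f = 0) :
    ∑ _u : {_u : Unit // P ≠ 0}, f = f := by
  by_cases hP : P = 0
  · rw [hf hP, Finset.sum_const_zero]
  · exact Finset.sum_eq_single ⟨(), hP⟩ (fun b _ hb => absurd (Subsingleton.elim _ _) hb)
      (fun h => absurd (Finset.mem_univ _) h)

theorem zero_lemma (t w : ℂ) (ht0 : t ≠ 0) (ht1 : t ≠ 1) (hw0 : w ≠ 0) (hw1 : w ≠ 1)
    (ω S V W Z g : ℕ) (κ : ℕ → ℕ) (G : Finset ℕ)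
    (hG : ∀ z ∈ G, z + ω < Z ∧ ∀ j ≤ ω, κ (z + j) = κ z)
    (hg : ∀ E : Finset ℕ, E.card ≤ ω ^ 2 → g ≤ (G.filter (fun z => κ z ∉ E)).card)
    (h1 : ∑ b ∈ range ω, (V * (ω - b) + W) + W ≤ S * g) (h2 : V * ω + W ≤ g)
    (Q : ℕ → ℂ[X]) (P : ℂ[X]) (hQ : ∀ b < ω, (Q b).natDegree < V * (ω - b) + W)
    (hP : P.natDegree < W)
    (hv : ∀ z < Z, ∀ l < S, ∑ b ∈ range ω, (Q b).eval (z : ℂ) * ((κ z + l).choose b : ℂ) +
      P.eval (z : ℂ) * t ^ z * w ^ (κ z + l) = 0) :
    (∀ b < ω, Q b = 0) ∧ P = 0 := by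
  classical
  obtain ⟨K, a, ha, hsp, hli⟩ := exists_linearIndependent' ℂ (fun b : Fin ω => Q b)
  let _inst : Fintype K := Fintype.ofInjective a ha
  have hK : Fintype.card K ≤ ω := by
    simpa using Fintype.card_le_of_injective a ha
  have hex : ∀ b : Fin ω, ∃ c : K → ℂ, ∑ i, c i • Q (a i) = Q b := fun b =>
    (Submodule.mem_span_range_iff_exists_fun ℂ).1
      (hsp ▸ Submodule.subset_span (Set.mem_range_self b) :
        Q b ∈ Submodule.span ℂ (Set.range ((fun b : Fin ω => Q b) ∘ a)))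
  choose cf hcf using hex
  have hcfa : ∀ i' i, cf (a i') i = if i = i' then 1 else 0 := by
    intro i' i
    have h3 := Fintype.linearIndependent_iff.1 hli
      (fun i => cf (a i') i - if i = i' then 1 else 0) (by
        simp only [Function.comp, sub_smul, Finset.sum_sub_distrib, hcf, ite_smul, one_smul,
          zero_smul, Finset.sum_ite_eq', Finset.mem_univ, if_true, sub_self]) i
    exact sub_eq_zero.1 h3
  set gg : K → ℂ[X] := fun i => ∑ b : Fin ω, cf b i • zero_binom b with hgg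
  have hgev : ∀ i (k : ℕ), (gg i).eval (k : ℂ) = ∑ b : Fin ω, cf b i * (k.choose (b : ℕ) : ℂ) := by
    intro i k
    rw [hgg, eval_finsetSum]
    exact Finset.sum_congr rfl fun b _ => by rw [eval_smul, smul_eq_mul, zero_binom_eval]
  have hgli : LinearIndependent ℂ gg := by
    rw [Fintype.linearIndependent_iff]
    intro e he i'
    have h4 := zero_triangular (fun b : Fin ω => ∑ i, e i * cf b i) (fun k => by
      have h5 := congrArg (Polynomial.eval (k : ℂ)) he
      rw [eval_finsetSum, eval_zero] at h5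
      rw [← h5]
      simp only [eval_smul, smul_eq_mul, hgev, Finset.sum_mul, Finset.mul_sum]
      rw [Finset.sum_comm]
      exact Finset.sum_congr rfl fun i _ => Finset.sum_congr rfl fun b _ => by ring) (a i')
    simpa [hcfa] using h4
  have hgdeg : ∀ i, (gg i).natDegree ≤ ω := fun i =>
    natDegree_sum_le_of_forall_le _ _ fun b _ =>
      (natDegree_smul_le _ _).trans ((zero_binom_natDegree b).trans b.2.le)
  have hT : Fintype.card {_u : Unit // P ≠ 0} ≤ 1 :=
    Fintype.card_le_one_iff_subsingleton.2 inferInstance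
  have hcard : Fintype.card (K ⊕ {_u : Unit // P ≠ 0}) ≤ ω + 1 := by
    rw [Fintype.card_sum]; omega
  obtain ⟨E, hE, hmin⟩ := zero0 (ι := K ⊕ {_u : Unit // P ≠ 0})
    (Sum.elim (fun _ => (1 : ℂ)) (fun _ => t)) (Sum.elim (fun _ => (1 : ℂ)) (fun _ => w))
    (by rintro (i | u); exacts [one_ne_zero, ht0]) (by rintro (i | u); exacts [one_ne_zero, hw0])
    (Sum.elim (fun i => Q (a i)) (fun _ => P)) (Sum.elim gg (fun _ => 1))
    (zero_tailIndep t ht0 ht1 _ hli P (fun u => u.2))
    (zero_tailIndep w hw0 hw1 _ hgli 1 (fun _ => one_ne_zero)) S κ G (by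
      intro z hz j hj l hl
      obtain ⟨hz1, hz2⟩ := hG z hz
      have hj' : j ≤ ω := by omega
      have h6 := hv (z + j) (by omega) l hl
      rw [hz2 j hj'] at h6
      rw [Fintype.sum_sum_type, ← h6]
      simp only [Sum.elim_inl, Sum.elim_inr, one_pow, one_mul, eval_one, mul_one]
      congr 1
      · rw [Finset.sum_range (fun b => (Q b).eval ((z + j : ℕ) : ℂ) * ((κ z + l).choose b : ℂ))]
        simp only [hgev, Finset.mul_sum]
        rw [Finset.sum_comm]
        refine Finset.sum_congr rfl fun b _ => ?_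
        rw [← hcf b, eval_finsetSum, Finset.sum_mul]
        exact Finset.sum_congr rfl fun i _ => by rw [eval_smul, smul_eq_mul]; ring
      · rw [zero_sum_sub P _ (fun h => by rw [h, eval_zero]; ring)]
        ring)
  have hE2 : E.card ≤ ω ^ 2 := by
    refine hE.trans ?_
    rw [Fintype.sum_sum_type]
    simp only [Sum.elim_inl, Sum.elim_inr, natDegree_one, Finset.sum_const_zero, add_zero]
    calc ∑ i, (gg i).natDegree ≤ ∑ _i : K, ω := Finset.sum_le_sum fun i _ => hgdeg i
      _ = Fintype.card K * ω := by rw [Finset.sum_const, Finset.card_univ, smul_eq_mul]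
      _ ≤ ω ^ 2 := by rw [sq]; exact Nat.mul_le_mul_right _ hK
  have hgE := hg E hE2
  set r := Fintype.card (K ⊕ {_u : Unit // P ≠ 0}) with hr
  set D := ∑ i : K ⊕ {_u : Unit // P ≠ 0},
    (Sum.elim (fun i => Q (a i)) (fun _ => P) i).natDegree with hD
  have hDr : D + r = ∑ i : K ⊕ {_u : Unit // P ≠ 0},
      ((Sum.elim (fun i => Q (a i)) (fun _ => P) i).natDegree + 1) := by
    rw [Finset.sum_add_distrib, Finset.sum_const, Finset.card_univ, smul_eq_mul, mul_one]
  have hA : D + r ≤ S * g := by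
    rw [hDr, Fintype.sum_sum_type]
    refine le_trans (add_le_add ?_ ?_) h1
    · simp only [Sum.elim_inl]
      calc ∑ i, ((Q (a i)).natDegree + 1) ≤ ∑ i, (V * (ω - (a i : ℕ)) + W) :=
            Finset.sum_le_sum fun i _ => hQ _ (a i).2
        _ = ∑ b ∈ Finset.univ.map ⟨a, ha⟩, (V * (ω - (b : ℕ)) + W) := by
            rw [Finset.sum_map]; rfl
        _ ≤ ∑ b : Fin ω, (V * (ω - (b : ℕ)) + W) :=
            Finset.sum_le_sum_of_subset (Finset.subset_univ _)
        _ = ∑ b ∈ range ω, (V * (ω - b) + W) :=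
            (Finset.sum_range (fun b => V * (ω - b) + W)).symm
    · simp only [Sum.elim_inr]
      rw [Finset.sum_const, Finset.card_univ, smul_eq_mul]
      calc Fintype.card {_u : Unit // P ≠ 0} * (P.natDegree + 1) ≤ 1 * W :=
            Nat.mul_le_mul hT hP
        _ = W := one_mul _
  have hB : D + r ≤ r * g := by
    rw [hDr]
    calc ∑ i : K ⊕ {_u : Unit // P ≠ 0},
          ((Sum.elim (fun i => Q (a i)) (fun _ => P) i).natDegree + 1)
        ≤ ∑ _i : K ⊕ {_u : Unit // P ≠ 0}, g := by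
          refine Finset.sum_le_sum ?_
          rintro (i | u) _
          · have h7 := hQ _ (a i).2
            have h8 : V * (ω - (a i : ℕ)) ≤ V * ω := Nat.mul_le_mul_left _ (Nat.sub_le _ _)
            simp only [Sum.elim_inl]
            omega
          · simp only [Sum.elim_inr]
            omega
      _ = r * g := by rw [Finset.sum_const, Finset.card_univ, smul_eq_mul]
  have hr0 : r = 0 := by
    have h9 : min S r * g ≤ D := (Nat.mul_le_mul_left _ hgE).trans hmin
    rcases le_total S r with h | h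
    · rw [min_eq_left h] at h9; omega
    · rw [min_eq_right h] at h9; omega
  have hemp : IsEmpty (K ⊕ {_u : Unit // P ≠ 0}) := Fintype.card_eq_zero_iff.1 hr0
  refine ⟨fun b hb => ?_, ?_⟩
  · rw [← hcf ⟨b, hb⟩]
    exact Finset.sum_eq_zero fun i _ => (hemp.false (Sum.inl i)).elim
  · by_contra hP0
    exact hemp.false (Sum.inr ⟨(), hP0⟩)

end Pool.Agent.P.MP_6e34ef_nt.SY
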